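import Pool.Agent.helper37.CZ.SpecD

/-! # Short rows of cz: SMC, KSM, INK, CSM, FSB, KAD, EQK, IDE, CL1, CL2, CO2 -/

set_option autoImplicit false

open scoped Matrix Topology ComplexConjugate
open Filter

namespace Pool.Agent.CZ

theorem SMC : SMC_stmt := by
  intro X _ _ α A _ ι u c hc f a ha n
  have hcont : Continuous (c n) :=
    (LinearMap.mkContinuous (c n) 1 (fun a => by rw [one_mul]; exact hc.cnorm n a)).continuous
  have h1 := ha.map (c n).toAddMonoidHom hcont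
  have h2 : (fun j => (c n).toAddMonoidHom (ι (f j) * up u j)) = fun j => if j = n then f n else 0 := by
    funext j
    change c n (ι (f j) * up u j) = _
    rw [hc.cval]
    by_cases h : n = j
    · subst h; simp
    · rw [if_neg h, if_neg (Ne.symm h)]
  have h3 : HasSum (fun j => if j = n then f n else 0) (c n a) := by
    rw [← h2]; exact h1
  exact h3.unique (hasSum_ite_eq n (f n))

theorem KSM (h1 : SMI_stmt) (h2 : CLO_stmt) : KSM_stmt := by
  intro X _ _ α A _ ι u c hc p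
  obtain ⟨ε, hε, h3⟩ := h2 A p.n p.e p.idem
  obtain ⟨f, hf, hsm, hcl⟩ := h1 X α A ι u c hc p.n p.e p.idem ε hε
  obtain ⟨x, y, hx, hy⟩ := h3 f hf hcl
  exact ⟨⟨p.n, f, hf⟩, rfl, hsm, ⟨x, y, hx, hy⟩, cls_eq (q := ⟨p.n, f, hf⟩) x y hx hy⟩

theorem INK (h1 : CON_stmt) (h2 : CBD_stmt) (h3 : ASY_stmt) : INK_stmt := by
  intro X _ _ α hα k E hE
  rcases isEmpty_or_nonempty X with hX | ⟨⟨x0⟩⟩
  · exact ⟨0, fun x => (hX.false x).elim, fun x => (hX.false x).elim⟩
  have hcont : Continuous (trE E) := by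
    unfold trE
    exact continuous_finset_sum _ fun a _ => hE.cont _ _
  obtain ⟨C, hC⟩ := h2 X α k E hE
  obtain ⟨w, hw1, hw2⟩ := h3 X α hα ⟨trE E, hcont⟩ x0 (fun ε hε => h1 X α k E hE x0 ε hε) ⟨C, fun N => hC x0 N⟩
  exact ⟨w, hw1, hw2⟩

theorem CSM_nonneg {X : Type} [TopologicalSpace X] (α : X ≃ₜ X) (h : C(X, ℝ)) (n : ℕ) (x : X) :
    csum α h (n : ℤ) x = ∑ m ∈ Finset.range n, h ((α ^ (m : ℤ)) x) := by
  unfold csum
  rw [if_pos (Int.natCast_nonneg n), Int.toNat_natCast]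

theorem CSM_neg {X : Type} [TopologicalSpace X] (α : X ≃ₜ X) (h : C(X, ℝ)) (n : ℕ) (x : X) :
    csum α h (-(n : ℤ)) x = -∑ m ∈ Finset.range n, h ((α ^ (-(m : ℤ) - 1)) x) := by
  unfold csum
  rcases Nat.eq_zero_or_pos n with rfl | hn
  · simp
  · rw [if_neg (by omega), neg_neg, Int.toNat_natCast]

theorem CSM_succ {X : Type} [TopologicalSpace X] (α : X ≃ₜ X) (h : C(X, ℝ)) (n : ℤ) (x : X) :
    csum α h (n + 1) x = csum α h n x + h ((α ^ n) x) := by
  rcases Int.eq_nat_or_neg n with ⟨k, rfl | rfl⟩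
  · have : ((k : ℤ) + 1) = ((k + 1 : ℕ) : ℤ) := by push_cast; ring
    rw [this, CSM_nonneg, CSM_nonneg, Finset.sum_range_succ]
  · rcases k with _ | k
    · have e1 : (-((0 : ℕ) : ℤ) + 1) = ((1 : ℕ) : ℤ) := by norm_num
      have e2 : (-((0 : ℕ) : ℤ)) = ((0 : ℕ) : ℤ) := by norm_num
      rw [e1, e2, CSM_nonneg, CSM_nonneg]
      simp
    · have : (-((k + 1 : ℕ) : ℤ) + 1) = -((k : ℕ) : ℤ) := by push_cast; ring
      rw [this, CSM_neg, CSM_neg, Finset.sum_range_succ]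
      have e : (-(k : ℤ) - 1) = -((k + 1 : ℕ) : ℤ) := by push_cast; ring
      rw [e]
      ring

theorem CSM_zero {X : Type} [TopologicalSpace X] (α : X ≃ₜ X) (h : C(X, ℝ)) (x : X) :
    csum α h 0 x = 0 := by
  have := CSM_nonneg α h 0 x
  simpa using this

theorem CSM_add {X : Type} [TopologicalSpace X] (α : X ≃ₜ X) (h : C(X, ℝ)) (m n : ℤ) (x : X) :
    csum α h (m + n) x = csum α h m x + csum α h n ((α ^ m) x) := by
  have step : ∀ k : ℤ, (csum α h (m + k) x = csum α h m x + csum α h k ((α ^ m) x)) ↔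
      (csum α h (m + (k + 1)) x = csum α h m x + csum α h (k + 1) ((α ^ m) x)) := by
    intro k
    have e : m + (k + 1) = (m + k) + 1 := by ring
    rw [e, CSM_succ, CSM_succ]
    have e2 : (α ^ (m + k)) x = (α ^ k) ((α ^ m) x) := by
      rw [add_comm, zpow_add]; rfl
    rw [e2]
    constructor
    · intro h; rw [h]; ring
    · intro h; linarith
  induction n using Int.induction_on with
  | zero => rw [add_zero, CSM_zero, add_zero]
  | succ k ih => exact (step k).mp ih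
  | pred k ih =>
    have := (step (-(k : ℤ) - 1)).mpr (by
      have e : (-(k : ℤ) - 1 + 1) = -(k : ℤ) := by ring
      rw [e]; exact ih)
    exact this

theorem CSM : CSM_stmt := by
  intro X _ α h
  refine ⟨CSM_zero α h, ?_, CSM_add α h, ?_, ?_, ?_⟩
  · intro x
    have := CSM_succ α h 0 x
    rw [zero_add, CSM_zero, zero_add] at this
    rw [this]
    simp
  · intro n
    unfold csum
    by_cases hn : 0 ≤ n
    · simp only [hn, if_true]
      exact continuous_finset_sum _ fun m _ => h.continuous.comp (α ^ (m : ℤ)).continuous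
    · simp only [hn, if_false]
      have h9 : Continuous (fun x => ∑ m ∈ Finset.range (-n).toNat, h ((α ^ (-(m : ℤ) - 1)) x)) :=
        continuous_finset_sum _ fun m _ => h.continuous.comp (α ^ (-(m : ℤ) - 1)).continuous
      exact h9.neg
  · intro δ hδ n x
    constructor
    · intro hn
      obtain ⟨k, rfl⟩ := Int.eq_ofNat_of_zero_le hn
      rw [CSM_nonneg]
      have := Finset.card_nsmul_le_sum (Finset.range k) (fun m => h ((α ^ (m : ℤ)) x)) δ (fun m _ => hδ _)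
      rw [Finset.card_range, nsmul_eq_mul] at this
      simpa using this
    · intro hn
      obtain ⟨k, rfl⟩ := Int.exists_eq_neg_ofNat hn
      rw [CSM_neg]
      have := Finset.card_nsmul_le_sum (Finset.range k) (fun m => h ((α ^ (-(m : ℤ) - 1)) x)) δ (fun m _ => hδ _)
      rw [Finset.card_range, nsmul_eq_mul] at this
      push_cast
      linarith
  · intro H hH n x
    constructor
    · intro hn
      obtain ⟨k, rfl⟩ := Int.eq_ofNat_of_zero_le hn
      rw [CSM_nonneg]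
      have := Finset.sum_le_card_nsmul (Finset.range k) (fun m => h ((α ^ (m : ℤ)) x)) H (fun m _ => hH _)
      rw [Finset.card_range, nsmul_eq_mul] at this
      simpa using this
    · intro hn
      obtain ⟨k, rfl⟩ := Int.exists_eq_neg_ofNat hn
      rw [CSM_neg]
      have := Finset.sum_le_card_nsmul (Finset.range k) (fun m => h ((α ^ (-(m : ℤ) - 1)) x)) H (fun m _ => hH _)
      rw [Finset.card_range, nsmul_eq_mul] at this
      push_cast
      linarith

theorem FSB_lift (z : ℂ) (hz : ‖z‖ = 1) : IsLift z (Complex.arg z / (2 * Real.pi)) := by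
  unfold IsLift
  have h1 : (2 * (Real.pi : ℂ) * Complex.I * ((Complex.arg z / (2 * Real.pi) : ℝ) : ℂ)) = (Complex.arg z : ℂ) * Complex.I := by
    push_cast
    have : (Real.pi : ℂ) ≠ 0 := by exact_mod_cast Real.pi_ne_zero
    field_simp
  rw [h1]
  have h2 := Complex.norm_mul_exp_arg_mul_I z
  rw [hz] at h2
  simpa using h2

theorem FSB_iff (z : ℂ) (τ₀ : ℝ) (h0 : IsLift z τ₀) (τ : ℝ) : IsLift z τ ↔ ∃ k : ℤ, τ = τ₀ + k := by
  unfold IsLift at *
  have hpi : (Real.pi : ℂ) ≠ 0 := by exact_mod_cast Real.pi_ne_zero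
  rw [← h0, Complex.exp_eq_exp_iff_exists_int]
  constructor
  · rintro ⟨n, hn⟩
    refine ⟨n, ?_⟩
    have h1 : (2 * (Real.pi : ℂ) * Complex.I) * (τ : ℂ) = (2 * (Real.pi : ℂ) * Complex.I) * ((τ₀ : ℂ) + n) := by
      rw [hn]; ring
    have h2 := mul_left_cancel₀ Complex.two_pi_I_ne_zero h1
    exact_mod_cast h2
  · rintro ⟨k, rfl⟩
    exact ⟨k, by push_cast; ring⟩

theorem FSB : FSB_stmt := by
  intro z hz
  refine ⟨FSB_lift z hz, fun τ₀ h0 => ⟨FSB_iff z τ₀ h0, fun G => ?_⟩⟩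
  obtain ⟨k0, hk0⟩ := (FSB_iff z τ₀ h0 _).mp (FSB_lift z hz)
  unfold fsum
  rw [hk0, ← (Equiv.addLeft k0).tsum_eq (fun k : ℤ => G (τ₀ + k))]
  refine tsum_congr fun k => ?_
  rw [Equiv.coe_addLeft]
  push_cast
  rw [add_assoc]

theorem KAD : KAD_stmt := by
  intro X _ α Q Q' _ _ w h w' h' U hU
  refine ⟨?_, ?_, ?_, ?_, ?_, ?_, ?_⟩
  · intro q' q
    have h1 := hU.cont q q'
    have h2 : Continuous (fun p : X × ℝ × ℝ => ((p.1, p.2.2, p.2.1) : X × ℝ × ℝ)) := by fun_prop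
    exact Complex.continuous_conj.comp (h1.comp h2)
  · intro q' q x τ' τ h1 h2
    unfold adjK
    rw [hU.inv q q' x τ τ' h2 h1]
  · intro R
    obtain ⟨R', hR'⟩ := hU.loc R
    refine ⟨R', fun q' q x τ' τ => ⟨fun h1 h2 => ?_, fun h1 h2 => ?_⟩⟩
    · unfold adjK; rw [(hR' q q' x τ τ').2 h1 h2, map_zero]
    · unfold adjK; rw [(hR' q q' x τ τ').1 h1 h2, map_zero]
  · intro q' x τ' h1
    rw [← hU.col1 q' x τ' h1]
    refine Finset.sum_congr rfl fun q _ => ?_
    congr 1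
    funext τ
    unfold adjK
    rw [Complex.conj_conj, mul_comm]
  · intro q' q₁' x τ' τ₁' h1 h2 h3
    rw [← hU.col0 q₁' q' x τ₁' τ' h2 h1 (h3.imp Ne.symm Ne.symm)]
    refine Finset.sum_congr rfl fun q _ => ?_
    congr 1
    funext τ
    unfold adjK
    rw [Complex.conj_conj, mul_comm]
  · intro q x τ h1
    rw [← hU.row1 q x τ h1]
    refine Finset.sum_congr rfl fun q' _ => ?_
    congr 1
    funext τ'
    unfold adjK
    rw [Complex.conj_conj, mul_comm]
  · intro q q₁ x τ τ₁ h1 h2 h3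
    rw [← hU.row0 q₁ q x τ₁ τ h2 h1 (h3.imp Ne.symm Ne.symm)]
    refine Finset.sum_congr rfl fun q' _ => ?_
    congr 1
    funext τ'
    unfold adjK
    rw [Complex.conj_conj, mul_comm]

theorem EQK (h1 : VEX_stmt) (h2 : VWE_stmt) (h3 : KAD_stmt) : EQK_stmt := by
  intro X _ _ α A _ ι u c hc Q Q' _ _ w h w' h' U K K' φ ψ e e' hL hL' hφ hψ hU he he'
  obtain ⟨V, hV⟩ := h1 X α A ι u Q Q' w h w' h' U K K' φ ψ hL hL' hφ hψ hU
  have hU' := h3 X α Q Q' w h w' h' U hU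
  obtain ⟨W, hW⟩ := h1 X α A ι u Q' Q w' h' w h (adjK U) K' K ψ φ hL' hL hψ hφ hU'
  have hUU : adjK (adjK U) = U := by
    funext q q' x τ τ'
    unfold adjK
    rw [Complex.conj_conj]
  refine ⟨V, W, ?_, ?_⟩
  · exact h2 X α A ι u c hc Q Q' w h w' h' U K K' φ ψ V W e hL hL' hφ hψ hU hV hW he
  · exact h2 X α A ι u c hc Q' Q w' h' w h (adjK U) K' K ψ φ W V e' hL' hL hψ hφ hU' hW (by rw [hUU]; exact hV) he'

theorem IDE (h1 : VWE_stmt) (h2 : KDL_stmt) : IDE_stmt := by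
  intro X _ _ α A _ ι u c hc Q _ _ w h K φ e hL hφ he
  obtain ⟨h3, h4⟩ := h2 X α Q w h hL
  refine h1 X α A ι u c hc Q Q w h w h delK K K φ φ e e e hL hL hφ hφ h3 ?_ ?_ he
  · intro i j
    obtain ⟨F, hF1, hF2⟩ := he i j
    exact ⟨F, hF1, fun n x => by rw [hF2, (h4 K φ hφ i j n x).1]⟩
  · intro i j
    obtain ⟨F, hF1, hF2⟩ := he i j
    exact ⟨F, hF1, fun n x => by rw [hF2, (h4 K φ hφ i j n x).2]⟩

theorem CL1 (h1 : FAM_stmt) (h2 : EEX_stmt) (h3 : IDE_stmt) : CL1_stmt := by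
  intro X _ _ α A _ ι u c hc w h hR hp
  obtain ⟨K, φ, hφ⟩ := h1 X α w h hR hp
  have hL : LSys α (fun _ : Unit => w) (fun _ => h) := fun _ => ⟨hR, hp⟩
  obtain ⟨e, he⟩ := h2 X α A ι u Unit (fun _ => w) (fun _ => h) K φ hL hφ
  exact ⟨_, K, φ, e, h3 X α A ι u c hc Unit (fun _ => w) (fun _ => h) K φ e hL hφ he, hφ, he, rfl⟩

theorem CL2 (h1 : EQK_stmt) (h2 : KCB_stmt) : CL2_stmt := by
  rintro X _ _ α A _ ι u c hc w w' h h' g z z' hR hp hR' hp' hg hh ⟨K, φ, e, he, hφ, hm, rfl⟩ ⟨K', φ', e', he', hφ', hm', rfl⟩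
  obtain ⟨x, y, h3, h4⟩ := h1 X α A ι u c hc Unit Unit (fun _ => w) (fun _ => h) (fun _ => w') (fun _ => h') _ K K' φ φ' e e'
    (fun _ => ⟨hR, hp⟩) (fun _ => ⟨hR', hp'⟩) hφ hφ' (h2 X α w w' h h' g hR hR' hg hh) hm hm'
  exact cls_eq (p := ⟨K, e, he⟩) (q := ⟨K', e', he'⟩) x y h3 h4

theorem CO2 : CO2_stmt := by
  intro G _ H S v hc hv ht hr
  have hS : S = AddCommGroup.torsion G := by
    ext s
    rw [AddCommGroup.mem_torsion, isOfFinAddOrder_iff_zsmul_eq_zero]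
    constructor
    · intro hs
      obtain ⟨n, k, hn, h1⟩ := hr s
      refine ⟨n, hn, ?_⟩
      have h2 : n • s ∈ H ⊓ S := ⟨by rw [h1]; exact H.zsmul_mem hv _, S.zsmul_mem hs _⟩
      rw [hc.inf_eq_bot] at h2
      exact AddSubgroup.mem_bot.mp h2
    · rintro ⟨n, hn, h1⟩
      obtain ⟨a, ha, b, hb, rfl⟩ := AddSubgroup.mem_sup.mp (hc.sup_eq_top ▸ AddSubgroup.mem_top s)
      have h2 : n • a ∈ H ⊓ S := by
        refine ⟨H.zsmul_mem ha _, ?_⟩
        have : n • a = -(n • b) := by rw [smul_add] at h1; exact eq_neg_of_add_eq_zero_left h1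
        rw [this]
        exact S.neg_mem (S.zsmul_mem hb _)
      rw [hc.inf_eq_bot] at h2
      have h3 : n • a = 0 := AddSubgroup.mem_bot.mp h2
      have h4 : n.natAbs • a = 0 := by
        rcases Int.natAbs_eq n with h | h
        · rw [h, natCast_zsmul] at h3; exact h3
        · rw [h, neg_smul, natCast_zsmul, neg_eq_zero] at h3; exact h3
      have h5 : a = 0 := ht n.natAbs a (Int.natAbs_ne_zero.mpr hn) ha h4
      rw [h5, zero_add]
      exact hb
  exact ⟨H, hS ▸ hc⟩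

end Pool.Agent.CZ
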