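import Pool.Agent.helper37.CZ.Defs

/-!
# Project cz (MP_376aaf_an): K-theory of crossed products by a minimal homeomorphism. Rows

THEOREM. `A = C(X) ⋊ ℤ`, `α` a minimal homeomorphism of an infinite compact Hausdorff space: `K₀(A) = H ⊕ S`,
`H` torsion free, `[1] ∈ H`, all tracial states vanish on `S`.

RULES. One file per row: `Pool/Agent/<seat>/CZ/XX.lean`, `import Pool.Agent.helper37.CZ.Spec`,
`namespace Pool.Agent.CZ`, auxiliary lemmas prefixed `XX_`. The exact theorem line is in the lock note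
(other rows enter only as hypotheses, no row waits for another). No double quotes, no `convert` / `congr!`
on `Decidable` or `Subsingleton` goals, no own macros. The proof of every row is in its docstring.

Conventions: `up u n = u^n ∈ A`, `sh α n f = f ∘ α^n`, `u^n ι(f) = ι(f ∘ α^(-n)) u^n`.
-/

set_option autoImplicit false

open scoped Matrix Topology ComplexConjugate
open Filter

namespace Pool.Agent.CZ

/-! ## Definitions -/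

/-- `u^n` as an element of `A` -/
noncomputable def up {A : Type} [CStarAlgebra A] (u : unitary A) (n : ℤ) : A := ((u ^ n : unitary A) : A)

/-- `f ∘ α^n` -/
noncomputable def sh {X : Type} [TopologicalSpace X] (α : X ≃ₜ X) (n : ℤ) (f : C(X, ℂ)) : C(X, ℂ) :=
  f.comp ((α ^ n : X ≃ₜ X) : C(X, X))

/-- a real function as a complex function -/
noncomputable def rc {X : Type} [TopologicalSpace X] (h : C(X, ℝ)) : C(X, ℂ) :=
  ⟨fun x => (h x : ℂ), Complex.continuous_ofReal.comp h.continuous⟩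

/-- covariance, density of the span of the monomials, and Fourier coefficients `c n` -/
structure Cov {X : Type} [TopologicalSpace X] [CompactSpace X] (α : X ≃ₜ X) {A : Type} [CStarAlgebra A]
    (ι : C(X, ℂ) →⋆ₐ[ℂ] A) (u : unitary A) (c : ℤ → A →ₗ[ℂ] C(X, ℂ)) : Prop where
  cov : ∀ f : C(X, ℂ), (u : A) * ι f * star (u : A) = ι (f.comp (α.symm : C(X, X)))
  dense : Dense ((Submodule.span ℂ {a : A | ∃ (f : C(X, ℂ)) (n : ℤ),
    a = ι f * ((u ^ n : unitary A) : A)} : Submodule ℂ A) : Set A)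
  cnorm : ∀ j a, ‖c j a‖ ≤ ‖a‖
  cval : ∀ j k f, c j (ι f * up u k) = if j = k then f else 0

/-- coboundaries `g ∘ α - g` -/
def Bd {X : Type} [TopologicalSpace X] (α : X ≃ₜ X) : AddSubgroup C(X, ℂ) where
  carrier := {f | ∃ g : C(X, ℂ), ∀ x, f x = g (α x) - g x}
  zero_mem' := ⟨0, fun x => by simp⟩
  add_mem' := by
    rintro a b ⟨g, hg⟩ ⟨g', hg'⟩
    exact ⟨g + g', fun x => by rw [ContinuousMap.add_apply, hg, hg', ContinuousMap.add_apply,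
      ContinuousMap.add_apply]; ring⟩
  neg_mem' := by
    rintro a ⟨g, hg⟩
    exact ⟨-g, fun x => by rw [ContinuousMap.neg_apply, hg, ContinuousMap.neg_apply,
      ContinuousMap.neg_apply]; ring⟩

/-- exponential decay of the coefficients -/
def Dec {X : Type} [TopologicalSpace X] [CompactSpace X] (s : ℝ) (f : ℤ → C(X, ℂ)) : Prop :=
  ∃ C : ℝ, ∀ j, ‖f j‖ ≤ C * Real.exp (-(s * |(j : ℝ)|))

/-- `a = ∑ ι(f_j) u^j` -/
def Rep {X : Type} [TopologicalSpace X] [CompactSpace X] {A : Type} [CStarAlgebra A]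
    (ι : C(X, ℂ) →⋆ₐ[ℂ] A) (u : unitary A) (f : ℤ → C(X, ℂ)) (a : A) : Prop :=
  HasSum (fun j => ι (f j) * up u j) a

/-- smooth elements -/
def Sm {X : Type} [TopologicalSpace X] [CompactSpace X] {A : Type} [CStarAlgebra A]
    (ι : C(X, ℂ) →⋆ₐ[ℂ] A) (u : unitary A) (a : A) : Prop :=
  ∃ s : ℝ, 0 < s ∧ ∃ f : ℤ → C(X, ℂ), Dec s f ∧ Rep ι u f a

/-- matrices with smooth entries -/
def SmM {X : Type} [TopologicalSpace X] [CompactSpace X] {A : Type} [CStarAlgebra A]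
    (ι : C(X, ℂ) →⋆ₐ[ℂ] A) (u : unitary A) {n m : ℕ} (x : Matrix (Fin n) (Fin m) A) : Prop :=
  ∀ i j, Sm ι u (x i j)

/-- closure in `A × A × A` of the algebra of the triples `(∑ ι(f_j) u^j, ∑ e^(sj) ι(f_j) u^j, ∑ e^(-sj) ι(f_j) u^j)`,
finite sums -/
noncomputable def Tri {X : Type} [TopologicalSpace X] [CompactSpace X] {A : Type} [CStarAlgebra A]
    (ι : C(X, ℂ) →⋆ₐ[ℂ] A) (u : unitary A) (s : ℝ) : Subalgebra ℂ (A × A × A) :=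
  (Algebra.adjoin ℂ {t : A × A × A | ∃ (f : C(X, ℂ)) (j : ℤ), t = (ι f * up u j,
    ((Real.exp (s * j) : ℝ) : ℂ) • (ι f * up u j),
    ((Real.exp (-(s * j)) : ℝ) : ℂ) • (ι f * up u j))}).topologicalClosure

/-! ## Block A: Fourier coefficients -/

/-- ROW cz:COE (medium). For `x ∈ X` let `H = ℓ²(ℤ) = lp (fun _ : ℤ => ℂ) 2`, `B = H →L[ℂ] H` (a C*-algebra in Mathlib),
`j_x(f) δ_n = f(α^n x) δ_n`, `v δ_n = δ_(n+1)` (unitary). Then `v j_x(f) v* = j_x(f ∘ α⁻¹)`. So there is `π_x : A → B`; put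
`c_n(a)(x) = ⟨δ_0, π_x(a) δ_(-n)⟩`. `|c_n(a)(x)| ≤ ‖π_x(a)‖ ≤ ‖a‖`; for `a = ι(f) u^k`: `π_x(a) δ_(-n) = f(α^(k-n) x) δ_(k-n)`, so
`c_n(a) = f` if `n = k`, otherwise 0. Continuity in `x`: true for finite sums of monomials, and uniform limits (density) are continuous. -/
def COE_stmt : Prop := ∀ (X : Type) [TopologicalSpace X] [CompactSpace X] (α : X ≃ₜ X) (A : Type) [CStarAlgebra A]
  (ι : C(X, ℂ) →⋆ₐ[ℂ] A) (u : unitary A), IsCrossedProduct α ι u → ∃ c : ℤ → A →ₗ[ℂ] C(X, ℂ), Cov α ι u c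

/-! ## Block B: smooth elements, the trace modulo coboundaries -/

/-- ROW cz:CEX (short). `u ι(f) = ι(f ∘ α⁻¹) u`; induction on `n` in both directions. -/
def CEX_stmt : Prop := ∀ (X : Type) [TopologicalSpace X] [CompactSpace X] (α : X ≃ₜ X) (A : Type) [CStarAlgebra A]
  (ι : C(X, ℂ) →⋆ₐ[ℂ] A) (u : unitary A) (c : ℤ → A →ₗ[ℂ] C(X, ℂ)), Cov α ι u c →
  ∀ (n : ℤ) (f : C(X, ℂ)), up u n * ι f = ι (sh α (-n) f) * up u n

/-- ROW cz:SMC (short). `c n` is continuous (`cnorm`), so `c n a = ∑ c n (ι(f_j) u^j) = f n`. -/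
def SMC_stmt : Prop := ∀ (X : Type) [TopologicalSpace X] [CompactSpace X] (α : X ≃ₜ X) (A : Type) [CStarAlgebra A]
  (ι : C(X, ℂ) →⋆ₐ[ℂ] A) (u : unitary A) (c : ℤ → A →ₗ[ℂ] C(X, ℂ)), Cov α ι u c →
  ∀ (f : ℤ → C(X, ℂ)) (a : A), Rep ι u f a → ∀ n, c n a = f n

/-- ROW cz:SMA (short). Take the smaller `s` for sums; `C e^(-s|j|)` with one nonzero coefficient for monomials. -/
def SMA_stmt : Prop := ∀ (X : Type) [TopologicalSpace X] [CompactSpace X] (A : Type) [CStarAlgebra A]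
  (ι : C(X, ℂ) →⋆ₐ[ℂ] A) (u : unitary A),
  (∀ f n, Sm ι u (ι f * up u n)) ∧ Sm ι u 0 ∧ Sm ι u 1 ∧ (∀ a b, Sm ι u a → Sm ι u b → Sm ι u (a + b)) ∧
  ∀ (z : ℂ) a, Sm ι u a → Sm ι u (z • a)

/-- ROW cz:SMM (medium). `a = ∑ ι(f_j) u^j`, `b = ∑ ι(g_j) u^j`, absolutely convergent (`‖ι f‖ ≤ ‖f‖`, `‖u^j‖ ≤ 1`).
`ι(f_m) u^m ι(g_l) u^l = ι(f_m · (g_l ∘ α^(-m))) u^(m+l)` (CEX). Sum over the pairs `(m, l)` (summable, product of two summable families)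
and group by `n = m + l`: the coefficient is `h_n = ∑_m f_m · (g_(n-m) ∘ α^(-m))`, a norm convergent sum in `C(X)`, and
`‖h_n‖ ≤ ∑_m C e^(-s|m|) C' e^(-s|n-m|) ≤ C'' e^(-s|n|/2)` (as `|m| + |n-m| ≥ |n|`: `e^(-s|m|-s|n-m|) ≤ e^(-s|n|/2) e^(-s|m|/2)`).
By SMC `f_m = c m a`, `g_m = c m b`, `h_n = c n (ab)`; evaluate at `x`. -/
def SMM_stmt : Prop := ∀ (X : Type) [TopologicalSpace X] [CompactSpace X] (α : X ≃ₜ X) (A : Type) [CStarAlgebra A]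
  (ι : C(X, ℂ) →⋆ₐ[ℂ] A) (u : unitary A) (c : ℤ → A →ₗ[ℂ] C(X, ℂ)), Cov α ι u c →
  ∀ a b : A, Sm ι u a → Sm ι u b → Sm ι u (a * b) ∧
    ∀ (n : ℤ) (x : X), HasSum (fun m : ℤ => c m a x * c (n - m) b ((α ^ (-m)) x)) (c n (a * b) x)

/-- ROW cz:TRC (medium). `c_0(ab) = ∑_n f_n (g_(-n) ∘ α^(-n))`, `c_0(ba) = ∑_n g_(-n) (f_n ∘ α^n)` (SMM, SMC; replace `n` by `-n` in the second).
With `k_n = g_(-n) (f_n ∘ α^n)`: `k_n ∘ α^(-n) = f_n (g_(-n) ∘ α^(-n))`, so the difference is `∑_n (k_n ∘ α^(-n) - k_n)`, and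
`k ∘ α^(-n) - k = g ∘ α - g` with `g = -∑_(i=1)^n k ∘ α^(-i)` for `n ≥ 0`, `g = ∑_(i=0)^(-n-1) k ∘ α^i` for `n ≤ 0`, `‖g‖ ≤ |n| ‖k‖`;
`∑ |n| ‖k_n‖ < ∞` (exponential decay), so the sum of the `g`'s converges in `C(X)`. -/
def TRC_stmt : Prop := ∀ (X : Type) [TopologicalSpace X] [CompactSpace X] (α : X ≃ₜ X) (A : Type) [CStarAlgebra A]
  (ι : C(X, ℂ) →⋆ₐ[ℂ] A) (u : unitary A) (c : ℤ → A →ₗ[ℂ] C(X, ℂ)), Cov α ι u c →
  ∀ a b : A, Sm ι u a → Sm ι u b → c 0 (a * b) - c 0 (b * a) ∈ Bd α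

/-- ROW cz:TR1 (medium). Let `P` be the set of the `t = (t₁, t₂, t₃)` with: `c_j(t₂) = e^(sj) c_j(t₁)`, `c_j(t₃) = e^(-sj) c_j(t₁)` for all `j`, and
`t₁ = ∑ ι(c_j(t₁)) u^j`. On `P`: `‖c_j(t₁)‖ ≤ e^(-s|j|) ‖t‖` (use `t₂` for `j ≥ 0`, `t₃` for `j ≤ 0`, and `cnorm`). `P` contains the finite sums of the generators
(the adjoined algebra is the span of the generators, because their products are generators: CEX), and `P` is closed: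
if `t^(i) → t` then the relations for the coefficients pass to the limit, `‖c_j(t^(i)₁) - c_j(t₁)‖ ≤ e^(-s|j|) ‖t^(i) - t‖`, so
`∑ ι(c_j(t^(i)₁)) u^j → ∑ ι(c_j(t₁)) u^j`, while `t^(i)₁ → t₁`. -/
def TR1_stmt : Prop := ∀ (X : Type) [TopologicalSpace X] [CompactSpace X] (α : X ≃ₜ X) (A : Type) [CStarAlgebra A]
  (ι : C(X, ℂ) →⋆ₐ[ℂ] A) (u : unitary A) (c : ℤ → A →ₗ[ℂ] C(X, ℂ)), Cov α ι u c →
  ∀ s : ℝ, 0 < s → ∀ t ∈ Tri ι u s, Sm ι u t.1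

/-- ROW cz:TR2 (medium). `a = ∑ ι(f_j) u^j`, `‖f_j‖ ≤ C e^(-σ|j|)`: `s0 = σ/2`, `G(s) = ∑ e^(sj) ι(f_j) u^j` for `|s| ≤ s0` (absolutely convergent). The triples of the
partial sums converge to `(a, G s, G (-s))`. Continuity of `G` at 0: `‖G s - a‖ ≤ ∑ |e^(sj) - 1| C e^(-σ|j|)`, dominated convergence (Tannery). -/
def TR2_stmt : Prop := ∀ (X : Type) [TopologicalSpace X] [CompactSpace X] (A : Type) [CStarAlgebra A]
  (ι : C(X, ℂ) →⋆ₐ[ℂ] A) (u : unitary A) (a : A), Sm ι u a →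
  ∃ (s0 : ℝ) (G : ℝ → A), 0 < s0 ∧ (∀ s, 0 < s → s < s0 → (a, G s, G (-s)) ∈ Tri ι u s) ∧ Tendsto G (𝓝 0) (𝓝 a)

/-- ROW cz:NEW (medium). Newton iteration `a_(n+1) = 3 a_n² - 2 a_n³ = a_n + (2 a_n - 1) y_n`, `y_n = a_n - a_n²`: `y_(n+1) = 3 y_n² + 4 y_n³`.
If `‖y_0‖ ≤ 1/14` then `‖y_(n+1)‖ ≤ ‖y_n‖/2`; `‖a_(n+1) - a_n‖ ≤ (2‖a_n‖ + 1) ‖y_n‖ ≤ (2M+3) 2^(-n) ‖y_0‖` as long as `‖a_n‖ ≤ M + 1`, true if `2 (2M+3) ‖y_0‖ ≤ 1`.
The limit `e ∈ T` has `e - e² = 0`, `‖e - a‖ ≤ 2 (2M+3) ‖y_0‖`. -/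
def NEW_stmt : Prop := ∀ (B : Type) [NormedRing B] [CompleteSpace B] (M ε : ℝ), 0 < ε →
  ∃ δ : ℝ, 0 < δ ∧ ∀ T : Subring B, IsClosed (T : Set B) → ∀ a ∈ T, ‖a‖ ≤ M → ‖a * a - a‖ ≤ δ →
    ∃ e ∈ T, e * e = e ∧ ‖e - a‖ ≤ ε

/-- ROW cz:NEU (medium; from TR1, TR2). `B = Matrix (Fin n) (Fin n) (A × A × A)` with the norm `Matrix.linftyOpNormedRing` (maximal row sum). By TR2 for every entry and all small `s > 0`
the matrix `R` with entries `(r_ij, G_ij(s), G_ij(-s))` has entries in `Tri s`; its norm is `≤ 3/4` for small `s` as `n ‖G_ij(±s)‖ → n ‖r_ij‖ ≤ 1/2`.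
The Neumann series `∑ R^k` converges and its entries are in `Tri s` (closed subalgebra, contains 1); `w` = the first components, smooth by TR1. -/
def NEU_stmt : Prop := ∀ (X : Type) [TopologicalSpace X] [CompactSpace X] (α : X ≃ₜ X) (A : Type) [CStarAlgebra A]
  (ι : C(X, ℂ) →⋆ₐ[ℂ] A) (u : unitary A) (c : ℤ → A →ₗ[ℂ] C(X, ℂ)), Cov α ι u c →
  ∀ (n : ℕ) (r : Matrix (Fin n) (Fin n) A), SmM ι u r → (∀ i j, (n : ℝ) * ‖r i j‖ ≤ 1 / 2) →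
    ∃ w : Matrix (Fin n) (Fin n) A, SmM ι u w ∧ w * (1 - r) = 1 ∧ (1 - r) * w = 1

/-- ROW cz:SMI (medium; from SMA, TR1, TR2, NEW). Norm as in NEU. The span of the monomials is dense and smooth, so there are smooth matrices `a` with entries as close to those of `e` as we want;
then `a² - a` is small. For small `s` the matrix `a'` of the triples `(a_ij, G_ij(s), G_ij(-s))` has `a'² - a'` small, norm `≤ M` (`M` depends only on `e`). NEW with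
`T` = the matrices with entries in `Tri s` gives an idempotent `f'` near `a'` with entries in `Tri s`; take the first components. -/
def SMI_stmt : Prop := ∀ (X : Type) [TopologicalSpace X] [CompactSpace X] (α : X ≃ₜ X) (A : Type) [CStarAlgebra A]
  (ι : C(X, ℂ) →⋆ₐ[ℂ] A) (u : unitary A) (c : ℤ → A →ₗ[ℂ] C(X, ℂ)), Cov α ι u c →
  ∀ (n : ℕ) (e : Matrix (Fin n) (Fin n) A), e * e = e → ∀ ε : ℝ, 0 < ε →
    ∃ f : Matrix (Fin n) (Fin n) A, f * f = f ∧ SmM ι u f ∧ ∀ i j, ‖e i j - f i j‖ < ε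

/-- ROW cz:CLO (short-medium). Norm `linftyOp`. `r = e - e f e` is small, `w = (1 - r)⁻¹` commutes with `e`; `x = e f`, `y = f e w`: `x y = e f e w = e (1 - r) w = e`,
`g = y x` is an idempotent with `f g = g f = g`, close to `f`; `f - g` is an idempotent of norm `< 1`, so 0. -/
def CLO_stmt : Prop := ∀ (A : Type) [NormedRing A] [CompleteSpace A] (n : ℕ) (e : Matrix (Fin n) (Fin n) A), e * e = e →
  ∃ ε : ℝ, 0 < ε ∧ ∀ f : Matrix (Fin n) (Fin n) A, f * f = f → (∀ i j, ‖e i j - f i j‖ < ε) →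
    ∃ x y : Matrix (Fin n) (Fin n) A, x * y = e ∧ y * x = f

/-- ROW cz:EQV (medium; from SMA, SMM, NEU). `x₁ = e x₀ f`, `y₁ = f y₀ e` with `x₀`, `y₀` matrices of finite sums of monomials, entrywise close to `x`, `y`. As `e x f y e = e`, `r = e - x₁ y₁` is small and smooth, `e r = r e = r`.
`w = (1 - r)⁻¹` (NEU), `y₂ = y₁ w`: `x₁ y₂ = (e - r) w = e (1 - r) w = e`. `g = y₂ x₁` is an idempotent, `f g = g f = g`, close to `f y e x f = f`, so `f - g` is an idempotent of norm `< 1`: `g = f`. -/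
def EQV_stmt : Prop := ∀ (X : Type) [TopologicalSpace X] [CompactSpace X] (α : X ≃ₜ X) (A : Type) [CStarAlgebra A]
  (ι : C(X, ℂ) →⋆ₐ[ℂ] A) (u : unitary A) (c : ℤ → A →ₗ[ℂ] C(X, ℂ)), Cov α ι u c →
  ∀ (n m : ℕ) (e : Matrix (Fin n) (Fin n) A) (f : Matrix (Fin m) (Fin m) A) (x : Matrix (Fin n) (Fin m) A)
    (y : Matrix (Fin m) (Fin n) A), SmM ι u e → SmM ι u f → e * e = e → f * f = f → x * y = e → y * x = f →
    ∃ (x' : Matrix (Fin n) (Fin m) A) (y' : Matrix (Fin m) (Fin n) A), SmM ι u x' ∧ SmM ι u y' ∧ x' * y' = e ∧ y' * x' = f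

/-- ROW cz:KSM (short; from SMI, CLO). -/
def KSM_stmt : Prop := ∀ (X : Type) [TopologicalSpace X] [CompactSpace X] (α : X ≃ₜ X) (A : Type) [CStarAlgebra A]
  (ι : C(X, ℂ) →⋆ₐ[ℂ] A) (u : unitary A) (c : ℤ → A →ₗ[ℂ] C(X, ℂ)), Cov α ι u c →
  ∀ p : IdemMat A, ∃ q : IdemMat A, q.n = p.n ∧ SmM ι u q.e ∧ (∃ (x : Matrix (Fin p.n) (Fin q.n) A)
    (y : Matrix (Fin q.n) (Fin p.n) A), x * y = p.e ∧ y * x = q.e) ∧ cls p = cls q

/-- ROW cz:DMP (medium-long; from SMA, KSM, EQV, TRC). For a smooth idempotent `e` put `T(e) = ∑ c_0(e_ii)` modulo `Bd`. `T(e) = T(f)` if `e = x y`, `f = y x`: by EQV `x`, `y` smooth, and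
`∑_i c_0((xy)_ii) - ∑_j c_0((yx)_jj) = ∑_ij (c_0(x_ij y_ji) - c_0(y_ji x_ij)) ∈ Bd` (TRC). Put `D(p) = T(q)`, `q` smooth, equivalent to `p` (KSM; equivalence `x y`, `y x` is transitive: `x x'`, `y' y` after replacing
`x` by `e x f`, `y` by `f y e`), and extend to the free group. Relations: (1) clear. (2) `e f = f e = 0`: `e = x y`, `e' = y x`, `f = x₂ y₂`, `f' = y₂ x₂`, `e'`, `f'` smooth, `x = e x e'`, `y = e' y e` etc.; then `e + f = X Y`, `X = (x, x₂)` (`n × 2n`),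
`Y = (y ; y₂)`, `Y X = diag(e', f')` (`y x₂ = y e f x₂ = 0`), a smooth idempotent with `T = T(e') + T(f')` (`Matrix.fromBlocks`, `Matrix.fromCols`, reindexed by `finSumFinEquiv`). -/
def DMP_stmt : Prop := ∀ (X : Type) [TopologicalSpace X] [CompactSpace X] (α : X ≃ₜ X) (A : Type) [CStarAlgebra A]
  (ι : C(X, ℂ) →⋆ₐ[ℂ] A) (u : unitary A) (c : ℤ → A →ₗ[ℂ] C(X, ℂ)), Cov α ι u c →
  ∃ D : K0 A →+ C(X, ℂ) ⧸ Bd α, ∀ p : IdemMat A, SmM ι u p.e →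
    D (cls p) = QuotientAddGroup.mk (∑ i, c 0 (p.e i i))

/-! ## Block C: integrality -/

/-- a continuous family of idempotent `ℤ × ℤ` matrices (blocks `k × k`) with exponential decay, equivariant under `α` -/
structure Ker {X : Type} [TopologicalSpace X] (α : X ≃ₜ X) (k : ℕ) (E : X → ℤ × Fin k → ℤ × Fin k → ℂ) : Prop where
  cont : ∀ p q, Continuous (fun x => E x p q)
  dec : ∃ C ρ : ℝ, 0 < ρ ∧ ρ < 1 ∧ 0 ≤ C ∧ ∀ x p q, ‖E x p q‖ ≤ C * ρ ^ (p.1 - q.1).natAbs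
  idem : ∀ x p q, HasSum (fun r => E x p r * E x r q) (E x p q)
  tr : ∀ x p q, E (α x) p q = E x (p.1 + 1, p.2) (q.1 + 1, q.2)

/-- weighted row sums -/
def RowB {X : Type} {k : ℕ} (E : X → ℤ × Fin k → ℤ × Fin k → ℂ) (ρ K : ℝ) : Prop :=
  0 < ρ ∧ ρ < 1 ∧ 1 ≤ K ∧ (∀ x p q, ‖E x p q‖ ≤ K * ρ ^ (p.1 - q.1).natAbs) ∧
    ∀ x p (F : Finset (ℤ × Fin k)), ∑ r ∈ F, ‖E x p r‖ * (ρ⁻¹) ^ (p.1 - r.1).natAbs ≤ K

/-- the corner `[0, N)` -/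
def aN {X : Type} {k : ℕ} (E : X → ℤ × Fin k → ℤ × Fin k → ℂ) (x : X) (N : ℕ) :
    Matrix (Fin N × Fin k) (Fin N × Fin k) ℂ :=
  fun p q => E x (((p.1 : ℕ) : ℤ), p.2) (((q.1 : ℕ) : ℤ), q.2)

/-- entries of a matrix, extended by 0 -/
def ent {N k : ℕ} (W : Matrix (Fin N × Fin k) (Fin N × Fin k) ℂ) (p q : ℕ × Fin k) : ℂ :=
  if h : p.1 < N ∧ q.1 < N then W (⟨p.1, h.1⟩, p.2) (⟨q.1, h.2⟩, q.2) else 0

/-- the matrix `N × N` of a function -/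
def mat {k : ℕ} (N : ℕ) (F : ℕ × Fin k → ℕ × Fin k → ℂ) : Matrix (Fin N × Fin k) (Fin N × Fin k) ℂ :=
  fun p q => F ((p.1 : ℕ), p.2) ((q.1 : ℕ), q.2)

/-- distance of `p ∈ [0, N)` to the complement -/
def dd (N p : ℕ) : ℕ := min (p + 1) (N - p)

/-- `|p - q|` -/
def nd (p q : ℕ) : ℕ := ((p : ℤ) - (q : ℤ)).natAbs

/-- `exp (z a_N)` -/
noncomputable def vN {X : Type} {k : ℕ} (E : X → ℤ × Fin k → ℤ × Fin k → ℂ) (x : X) (N : ℕ) (z : ℂ) :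
    Matrix (Fin N × Fin k) (Fin N × Fin k) ℂ := NormedSpace.exp (z • aN E x N)

/-- `h(x)` = the trace of the block at 0 -/
noncomputable def trE {X : Type} {k : ℕ} (E : X → ℤ × Fin k → ℤ × Fin k → ℂ) (x : X) : ℂ := ∑ a : Fin k, E x (0, a) (0, a)

/-- ROW cz:RWB (short-medium). `ρ = √ρ₀`, `K = 1 + C + k C ∑_n ρ^|n|`: `ρ₀^m ρ^(-m) = ρ^m`. -/
def RWB_stmt : Prop := ∀ (X : Type) [TopologicalSpace X] (α : X ≃ₜ X) (k : ℕ) (E : X → ℤ × Fin k → ℤ × Fin k → ℂ),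
  Ker α k E → ∃ ρ K : ℝ, RowB E ρ K

/-- ROW cz:LC1 (medium). Induction on `j`. Second bound: `‖(a^j)(p,q)‖ ≤ K^j ρ^|p-q|` (weighted row sums are submultiplicative: `ρ^|r-q| ≤ ρ^|p-q| ρ^(-|p-r|)`). First bound, `j ≥ 1`: for `j = 1` the difference is 0, and
`(a^(j+1))(p,q) - E(p,q) = ∑_(r in the window) E(p,r) ((a^j)(r,q) - E(r,q)) - ∑_(r outside) E(p,r) E(r,q)` (`idem`). In the window `ρ^(d(r)) ≤ ρ^(d(p)) ρ^(-|p-r|)`; outside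
`|p-r| ≥ d(p)`, `|r-q| ≥ d(q)`, so `‖E(p,r) E(r,q)‖ ≤ ‖E(p,r)‖ ρ^(-|p-r|) ρ^(d(p)) K ρ^(d(q))`, `K ≤ K^j`. Sum up with RowB. -/
def LC1_stmt : Prop := ∀ (X : Type) [TopologicalSpace X] (α : X ≃ₜ X) (k : ℕ) (E : X → ℤ × Fin k → ℤ × Fin k → ℂ) (ρ K : ℝ),
  Ker α k E → RowB E ρ K → ∀ (x : X) (N j : ℕ) (p q : ℕ × Fin k), p.1 < N → q.1 < N →
    (1 ≤ j → ‖ent (aN E x N ^ j) p q - E x ((p.1 : ℤ), p.2) ((q.1 : ℤ), q.2)‖ ≤ K ^ j * ρ ^ (dd N p.1 + dd N q.1)) ∧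
    ‖ent (aN E x N ^ j) p q‖ ≤ K ^ j * ρ ^ (nd p.1 q.1)

/-- ROW cz:LC2 (medium). Same induction: for `p, q` in the window `[0, M)`:
`(a_N^(j+1))(p,q) - (a_M^(j+1))(p,q) = ∑_(r < M) E(p,r) ((a_N^j)(r,q) - (a_M^j)(r,q)) + ∑_(M ≤ r < N) E(p,r) (a_N^j)(r,q)`, and for `r ≥ M`: `|p - r| ≥ M - p`, `|r - q| ≥ M - q`, `‖(a_N^j)(r,q)‖ ≤ K^j ρ^|r-q|` (prove this as in LC1, or use
LC1 as a hypothesis). -/
def LC2_stmt : Prop := ∀ (X : Type) [TopologicalSpace X] (α : X ≃ₜ X) (k : ℕ) (E : X → ℤ × Fin k → ℤ × Fin k → ℂ) (ρ K : ℝ),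
  Ker α k E → RowB E ρ K → ∀ (x : X) (M N j : ℕ) (p q : ℕ × Fin k), M ≤ N → p.1 < M → q.1 < M →
    ‖ent (aN E x N ^ j) p q - ent (aN E x M ^ j) p q‖ ≤ K ^ j * ρ ^ ((M - p.1) + (M - q.1))

/-- ROW cz:LC3 (medium). The same at the right end: the window `[N-M, N)` of `a_N(x)` is `a_M(α^(N-M) x)` (`tr`), the part outside this window is `r < N - M`, at distance `≥ p + 1` of `N - M + p`. -/
def LC3_stmt : Prop := ∀ (X : Type) [TopologicalSpace X] (α : X ≃ₜ X) (k : ℕ) (E : X → ℤ × Fin k → ℤ × Fin k → ℂ) (ρ K : ℝ),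
  Ker α k E → RowB E ρ K → ∀ (x : X) (M N j : ℕ) (p q : ℕ × Fin k), M ≤ N → p.1 < M → q.1 < M →
    ‖ent (aN E x N ^ j) (N - M + p.1, p.2) (N - M + q.1, q.2) -
      ent (aN E ((α ^ ((N - M : ℕ) : ℤ)) x) M ^ j) p q‖ ≤ K ^ j * ρ ^ ((p.1 + 1) + (q.1 + 1))

/-- ROW cz:EXB (medium; from RWB, LC1, LC2, LC3). `exp (z a) = ∑ z^j/j! a^j`. As `e^z = 1`, `∑_(j ≥ 1) z^j/j! = 0`, so `exp(z a)(p,q) - δ_pq = ∑_(j ≥ 1) z^j/j! ((a^j)(p,q) - E(p,q))`, at most `∑ (2π)^j/j! K^j ρ^(...) = e^(2πK) ρ^(...)`;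
the other bounds in the same way. -/
def EXB_stmt : Prop := ∀ (X : Type) [TopologicalSpace X] (α : X ≃ₜ X) (k : ℕ) (E : X → ℤ × Fin k → ℤ × Fin k → ℂ),
  Ker α k E → ∃ C ρ : ℝ, 0 < ρ ∧ ρ < 1 ∧ 0 ≤ C ∧ ∀ z : ℂ, (z = 2 * Real.pi * Complex.I ∨ z = -(2 * Real.pi * Complex.I)) →
    (∀ (x : X) (N : ℕ) (p q : ℕ × Fin k), p.1 < N → q.1 < N →
      ‖ent (vN E x N z) p q - (if p = q then 1 else 0)‖ ≤ C * ρ ^ (dd N p.1 + dd N q.1) ∧
      ‖ent (vN E x N z) p q - (if p = q then 1 else 0)‖ ≤ C * ρ ^ (nd p.1 q.1)) ∧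
    ∀ (x : X) (M N : ℕ) (p q : ℕ × Fin k), M ≤ N → p.1 < M → q.1 < M →
      ‖ent (vN E x N z) p q - ent (vN E x M z) p q‖ ≤ C * ρ ^ ((M - p.1) + (M - q.1)) ∧
      ‖ent (vN E x N z) (N - M + p.1, p.2) (N - M + q.1, q.2) -
        ent (vN E ((α ^ ((N - M : ℕ) : ℤ)) x) M z) p q‖ ≤ C * ρ ^ ((p.1 + 1) + (q.1 + 1))

/-- ROW cz:DTP (short-medium). `|det M| ≤ ∏_i ∑_j |M_ij|` (Leibniz formula), `≤ exp ∑_ij |M_ij - δ_ij|`. For the difference change the rows one after the other (`det` is linear in each row). -/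
def DTP_stmt : Prop := ∀ (n : Type) [Fintype n] [DecidableEq n] (E F : Matrix n n ℂ),
  ‖(1 + E).det‖ ≤ Real.exp (∑ i, ∑ j, ‖E i j‖) ∧
  ‖(1 + E).det - (1 + F).det‖ ≤ (∑ i, ∑ j, ‖E i j - F i j‖) * Real.exp ((∑ i, ∑ j, ‖E i j‖) + ∑ i, ∑ j, ‖F i j‖)

/-- ROW cz:DEX (medium). `det exp A = exp tr A`. For instance: `f(t) = det exp(tA)` is a differentiable homomorphism `(ℝ,+) → (ℂ,·)` with `f'(0) = tr A` (`det(1 + tA + O(t²)) = 1 + t tr A + O(t²)`), so `f(t) exp(-t tr A)` has derivative 0;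
or by triangularisation; or density of diagonalisable matrices. -/
def DEX_stmt : Prop := ∀ (n : Type) [Fintype n] [DecidableEq n] (M : Matrix n n ℂ),
  (NormedSpace.exp M).det = Complex.exp M.trace

/-- ROW cz:BLD (short-medium). Block diagonal matrix (`P`, identity, `Q`): `Matrix.twoBlockTriangular_det` twice, or reindex to `fromBlocks`. -/
def BLD_stmt : Prop := ∀ (k L N : ℕ) (P Q : ℕ × Fin k → ℕ × Fin k → ℂ), 2 * L ≤ N →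
  (mat N (fun p q => if p.1 < L ∧ q.1 < L then P p q else
    if N - L ≤ p.1 ∧ N - L ≤ q.1 then Q (p.1 - (N - L), p.2) (q.1 - (N - L), q.2) else
    if p = q then 1 else 0)).det = (mat L P).det * (mat L Q).det

/-- ROW cz:CON (medium-long; from EXB, DTP, DEX, BLD). `V = vN E x0 N (2πi)`, `det V = exp(2πi tr a_N) = exp(2πi ∑_(m<N) h(α^m x0))` (`tr`: `E x (m,a)(m,a) = E (α^m x) (0,a)(0,a)`). For `N ≥ 4L` compare `V` with the block matrix `W` of BLD, `P = ent (vN E x0 (2L))` on `[0,L)²`,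
`Q(p,q) = ent (vN E (α^(N-2L) x0) (2L)) (L+p, L+q)`: entries of `V - W`: in the corner `[0,L)²`: EXB with `M = 2L`: `≤ C ρ^(2L)`; in the other corner: `≤ C ρ^(2L)`; `p`, `q` in different corners: `≤ C ρ^(|p-q|) ≤ C ρ^(2L)`; one of them, say `p`, in the middle:
`≤ C ρ^(dd p + dd q)`, with `dd p ≥ L`. So `∑ ‖V - W‖ ≤ 4 k² L² C ρ^(2L) + C' ρ^L → 0` (`L → ∞`), uniformly in `N`, and `∑ ‖V - 1‖ ≤ ∑ C ρ^(dd p + dd q)` is bounded uniformly in `N`. By DTP and BLD: `‖det V - det(mat L P) det(mat L Q)‖ ≤ ε`.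
`v(y) = det(mat L P) · det` of the corner of `vN E (α^(-2L) y) (2L)`: continuous in `y` (`cont`, continuity of `exp`), and `v(α^N x0)` is the product. -/
def CON_stmt : Prop := ∀ (X : Type) [TopologicalSpace X] (α : X ≃ₜ X) (k : ℕ) (E : X → ℤ × Fin k → ℤ × Fin k → ℂ),
  Ker α k E → ∀ (x0 : X) (ε : ℝ), 0 < ε → ∃ (v : C(X, ℂ)) (N0 : ℕ), ∀ N : ℕ, N0 ≤ N →
    ‖Complex.exp (2 * Real.pi * Complex.I * ∑ m ∈ Finset.range N, trE E ((α ^ (m : ℤ)) x0)) - v ((α ^ (N : ℤ)) x0)‖ ≤ ε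

/-- ROW cz:CBD (short-medium; from EXB, DTP, DEX). `z = -2πi`: `exp(-2πi ∑ h) = det (1 + (V - 1))`, `∑ ‖V - 1‖ ≤ ∑_(p,q) C ρ^(dd p + dd q) ≤ C (2k/(1-ρ))²`. -/
def CBD_stmt : Prop := ∀ (X : Type) [TopologicalSpace X] (α : X ≃ₜ X) (k : ℕ) (E : X → ℤ × Fin k → ℤ × Fin k → ℂ),
  Ker α k E → ∃ C : ℝ, ∀ (x : X) (N : ℕ),
    ‖Complex.exp (-(2 * Real.pi * Complex.I * ∑ m ∈ Finset.range N, trE E ((α ^ (m : ℤ)) x)))‖ ≤ C

/-- ROW cz:ASY (medium). Write `e_N = exp(2πi ∑_(m<N) h(α^m x0))`. The tail `{α^N x0 : N ≥ N₀}` is dense for every `N₀`: its closure `T_(N₀)` satisfies `α T_(N₀) = T_(N₀+1) ⊆ T_(N₀)`; the intersection of all of them is closed, non-empty (compactness), `α`-invariant, so it contains a whole orbit, so it is `X`.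
For `ε, ε'`: `|v_ε - v_ε'| ≤ ε + ε'` on a tail, so everywhere. So `v_ε → w` uniformly (`ε → 0`), `|v_ε - w| ≤ ε`, `|e_N - w(α^N x0)| ≤ 2ε` for `N ≥ N₀(ε)`. `e_(N+1) = exp(2πi h(α^N x0)) e_N`, so `|w(α y) - exp(2πi h(y)) w(y)| ≤ 2ε (1 + e^(2π‖h‖))` for `y` in a tail, so for all `y`; `ε → 0`.
`|e_N| ≥ 1/C`, so `w ≠ 0` somewhere; its zero set is closed and invariant, so empty (dense orbits). -/
def ASY_stmt : Prop := ∀ (X : Type) [TopologicalSpace X] [CompactSpace X] (α : X ≃ₜ X), IsMinimal α → ∀ (h : C(X, ℂ)) (x0 : X),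
  (∀ ε : ℝ, 0 < ε → ∃ (v : C(X, ℂ)) (N0 : ℕ), ∀ N : ℕ, N0 ≤ N →
    ‖Complex.exp (2 * Real.pi * Complex.I * ∑ m ∈ Finset.range N, h ((α ^ (m : ℤ)) x0)) - v ((α ^ (N : ℤ)) x0)‖ ≤ ε) →
  (∃ C : ℝ, ∀ N : ℕ, ‖Complex.exp (-(2 * Real.pi * Complex.I * ∑ m ∈ Finset.range N, h ((α ^ (m : ℤ)) x0)))‖ ≤ C) →
  ∃ w : C(X, ℂ), (∀ x, w x ≠ 0) ∧ ∀ x, w (α x) = Complex.exp (2 * Real.pi * Complex.I * h x) * w x

/-- ROW cz:INK (short; from CON, CBD, ASY). -/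
def INK_stmt : Prop := ∀ (X : Type) [TopologicalSpace X] [CompactSpace X] (α : X ≃ₜ X), IsMinimal α →
  ∀ (k : ℕ) (E : X → ℤ × Fin k → ℤ × Fin k → ℂ), Ker α k E →
  ∃ w : C(X, ℂ), (∀ x, w x ≠ 0) ∧ ∀ x, w (α x) = Complex.exp (2 * Real.pi * Complex.I * trE E x) * w x

/-- ROW cz:KER (medium; from SMC, SMM). Decay: SMC. `idem`: `c_(p-q)((e e)_(ab)) = ∑_d ∑_i c_i(e_ad) · c_(p-q-i)(e_db) ∘ α^(-i)` (SMM), evaluate at `α^p x` and put `r = p - i`. -/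
def KER_stmt : Prop := ∀ (X : Type) [TopologicalSpace X] [CompactSpace X] (α : X ≃ₜ X) (A : Type) [CStarAlgebra A]
  (ι : C(X, ℂ) →⋆ₐ[ℂ] A) (u : unitary A) (c : ℤ → A →ₗ[ℂ] C(X, ℂ)), Cov α ι u c →
  ∀ (n : ℕ) (e : Matrix (Fin n) (Fin n) A), e * e = e → SmM ι u e →
    Ker α n (fun x p q => c (p.1 - q.1) (e p.2 q.2) ((α ^ p.1) x))

/-- `w` is unimodular and `w ∘ α = e^(2πih) w` -/
def Rot {X : Type} [TopologicalSpace X] (α : X ≃ₜ X) (w : C(X, ℂ)) (h : C(X, ℝ)) : Prop :=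
  (∀ x, ‖w x‖ = 1) ∧ ∀ x, w (α x) = Complex.exp (2 * Real.pi * Complex.I * h x) * w x

/-- ROW cz:INT (medium; from KSM, KER, INK). The set of the `g` with the conclusion is a subgroup (products and inverses of the `w`'s), so it suffices to treat `cls p`, and by KSM `p` smooth. KER and INK give `w'` without zeros with `w' ∘ α = e^(2πi h') w'`,
`h' = ∑ c_0(e_aa)` (`trE` of the kernel at `x` is `h' x`). Taking absolute values: `Im h' = -(1/2π) (log|w'| ∘ α - log|w'|)`, so `h' - Re h' ∈ Bd`; `w = w'/|w'|`, `h = Re h'`. -/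
def INT_stmt : Prop := ∀ (X : Type) [TopologicalSpace X] [CompactSpace X] (α : X ≃ₜ X) (A : Type) [CStarAlgebra A]
  (ι : C(X, ℂ) →⋆ₐ[ℂ] A) (u : unitary A) (c : ℤ → A →ₗ[ℂ] C(X, ℂ)), Cov α ι u c → IsMinimal α →
  ∀ D : K0 A →+ C(X, ℂ) ⧸ Bd α, (∀ p : IdemMat A, SmM ι u p.e → D (cls p) = QuotientAddGroup.mk (∑ i, c 0 (p.e i i))) →
  ∀ g : K0 A, ∃ (w : C(X, ℂ)) (h : C(X, ℝ)), Rot α w h ∧ D g = QuotientAddGroup.mk (rc h)

end Pool.Agent.CZ
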