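import Mathlib

/-!
# Project cz (MP_376aaf_an): K-theory of crossed products by a minimal homeomorphism. Main definitions
-/

set_option autoImplicit false

open scoped Matrix

namespace Pool.Agent.CZ

/-- every orbit is dense -/
def IsMinimal {X : Type} [TopologicalSpace X] (α : X ≃ₜ X) : Prop :=
  ∀ x, Dense (Set.range (fun n : ℤ => (α ^ n) x))

/-- the unital C*-algebra `A`, generated by the image of `ι : C(X) → A` and the unitary `u`, is the
(full) crossed product of `C(X)` by `α`: `u f u* = f ∘ α⁻¹`, and every covariant pair `(j, v)` in a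
unital C*-algebra comes from a homomorphism `A → B` -/
structure IsCrossedProduct {X : Type} [TopologicalSpace X] [CompactSpace X] (α : X ≃ₜ X) {A : Type}
    [CStarAlgebra A] (ι : C(X, ℂ) →⋆ₐ[ℂ] A) (u : unitary A) : Prop where
  cov : ∀ f : C(X, ℂ), (u : A) * ι f * star (u : A) = ι (f.comp (α.symm : C(X, X)))
  dense : Dense ((Submodule.span ℂ {a : A | ∃ (f : C(X, ℂ)) (n : ℤ),
    a = ι f * ((u ^ n : unitary A) : A)} : Submodule ℂ A) : Set A)
  univ : ∀ (B : Type) [CStarAlgebra B] (j : C(X, ℂ) →⋆ₐ[ℂ] B) (v : unitary B),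
    (∀ f : C(X, ℂ), (v : B) * j f * star (v : B) = j (f.comp (α.symm : C(X, X)))) →
    ∃ Φ : A →⋆ₐ[ℂ] B, (∀ f, Φ (ι f) = j f) ∧ Φ (u : A) = v

/-- an idempotent matrix over `A` -/
structure IdemMat (A : Type) [Ring A] where
  n : ℕ
  e : Matrix (Fin n) (Fin n) A
  idem : e * e = e

/-- the relations of `K₀(A)`: `[x y] = [y x]` if `x y` and `y x` are idempotent matrices,
`[e + f] = [e] + [f]` if `e`, `f` are idempotent matrices with `e f = f e = 0` -/
def K0Rel (A : Type) [Ring A] : Set (FreeAbelianGroup (IdemMat A)) :=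
  {z | (∃ p q : IdemMat A, (∃ (x : Matrix (Fin p.n) (Fin q.n) A) (y : Matrix (Fin q.n) (Fin p.n) A),
      x * y = p.e ∧ y * x = q.e) ∧ z = FreeAbelianGroup.of p - FreeAbelianGroup.of q) ∨
    ∃ (n : ℕ) (e f : Matrix (Fin n) (Fin n) A) (he : e * e = e) (hf : f * f = f)
      (hs : (e + f) * (e + f) = e + f), e * f = 0 ∧ f * e = 0 ∧
      z = FreeAbelianGroup.of ⟨n, e + f, hs⟩ - FreeAbelianGroup.of ⟨n, e, he⟩ -
        FreeAbelianGroup.of ⟨n, f, hf⟩}

/-- the group `K₀(A)` -/
abbrev K0 (A : Type) [Ring A] : Type :=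
  FreeAbelianGroup (IdemMat A) ⧸ AddSubgroup.closure (K0Rel A)

/-- the class of an idempotent matrix -/
def cls {A : Type} [Ring A] (p : IdemMat A) : K0 A :=
  QuotientAddGroup.mk (FreeAbelianGroup.of p)

/-- the class of the unit of `A` -/
def unitCls (A : Type) [Ring A] : K0 A := cls ⟨1, 1, one_mul 1⟩

/-- tracial states -/
structure TracialState (A : Type) [CStarAlgebra A] where
  τ : A →ₗ[ℂ] ℂ
  pos : ∀ a, 0 ≤ (τ (star a * a)).re ∧ (τ (star a * a)).im = 0
  one : τ 1 = 1
  comm : ∀ a b, τ (a * b) = τ (b * a)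

/-- the pairing of `K₀(A)` with a tracial state -/
noncomputable def pair {A : Type} [CStarAlgebra A] (t : TracialState A) : K0 A →+ ℂ :=
  QuotientAddGroup.lift _ (FreeAbelianGroup.lift (fun p : IdemMat A => ∑ i, t.τ (p.e i i))) (by
    rw [AddSubgroup.closure_le]
    rintro z (⟨p, q, ⟨x, y, h1, h2⟩, rfl⟩ | ⟨n, e, f, he, hf, hs, -, -, rfl⟩)
    · change (FreeAbelianGroup.lift (fun p : IdemMat A => ∑ i, t.τ (p.e i i))) _ = 0
      rw [map_sub, FreeAbelianGroup.lift_apply_of, FreeAbelianGroup.lift_apply_of, ← h1, ← h2, sub_eq_zero]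
      simp only [Matrix.mul_apply, map_sum]
      rw [Finset.sum_comm]
      exact Finset.sum_congr rfl fun i _ => Finset.sum_congr rfl fun j _ => t.comm _ _
    · change (FreeAbelianGroup.lift (fun p : IdemMat A => ∑ i, t.τ (p.e i i))) _ = 0
      rw [map_sub, map_sub, FreeAbelianGroup.lift_apply_of, FreeAbelianGroup.lift_apply_of,
        FreeAbelianGroup.lift_apply_of]
      simp only [Matrix.add_apply, map_add, Finset.sum_add_distrib]
      ring)

end Pool.Agent.CZ
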