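import Pool.Agent.helper37.CZ.MixDefs

/-!
# A countable mixed group of torsion free rank one whose torsion subgroup is not a direct summand
-/

set_option autoImplicit false

namespace Pool.Agent.CZ

theorem Mix_torsion_of_finite (x : mixedGroup) (h : {p : Nat.Primes | (x : ∀ p : Nat.Primes, ZMod p) p ≠ 0}.Finite) :
    ∃ M : ℤ, M ≠ 0 ∧ M • x = 0 := by
  refine ⟨((∏ p ∈ h.toFinset, (p : ℕ) : ℕ) : ℤ), ?_, ?_⟩
  · rw [Nat.cast_ne_zero]
    exact Finset.prod_ne_zero_iff.mpr fun p _ => p.2.ne_zero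
  · apply Subtype.ext
    funext p
    rw [AddSubgroup.coe_zsmul, ZeroMemClass.coe_zero, Pi.zero_apply, Pi.smul_apply, zsmul_eq_mul]
    by_cases hp : (x : ∀ p : Nat.Primes, ZMod p) p = 0
    · rw [hp, mul_zero]
    · have hp' : p ∈ h.toFinset := by rw [Set.Finite.mem_toFinset]; exact hp
      have h1 : ((((∏ p ∈ h.toFinset, (p : ℕ) : ℕ) : ℤ)) : ZMod p) = 0 := by
        rw [Int.cast_natCast, ZMod.natCast_eq_zero_iff]
        exact Finset.dvd_prod_of_mem _ hp'
      rw [h1, zero_mul]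

theorem Mix_rank (v g : mixedGroup) (hv : ∀ n : ℤ, n ≠ 0 → n • v ≠ 0) :
    ∃ n k : ℤ, n ≠ 0 ∧ n • g = k • v := by
  obtain ⟨a, b, hb, h⟩ := v.2
  obtain ⟨a', b', hb', h'⟩ := g.2
  have ha : a ≠ 0 := by
    rintro rfl
    have h1 : {p : Nat.Primes | ((b • v : mixedGroup) : ∀ p : Nat.Primes, ZMod p) p ≠ 0}.Finite := by
      refine h.subset ?_
      intro p hp hc
      apply hp
      rw [AddSubgroup.coe_zsmul, Pi.smul_apply, zsmul_eq_mul, hc, Int.cast_zero]
    obtain ⟨M, hM, h2⟩ := Mix_torsion_of_finite (b • v) h1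
    rw [smul_smul] at h2
    exact hv (M * b) (mul_ne_zero hM hb) h2
  have h1 : {p : Nat.Primes | (((a * b') • g - (a' * b) • v : mixedGroup) : ∀ p : Nat.Primes, ZMod p) p ≠ 0}.Finite := by
    refine (h.union h').subset ?_
    intro p hp
    by_contra hc
    rw [Set.mem_union, not_or, Set.mem_setOf_eq, Set.mem_setOf_eq, not_not, not_not] at hc
    apply hp
    rw [AddSubgroup.coe_sub, AddSubgroup.coe_zsmul, AddSubgroup.coe_zsmul, Pi.sub_apply, Pi.smul_apply, Pi.smul_apply,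
      zsmul_eq_mul, zsmul_eq_mul]
    push_cast
    rw [← hc.1, ← hc.2]
    ring
  obtain ⟨M, hM, h2⟩ := Mix_torsion_of_finite _ h1
  refine ⟨M * (a * b'), M * (a' * b), mul_ne_zero hM (mul_ne_zero ha hb'), ?_⟩
  rw [smul_sub, sub_eq_zero, smul_smul, smul_smul] at h2
  exact h2

/-- the constant sequence 1 -/
def Mix_one : mixedGroup := ⟨fun _ => 1, 1, 1, one_ne_zero, by simp⟩

theorem Mix_one_ne (n : ℤ) (hn : n ≠ 0) : n • Mix_one ≠ 0 := by
  intro h
  have h1 : ∀ p : Nat.Primes, ((n : ℤ) : ZMod p) = 0 := by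
    intro p
    have := congrFun (congrArg Subtype.val h) p
    rw [AddSubgroup.coe_zsmul, ZeroMemClass.coe_zero, Pi.zero_apply, Pi.smul_apply, zsmul_eq_mul] at this
    change (n : ZMod p) * 1 = 0 at this
    rwa [mul_one] at this
  obtain ⟨p, hp1, hp2⟩ := Nat.exists_infinite_primes (n.natAbs + 1)
  have h2 := h1 ⟨p, hp2⟩
  rw [ZMod.intCast_zmod_eq_zero_iff_dvd] at h2
  have h3 : (p : ℕ) ∣ n.natAbs := Int.natCast_dvd.mp h2
  have h4 := Nat.le_of_dvd (Int.natAbs_pos.mpr hn) h3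
  omega

theorem Mix_no_complement (P : AddSubgroup mixedGroup) : ¬ IsCompl P (AddCommGroup.torsion mixedGroup) := by
  intro hP
  -- every element of `P` is divisible by every prime in the group, so it is 0
  have hdiv : ∀ x ∈ P, x = 0 := by
    intro x hx
    apply Subtype.ext
    funext p
    obtain ⟨a, b, hb, h⟩ := x.2
    -- `y` with `p b y = a` almost everywhere
    classical
    let y0 : ∀ q : Nat.Primes, ZMod q := fun q =>
      haveI : Fact (q : ℕ).Prime := ⟨q.2⟩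
      ((((p : ℕ) : ℤ) * b : ℤ) : ZMod q)⁻¹ * (a : ZMod q)
    have hpb : (((p : ℕ) : ℤ) * b) ≠ 0 := mul_ne_zero (by exact_mod_cast p.2.ne_zero) hb
    have hfin : {q : Nat.Primes | (((((p : ℕ) : ℤ) * b : ℤ)) : ZMod q) = 0}.Finite := by
      have : {q : Nat.Primes | (((((p : ℕ) : ℤ) * b : ℤ)) : ZMod q) = 0} ⊆
          {q : Nat.Primes | (q : ℕ) ≤ (((p : ℕ) : ℤ) * b).natAbs} := by
        intro q hq
        rw [Set.mem_setOf_eq, ZMod.intCast_zmod_eq_zero_iff_dvd] at hq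
        exact Nat.le_of_dvd (Int.natAbs_pos.mpr hpb) (Int.natCast_dvd.mp hq)
      refine Set.Finite.subset ?_ this
      exact Set.Finite.of_finite_image ((Set.finite_Iic ((((p : ℕ) : ℤ) * b).natAbs)).subset
        (by rintro _ ⟨q, hq, rfl⟩; exact hq)) (fun q _ q' _ h => Subtype.ext h)
    have hy0 : y0 ∈ mixedGroup := by
      refine ⟨a, ((p : ℕ) : ℤ) * b, hpb, hfin.subset ?_⟩
      intro q hq
      by_contra hc
      apply hq
      haveI : Fact (q : ℕ).Prime := ⟨q.2⟩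
      change (((((p : ℕ) : ℤ) * b : ℤ)) : ZMod q) * ((((((p : ℕ) : ℤ) * b : ℤ)) : ZMod q)⁻¹ * (a : ZMod q)) = _
      rw [mul_inv_cancel_left₀ hc]
    let y : mixedGroup := ⟨y0, hy0⟩
    -- `p y - x` is torsion
    have ht : (((p : ℕ) : ℤ) • y - x) ∈ AddCommGroup.torsion mixedGroup := by
      have h1 : {q : Nat.Primes | ((((p : ℕ) : ℤ) • y - x : mixedGroup) : ∀ q : Nat.Primes, ZMod q) q ≠ 0}.Finite := by
        refine (hfin.union h).subset ?_
        intro q hq
        by_contra hc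
        rw [Set.mem_union, not_or, Set.mem_setOf_eq, Set.mem_setOf_eq, not_not] at hc
        haveI : Fact (q : ℕ).Prime := ⟨q.2⟩
        apply hq
        rw [AddSubgroup.coe_sub, AddSubgroup.coe_zsmul, Pi.sub_apply, Pi.smul_apply, zsmul_eq_mul]
        change (((p : ℕ) : ℤ) : ZMod q) * ((((((p : ℕ) : ℤ) * b : ℤ)) : ZMod q)⁻¹ * (a : ZMod q)) - _ = 0
        rw [← hc.2]
        have hc1 := hc.1
        push_cast at hc1 ⊢
        have hp0 : ((p : ℕ) : ZMod q) ≠ 0 := left_ne_zero_of_mul hc1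
        have hb0 : (b : ZMod q) ≠ 0 := right_ne_zero_of_mul hc1
        rw [mul_inv]
        field_simp
        ring
      obtain ⟨M, hM, h2⟩ := Mix_torsion_of_finite _ h1
      rw [AddCommGroup.mem_torsion, isOfFinAddOrder_iff_zsmul_eq_zero]
      exact ⟨M, hM, h2⟩
    -- decompose `y`
    obtain ⟨y1, hy1, y2, hy2, hy⟩ := AddSubgroup.mem_sup.mp (hP.sup_eq_top ▸ AddSubgroup.mem_top y)
    have h3 : ((p : ℕ) : ℤ) • y1 - x ∈ P ⊓ AddCommGroup.torsion mixedGroup := by
      refine ⟨P.sub_mem (P.zsmul_mem hy1 _) hx, ?_⟩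
      have : ((p : ℕ) : ℤ) • y1 - x = (((p : ℕ) : ℤ) • y - x) - ((p : ℕ) : ℤ) • y2 := by
        rw [← hy, smul_add]; abel
      rw [this]
      exact AddSubgroup.sub_mem _ ht (AddSubgroup.zsmul_mem _ hy2 _)
    rw [hP.inf_eq_bot, AddSubgroup.mem_bot, sub_eq_zero] at h3
    rw [← h3, AddSubgroup.coe_zsmul, ZeroMemClass.coe_zero, Pi.zero_apply, Pi.smul_apply, zsmul_eq_mul]
    push_cast
    rw [ZMod.natCast_self, zero_mul]
  have htop : AddCommGroup.torsion mixedGroup = ⊤ := by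
    have : P = ⊥ := by
      rw [eq_bot_iff]
      intro x hx
      exact AddSubgroup.mem_bot.mpr (hdiv x hx)
    have h := hP.sup_eq_top
    rwa [this, bot_sup_eq] at h
  have h1 : Mix_one ∈ AddCommGroup.torsion mixedGroup := htop ▸ AddSubgroup.mem_top _
  rw [AddCommGroup.mem_torsion, isOfFinAddOrder_iff_zsmul_eq_zero] at h1
  obtain ⟨n, hn, h2⟩ := h1
  exact Mix_one_ne n hn h2

/-- a group isomorphic to the mixed group is not `P ⊕ torsion` -/
theorem Mix_main (G : Type) [AddCommGroup G] (φ : G ≃+ mixedGroup) (v : G) (hv : ∀ n : ℤ, n ≠ 0 → n • v ≠ 0)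
    (h : (∀ g : G, ∃ n k : ℤ, n ≠ 0 ∧ n • g = k • v) → ∃ P : AddSubgroup G, IsCompl P (AddCommGroup.torsion G)) :
    False := by
  have hv' : ∀ n : ℤ, n ≠ 0 → n • φ v ≠ 0 := by
    intro n hn h1
    rw [← map_zsmul, map_eq_zero_iff φ φ.injective] at h1
    exact hv n hn h1
  obtain ⟨P, hP⟩ := h (fun g => by
    obtain ⟨n, k, hn, h1⟩ := Mix_rank (φ v) (φ g) hv'
    refine ⟨n, k, hn, φ.injective ?_⟩
    rw [map_zsmul, map_zsmul, h1])
  have htor : (AddCommGroup.torsion G).map (φ : G →+ mixedGroup) = AddCommGroup.torsion mixedGroup := by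
    ext x
    rw [AddSubgroup.mem_map]
    constructor
    · rintro ⟨g, hg, rfl⟩
      rw [AddCommGroup.mem_torsion, isOfFinAddOrder_iff_zsmul_eq_zero] at hg ⊢
      obtain ⟨n, hn, h1⟩ := hg
      exact ⟨n, hn, by rw [AddMonoidHom.coe_coe, ← map_zsmul, h1, map_zero]⟩
    · intro hx
      refine ⟨φ.symm x, ?_, by simp⟩
      rw [AddCommGroup.mem_torsion, isOfFinAddOrder_iff_zsmul_eq_zero] at hx ⊢
      obtain ⟨n, hn, h1⟩ := hx
      exact ⟨n, hn, by rw [← map_zsmul, h1, map_zero]⟩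
  apply Mix_no_complement (P.map (φ : G →+ mixedGroup))
  rw [← htor]
  have hinj : Function.Injective (φ : G →+ mixedGroup) := φ.injective
  constructor
  · rw [disjoint_iff, ← AddSubgroup.map_inf _ _ _ hinj, hP.inf_eq_bot, AddSubgroup.map_bot]
  · rw [codisjoint_iff, ← AddSubgroup.map_sup, hP.sup_eq_top]
    exact AddSubgroup.map_top_of_surjective _ φ.surjective

end Pool.Agent.CZ
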