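import Mathlib

/-!
# A countable mixed group of torsion free rank one whose torsion subgroup is not a direct summand: definition
-/

set_option autoImplicit false

namespace Pool.Agent.CZ

/-- the sequences `x ∈ ∏ ℤ/p` (all primes `p`) such that for some integers `a`, `b ≠ 0` one has
`b x_p = a` for all but finitely many `p`: the torsion subgroup is `⨁ ℤ/p`, the quotient is `ℚ` -/
def mixedGroup : AddSubgroup (∀ p : Nat.Primes, ZMod p) where
  carrier := {x | ∃ a b : ℤ, b ≠ 0 ∧ {p : Nat.Primes | (b : ZMod p) * x p ≠ (a : ZMod p)}.Finite}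
  zero_mem' := ⟨0, 1, one_ne_zero, by simp⟩
  add_mem' := by
    rintro x y ⟨a, b, hb, h⟩ ⟨a', b', hb', h'⟩
    refine ⟨a * b' + a' * b, b * b', mul_ne_zero hb hb', (h.union h').subset ?_⟩
    intro p hp
    by_contra hc
    rw [Set.mem_union, not_or, Set.mem_setOf_eq, Set.mem_setOf_eq, not_not, not_not] at hc
    apply hp
    rw [Pi.add_apply]
    push_cast
    rw [← hc.1, ← hc.2]
    ring
  neg_mem' := by
    rintro x ⟨a, b, hb, h⟩
    refine ⟨-a, b, hb, h.subset ?_⟩
    intro p hp hc
    apply hp
    rw [Pi.neg_apply, mul_neg, hc]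
    push_cast
    rfl

end Pool.Agent.CZ
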