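import Pool.Agent.helper37.CZ.SpecD

/-! # Rows of cz: SMA, CL4, CL5, HIN, MAI -/

set_option autoImplicit false

open scoped Matrix Topology ComplexConjugate
open Filter

namespace Pool.Agent.CZ

section SMA
variable {X : Type} [TopologicalSpace X] [CompactSpace X] {A : Type} [CStarAlgebra A]
  (ι : C(X, ℂ) →⋆ₐ[ℂ] A) (u : unitary A)

theorem SMA_mono (f : C(X, ℂ)) (n : ℤ) : Sm ι u (ι f * up u n) := by
  classical
  refine ⟨1, one_pos, fun j => if j = n then f else 0, ⟨‖f‖ * Real.exp (|(n : ℝ)|), ?_⟩, ?_⟩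
  · intro j
    by_cases h : j = n
    · subst h
      simp only [if_true]
      rw [mul_assoc, ← Real.exp_add, one_mul, add_neg_cancel, Real.exp_zero, mul_one]
    · simp only [h, if_false, norm_zero]
      positivity
  · have h1 : (fun j => ι (if j = n then f else 0) * up u j) = fun j => if j = n then ι f * up u n else 0 := by
      funext j
      by_cases h : j = n
      · subst h; simp
      · simp [h]
    unfold Rep
    rw [h1]
    exact hasSum_ite_eq n _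

theorem SMA_zero : Sm ι u 0 := by
  have := SMA_mono ι u 0 0
  rwa [map_zero, zero_mul] at this

theorem SMA_one : Sm ι u 1 := by
  have := SMA_mono ι u 1 0
  have h : up u 0 = 1 := by unfold up; rw [zpow_zero]; rfl
  rwa [map_one, h, one_mul] at this

theorem SMA_dec {s t : ℝ} (h : s ≤ t) {f : ℤ → C(X, ℂ)} (hf : Dec t f) : Dec s f := by
  obtain ⟨C, hC⟩ := hf
  refine ⟨|C|, fun j => (hC j).trans ?_⟩
  refine mul_le_mul (le_abs_self C) ?_ (Real.exp_pos _).le (abs_nonneg C)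
  rw [Real.exp_le_exp, neg_le_neg_iff]
  exact mul_le_mul_of_nonneg_right h (abs_nonneg _)

theorem SMA_add (a b : A) (ha : Sm ι u a) (hb : Sm ι u b) : Sm ι u (a + b) := by
  obtain ⟨s, hs, f, hf, hfa⟩ := ha
  obtain ⟨t, ht, g, hg, hgb⟩ := hb
  refine ⟨min s t, lt_min hs ht, fun j => f j + g j, ?_, ?_⟩
  · obtain ⟨C, hC⟩ := SMA_dec (min_le_left s t) hf
    obtain ⟨C', hC'⟩ := SMA_dec (min_le_right s t) hg
    refine ⟨C + C', fun j => ?_⟩
    rw [add_mul]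
    exact (norm_add_le _ _).trans (add_le_add (hC j) (hC' j))
  · have h1 : (fun j => ι (f j + g j) * up u j) = fun j => ι (f j) * up u j + ι (g j) * up u j := by
      funext j; rw [map_add, add_mul]
    unfold Rep
    rw [h1]
    exact hfa.add hgb

theorem SMA_smul (z : ℂ) (a : A) (ha : Sm ι u a) : Sm ι u (z • a) := by
  obtain ⟨s, hs, f, ⟨C, hC⟩, hfa⟩ := ha
  refine ⟨s, hs, fun j => z • f j, ⟨‖z‖ * C, fun j => ?_⟩, ?_⟩
  · rw [norm_smul, mul_assoc]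
    exact mul_le_mul_of_nonneg_left (hC j) (norm_nonneg z)
  · have h1 : (fun j => ι (z • f j) * up u j) = fun j => z • (ι (f j) * up u j) := by
      funext j; rw [map_smul, smul_mul_assoc]
    unfold Rep
    rw [h1]
    exact hfa.const_smul z

end SMA

theorem SMA : SMA_stmt := by
  intro X _ _ A _ ι u
  exact ⟨SMA_mono ι u, SMA_zero ι u, SMA_one ι u, SMA_add ι u, SMA_smul ι u⟩

theorem CL4 (h1 : FM2_stmt) (h2 : FLW_stmt) (h3 : ADK_stmt) (h4 : EQK_stmt) : CL4_stmt := by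
  rintro X _ _ α A _ ι u c hc w₁ w₂ g₁ g₂ z₁ z₂ z hR₁ hp₁ hR₂ hp₂ ⟨K₁, φ₁, e₁, he₁, hφ₁, hm₁, rfl⟩ ⟨K₂, φ₂, e₂, he₂, hφ₂, hm₂, rfl⟩
    ⟨K, φ, e, he, hφ, hm, rfl⟩
  obtain ⟨ψ, hψ, f, hf, hmf, hcls⟩ := h1 X α A ι u w₁ w₂ g₁ g₂ K₁ K₂ φ₁ φ₂ e₁ e₂ he₁ he₂ hφ₁ hφ₂ hm₁ hm₂
  obtain ⟨ξ, δ₀, hδ, hξ, hs, hi⟩ := h2 X α g₁ g₂ hp₁ hp₂
  have hK := h3 X α w₁ w₂ g₁ g₂ ξ δ₀ hR₁ hR₂ hδ hξ hs hi
  have hR : Rot α (w₁ * w₂) (g₁ + g₂) := by
    refine ⟨fun x => ?_, fun x => ?_⟩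
    · rw [ContinuousMap.mul_apply, norm_mul, hR₁.1, hR₂.1, one_mul]
    · rw [ContinuousMap.mul_apply, ContinuousMap.mul_apply, hR₁.2, hR₂.2, ContinuousMap.add_apply]
      push_cast
      rw [mul_add, Complex.exp_add]
      ring
  have hL : LSys α (fun _ : Unit => w₁ * w₂) (fun _ => g₁ + g₂) := fun _ =>
    ⟨hR, fun x => by rw [ContinuousMap.add_apply]; exact add_pos (hp₁ x) (hp₂ x)⟩
  have hL' : LSys α (fun b : Bool => bif b then w₁ else w₂) (fun b => bif b then g₁ else g₂) := by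
    rintro (_ | _)
    · exact ⟨hR₂, hp₂⟩
    · exact ⟨hR₁, hp₁⟩
  obtain ⟨x, y, h5, h6⟩ := h4 X α A ι u c hc Unit Bool _ _ _ _ _ K (K₁ + K₂) φ ψ e f hL hL' hφ hψ hK hm hmf
  rw [← hcls]
  exact cls_eq (p := ⟨K, e, he⟩) (q := ⟨K₁ + K₂, f, hf⟩) x y h5 h6

end Pool.Agent.CZ
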