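import Pool.Agent.helper37.CZ.SB

/-! # Rows of cz: CL5, HIN -/

set_option autoImplicit false

open scoped Matrix Topology ComplexConjugate
open Filter

namespace Pool.Agent.CZ

theorem CL5_fin {X : Type} [TopologicalSpace X] [CompactSpace X] {A : Type} [CStarAlgebra A]
    {ι : C(X, ℂ) →⋆ₐ[ℂ] A} {u : unitary A} {F : ℤ → C(X, ℂ)} {a : A} (h : IsFin ι u F a) :
    a = ∑ n ∈ h.1.toFinset, ι (F n) * up u n := by
  have h1 := h.2
  rw [finsum_eq_sum_of_support_subset (s := h.1.toFinset)] at h1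
  · exact h1
  · intro n hn
    rw [Finset.mem_coe, Set.Finite.mem_toFinset, Function.mem_support]
    intro h0
    apply hn
    change ι (F n) * up u n = 0
    rw [h0, map_zero, zero_mul]

theorem CL5 (h1 : SMA_stmt) (h2 : DV0_stmt) : CL5_stmt := by
  rintro X _ _ α A _ ι u c hc D hD w h z hR hp ⟨K, φ, e, he, hφ, hm, rfl⟩
  obtain ⟨s1, s2, s3, s4, s5⟩ := h1 X A ι u
  have hsm : SmM ι u e := by
    intro i j
    obtain ⟨F, hF, -⟩ := hm i j
    rw [CL5_fin hF]
    induction hF.1.toFinset using Finset.cons_induction with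
    | empty => rw [Finset.sum_empty]; exact s2
    | cons n s hn ih => rw [Finset.sum_cons]; exact s4 _ _ (s1 _ _) ih
  rw [hD ⟨K, e, he⟩ hsm]
  obtain ⟨g, hg⟩ := h2 X α w h hR hp K φ hφ
  rw [QuotientAddGroup.eq]
  refine ⟨-g, fun x => ?_⟩
  have hc0 : ∀ i, c 0 (e i i) x = ecoef α (fun _ : Unit => w) (fun _ => h) φ i i 0 x := by
    intro i
    obtain ⟨F, hF, hF2⟩ := hm i i
    rw [← hF2 0 x, CL5_fin hF, map_sum]
    have h3 : ∑ n ∈ hF.1.toFinset, c 0 (ι (F n) * up u n) = F 0 := by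
      have h4 : ∀ n ∈ hF.1.toFinset, c 0 (ι (F n) * up u n) = if n = 0 then F 0 else 0 := by
        intro n _
        rw [hc.cval]
        by_cases hn : 0 = n
        · subst hn; simp
        · rw [if_neg hn, if_neg (Ne.symm hn)]
      rw [Finset.sum_congr rfl h4, Finset.sum_ite_eq']
      by_cases h5 : (0 : ℤ) ∈ hF.1.toFinset
      · rw [if_pos h5]
      · rw [if_neg h5]
        rw [Set.Finite.mem_toFinset, Function.mem_support, not_not] at h5
        rw [h5]
    rw [h3]
  have h6 := hg x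
  rw [ContinuousMap.add_apply, ContinuousMap.neg_apply, ContinuousMap.sum_apply,
    ContinuousMap.neg_apply, ContinuousMap.neg_apply]
  rw [Finset.sum_congr rfl fun i _ => hc0 i]
  change _ + (h x : ℂ) = _
  linear_combination -h6

theorem HIN_const {X : Type} [TopologicalSpace X] (α : X ≃ₜ X) (hα : IsMinimal α) (r : C(X, ℂ))
    (hr : ∀ x, r (α x) = r x) (x0 x : X) : r x = r x0 := by
  have h1 : ∀ n : ℤ, r ((α ^ n) x0) = r x0 := by
    intro n
    induction n using Int.induction_on with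
    | zero => simp
    | succ k ih =>
      have : (α ^ ((k : ℤ) + 1)) x0 = α ((α ^ (k : ℤ)) x0) := by
        rw [add_comm, zpow_add, zpow_one]; rfl
      rw [this, hr, ih]
    | pred k ih =>
      have : (α ^ (-(k : ℤ))) x0 = α ((α ^ (-(k : ℤ) - 1)) x0) := by
        have e : -(k : ℤ) = 1 + (-(k : ℤ) - 1) := by ring
        conv_lhs => rw [e, zpow_add, zpow_one]
        rfl
      rw [this, hr] at ih
      exact ih
  have hcl : IsClosed {y : X | r y = r x0} := isClosed_eq r.continuous continuous_const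
  have h2 : Set.range (fun n : ℤ => (α ^ n) x0) ⊆ {y : X | r y = r x0} := by
    rintro _ ⟨n, rfl⟩
    exact h1 n
  have h3 := hcl.closure_subset_iff.mpr h2
  rw [(hα x0).closure_eq] at h3
  exact h3 (Set.mem_univ x)

theorem HIN (h1 : CL2_stmt) (h2 : CL5_stmt) : HIN_stmt := by
  intro X _ _ α A _ ι u c hc hα D hD w₁ w₂ g₁ g₂ z₁ z₂ hR₁ hp₁ hR₂ hp₂ hz₁ hz₂ hDD
  rw [h2 X α A ι u c hc D hD w₁ g₁ z₁ hR₁ hp₁ hz₁, h2 X α A ι u c hc D hD w₂ g₂ z₂ hR₂ hp₂ hz₂,
    QuotientAddGroup.eq] at hDD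
  obtain ⟨G, hG⟩ := hDD
  -- real part
  let g : C(X, ℝ) := ⟨fun x => (G x).re, Complex.continuous_re.comp G.continuous⟩
  have hg : ∀ x, g₂ x = g₁ x + g (α x) - g x := by
    intro x
    have h3 := congrArg Complex.re (hG x)
    rw [ContinuousMap.add_apply, ContinuousMap.neg_apply] at h3
    change (-(g₁ x : ℂ) + (g₂ x : ℂ)).re = _ at h3
    rw [Complex.add_re, Complex.neg_re, Complex.ofReal_re, Complex.ofReal_re, Complex.sub_re] at h3
    change g₂ x = g₁ x + (G (α x)).re - (G x).re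
    linarith
  rcases isEmpty_or_nonempty X with hX | ⟨⟨x0⟩⟩
  · exact h1 X α A ι u c hc w₁ w₂ g₁ g₂ 0 z₁ z₂ hR₁ hp₁ hR₂ hp₂ (fun x => (hX.false x).elim)
      (fun x => (hX.false x).elim) hz₁ hz₂
  -- the ratio
  let E : C(X, ℂ) := ⟨fun x => Complex.exp (-(2 * Real.pi * Complex.I * (g x : ℂ))), by
    refine Complex.continuous_exp.comp ?_
    have := Complex.continuous_ofReal.comp g.continuous
    exact (continuous_const.mul this).neg⟩
  let r : C(X, ℂ) := w₂ * star w₁ * E
  have hr : ∀ x, r (α x) = r x := by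
    intro x
    change w₂ (α x) * conj (w₁ (α x)) * Complex.exp (-(2 * Real.pi * Complex.I * (g (α x) : ℂ))) =
      w₂ x * conj (w₁ x) * Complex.exp (-(2 * Real.pi * Complex.I * (g x : ℂ)))
    rw [hR₁.2, hR₂.2, map_mul, ← Complex.exp_conj]
    have e1 : conj (2 * (Real.pi : ℂ) * Complex.I * (g₁ x : ℂ)) = -(2 * (Real.pi : ℂ) * Complex.I * (g₁ x : ℂ)) := by
      simp only [map_mul, Complex.conj_ofReal, Complex.conj_I, map_ofNat]
      ring
    rw [e1]
    have e2 : Complex.exp (2 * Real.pi * Complex.I * (g₂ x : ℂ)) * Complex.exp (-(2 * Real.pi * Complex.I * (g₁ x : ℂ))) *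
        Complex.exp (-(2 * Real.pi * Complex.I * (g (α x) : ℂ))) = Complex.exp (-(2 * Real.pi * Complex.I * (g x : ℂ))) := by
      rw [← Complex.exp_add, ← Complex.exp_add]
      congr 1
      rw [hg x]
      push_cast
      ring
    rw [← e2]
    ring
  have hconst : ∀ x, r x = r x0 := fun x => HIN_const α hα r hr x0 x
  have hnr : ‖r x0‖ = 1 := by
    change ‖w₂ x0 * conj (w₁ x0) * Complex.exp (-(2 * Real.pi * Complex.I * (g x0 : ℂ)))‖ = 1
    rw [norm_mul, norm_mul, hR₂.1, RCLike.norm_conj, hR₁.1, Complex.norm_exp]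
    simp
  let s : ℝ := Complex.arg (r x0) / (2 * Real.pi)
  have hs : Complex.exp (2 * Real.pi * Complex.I * (s : ℂ)) = r x0 := by
    have h3 : (2 * (Real.pi : ℂ) * Complex.I * (s : ℂ)) = (Complex.arg (r x0) : ℂ) * Complex.I := by
      change (2 * (Real.pi : ℂ) * Complex.I * ((Complex.arg (r x0) / (2 * Real.pi) : ℝ) : ℂ)) = _
      push_cast
      have : (Real.pi : ℂ) ≠ 0 := by exact_mod_cast Real.pi_ne_zero
      field_simp
    rw [h3]
    have h4 := Complex.norm_mul_exp_arg_mul_I (r x0)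
    rw [hnr] at h4
    simpa using h4
  have hkey : ∀ x, w₂ x = Complex.exp (2 * Real.pi * Complex.I * ((g x + s : ℝ) : ℂ)) * w₁ x := by
    intro x
    have h3 : r x = Complex.exp (2 * Real.pi * Complex.I * (s : ℂ)) := by rw [hs]; exact hconst x
    change w₂ x * conj (w₁ x) * Complex.exp (-(2 * Real.pi * Complex.I * (g x : ℂ))) = _ at h3
    have h4 : conj (w₁ x) * w₁ x = 1 := by
      rw [mul_comm, Complex.mul_conj, Complex.normSq_eq_norm_sq, hR₁.1]; simp
    have h5 : Complex.exp (-(2 * Real.pi * Complex.I * (g x : ℂ))) * Complex.exp (2 * Real.pi * Complex.I * (g x : ℂ)) = 1 := by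
      rw [← Complex.exp_add, neg_add_cancel, Complex.exp_zero]
    have h6 : Complex.exp (2 * Real.pi * Complex.I * ((g x + s : ℝ) : ℂ)) =
        Complex.exp (2 * Real.pi * Complex.I * (g x : ℂ)) * Complex.exp (2 * Real.pi * Complex.I * (s : ℂ)) := by
      rw [← Complex.exp_add]
      congr 1
      push_cast
      ring
    rw [h6, ← h3]
    calc w₂ x = w₂ x * (conj (w₁ x) * w₁ x) * (Complex.exp (-(2 * Real.pi * Complex.I * (g x : ℂ))) *
          Complex.exp (2 * Real.pi * Complex.I * (g x : ℂ))) := by rw [h4, h5]; ring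
      _ = _ := by ring
  refine h1 X α A ι u c hc w₁ w₂ g₁ g₂ (g + ContinuousMap.const X s) z₁ z₂ hR₁ hp₁ hR₂ hp₂ ?_ ?_ hz₁ hz₂
  · intro x
    rw [hkey x]
    rfl
  · intro x
    rw [hg x]
    change g₁ x + g (α x) - g x = g₁ x + (g (α x) + s) - (g x + s)
    ring

end Pool.Agent.CZ
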