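import Pool.Agent.helper37.CZ.SC

/-! # Rows of cz: MAI -/

set_option autoImplicit false

open scoped Matrix Topology ComplexConjugate
open Filter

namespace Pool.Agent.CZ

section
variable {X : Type} [TopologicalSpace X] [CompactSpace X] {A : Type} [CStarAlgebra A]

theorem MAI_rot_add {α : X ≃ₜ X} {w₁ w₂ : C(X, ℂ)} {g₁ g₂ : C(X, ℝ)} (hR₁ : Rot α w₁ g₁) (hR₂ : Rot α w₂ g₂) :
    Rot α (w₁ * w₂) (g₁ + g₂) := by
  refine ⟨fun x => ?_, fun x => ?_⟩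
  · rw [ContinuousMap.mul_apply, norm_mul, hR₁.1, hR₂.1, one_mul]
  · rw [ContinuousMap.mul_apply, ContinuousMap.mul_apply, hR₁.2, hR₂.2, ContinuousMap.add_apply]
    push_cast
    rw [mul_add, Complex.exp_add]
    ring

theorem MAI_rot_one (α : X ≃ₜ X) : Rot α (1 : C(X, ℂ)) (1 : C(X, ℝ)) := by
  refine ⟨fun x => by simp, fun x => ?_⟩
  have : Complex.exp (2 * Real.pi * Complex.I * ((1 : ℝ) : ℂ)) = 1 := by
    rw [Complex.ofReal_one, mul_one, Complex.exp_two_pi_mul_I]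
  change (1 : ℂ) = Complex.exp (2 * Real.pi * Complex.I * ((1 : ℝ) : ℂ)) * 1
  rw [this, mul_one]

/-- the set of the differences of classes of pairs -/
def MAI_H (α : X ≃ₜ X) (ι : C(X, ℂ) →⋆ₐ[ℂ] A) (u : unitary A) : Set (K0 A) :=
  {g | ∃ (w₁ w₂ : C(X, ℂ)) (g₁ g₂ : C(X, ℝ)) (z₁ z₂ : K0 A), Rot α w₁ g₁ ∧ (∀ x, 0 < g₁ x) ∧ Rot α w₂ g₂ ∧
    (∀ x, 0 < g₂ x) ∧ IsCls α ι u w₁ g₁ z₁ ∧ IsCls α ι u w₂ g₂ z₂ ∧ g = z₁ - z₂}

theorem MAI_pos_add {g₁ g₂ : C(X, ℝ)} (h₁ : ∀ x, 0 < g₁ x) (h₂ : ∀ x, 0 < g₂ x) (x : X) : 0 < (g₁ + g₂) x := by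
  rw [ContinuousMap.add_apply]; exact add_pos (h₁ x) (h₂ x)

end

theorem MAI (h1 : COE_stmt) (h2 : DMP_stmt) (h3 : INT_stmt) (h4 : CL1_stmt) (h5 : CL2_stmt) (h6 : CL3_stmt)
    (h7 : CL4_stmt) (h8 : CL5_stmt) (h9 : HIN_stmt) (h10 : TV2_stmt) : MAI_stmt := by
  intro X _ _ _ _ α A _ ι u hcp hα
  obtain ⟨c, hc⟩ := h1 X α A ι u hcp
  obtain ⟨D, hD⟩ := h2 X α A ι u c hc
  have hone : ∀ x : X, 0 < (1 : C(X, ℝ)) x := fun x => one_pos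
  have hR1 := MAI_rot_one α
  have hc1 : IsCls α ι u 1 1 (unitCls A) := h6 X α A ι u
  -- the subgroup
  have hadd : ∀ {a b : K0 A}, a ∈ MAI_H α ι u → b ∈ MAI_H α ι u → a + b ∈ MAI_H α ι u := by
    rintro a b ⟨w₁, w₂, g₁, g₂, z₁, z₂, r1, p1, r2, p2, c1, c2, rfl⟩ ⟨w₃, w₄, g₃, g₄, z₃, z₄, r3, p3, r4, p4, c3, c4, rfl⟩
    obtain ⟨z₁₃, c13⟩ := h4 X α A ι u c hc (w₁ * w₃) (g₁ + g₃) (MAI_rot_add r1 r3) (MAI_pos_add p1 p3)
    obtain ⟨z₂₄, c24⟩ := h4 X α A ι u c hc (w₂ * w₄) (g₂ + g₄) (MAI_rot_add r2 r4) (MAI_pos_add p2 p4)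
    refine ⟨w₁ * w₃, w₂ * w₄, g₁ + g₃, g₂ + g₄, z₁₃, z₂₄, MAI_rot_add r1 r3, MAI_pos_add p1 p3, MAI_rot_add r2 r4,
      MAI_pos_add p2 p4, c13, c24, ?_⟩
    rw [h7 X α A ι u c hc w₁ w₃ g₁ g₃ z₁ z₃ z₁₃ r1 p1 r3 p3 c1 c3 c13,
      h7 X α A ι u c hc w₂ w₄ g₂ g₄ z₂ z₄ z₂₄ r2 p2 r4 p4 c2 c4 c24]
    abel
  have hneg : ∀ {a : K0 A}, a ∈ MAI_H α ι u → -a ∈ MAI_H α ι u := by
    rintro a ⟨w₁, w₂, g₁, g₂, z₁, z₂, r1, p1, r2, p2, c1, c2, rfl⟩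
    exact ⟨w₂, w₁, g₂, g₁, z₂, z₁, r2, p2, r1, p1, c2, c1, (neg_sub _ _)⟩
  have hzero : (0 : K0 A) ∈ MAI_H α ι u :=
    ⟨1, 1, 1, 1, unitCls A, unitCls A, hR1, hone, hR1, hone, hc1, hc1, (sub_self _).symm⟩
  let H : AddSubgroup (K0 A) :=
    { carrier := MAI_H α ι u
      add_mem' := hadd
      zero_mem' := hzero
      neg_mem' := hneg }
  have hunit : unitCls A ∈ H := by
    obtain ⟨z, hz⟩ := h4 X α A ι u c hc (1 * 1) (1 + 1) (MAI_rot_add hR1 hR1) (MAI_pos_add hone hone)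
    refine ⟨1 * 1, 1, 1 + 1, 1, z, unitCls A, MAI_rot_add hR1 hR1, MAI_pos_add hone hone, hR1, hone, hz, hc1, ?_⟩
    rw [h7 X α A ι u c hc 1 1 1 1 _ _ z hR1 hone hR1 hone hc1 hc1 hz]
    abel
  have hclsH : ∀ (w : C(X, ℂ)) (g : C(X, ℝ)) (z : K0 A), Rot α w g → (∀ x, 0 < g x) → IsCls α ι u w g z → z ∈ H := by
    intro w g z hr hp hz
    obtain ⟨z', hz'⟩ := h4 X α A ι u c hc (w * 1) (g + 1) (MAI_rot_add hr hR1) (MAI_pos_add hp hone)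
    refine ⟨w * 1, 1, g + 1, 1, z', unitCls A, MAI_rot_add hr hR1, MAI_pos_add hp hone, hR1, hone, hz', hc1, ?_⟩
    rw [h7 X α A ι u c hc w 1 g 1 z (unitCls A) z' hr hp hR1 hone hz hc1 hz']
    abel
  have hinj : ∀ g ∈ H, D g = 0 → g = 0 := by
    rintro g ⟨w₁, w₂, g₁, g₂, z₁, z₂, r1, p1, r2, p2, c1, c2, rfl⟩ h0
    rw [map_sub, sub_eq_zero] at h0
    rw [sub_eq_zero]
    exact h9 X α A ι u c hc hα D hD w₁ w₂ g₁ g₂ z₁ z₂ r1 p1 r2 p2 c1 c2 h0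
  have hDtf : ∀ (n : ℕ) (q : C(X, ℂ) ⧸ Bd α), n ≠ 0 → n • q = 0 → q = 0 := by
    intro n q hn h0
    obtain ⟨f, rfl⟩ := QuotientAddGroup.mk_surjective q
    rw [← QuotientAddGroup.mk_nsmul, QuotientAddGroup.eq_zero_iff] at h0
    obtain ⟨g, hg⟩ := h0
    rw [QuotientAddGroup.eq_zero_iff]
    refine ⟨(n : ℂ)⁻¹ • g, fun x => ?_⟩
    have h11 := hg x
    have hn' : (n : ℂ) ≠ 0 := by exact_mod_cast hn
    rw [ContinuousMap.nsmul_apply, nsmul_eq_mul] at h11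
    rw [ContinuousMap.smul_apply, ContinuousMap.smul_apply, smul_eq_mul, smul_eq_mul, ← mul_sub, ← h11]
    field_simp
  refine ⟨H, D.ker, ⟨?_, ?_⟩, hunit, ?_, ?_⟩
  · rw [disjoint_iff, eq_bot_iff]
    rintro g ⟨hg1, hg2⟩
    exact AddSubgroup.mem_bot.mpr (hinj g hg1 hg2)
  · rw [codisjoint_iff, eq_top_iff]
    intro g _
    obtain ⟨w, h, hr, hDg⟩ := h3 X α A ι u c hc hα D hD g
    -- a natural number `N` with `h + N > 0`
    obtain ⟨N, hN⟩ : ∃ N : ℕ, ∀ x, 0 < h x + N := by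
      obtain ⟨M, hM⟩ := exists_nat_gt ‖h‖
      refine ⟨M, fun x => ?_⟩
      have := (abs_le.mp (h.norm_coe_le_norm x)).1
      linarith
    have hrN : ∀ n : ℕ, Rot α w (h + (n : C(X, ℝ))) := by
      intro n
      refine ⟨hr.1, fun x => ?_⟩
      rw [hr.2]
      congr 1
      have : ((h + (n : C(X, ℝ))) x : ℂ) = (h x : ℂ) + n := by
        rw [ContinuousMap.add_apply, ContinuousMap.natCast_apply]; push_cast; rfl
      rw [this, mul_add, Complex.exp_add]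
      have h12 : Complex.exp (2 * Real.pi * Complex.I * n) = 1 := by
        rw [Complex.exp_eq_one_iff]
        exact ⟨n, by push_cast; ring⟩
      rw [h12, mul_one]
    have hpN : ∀ x, 0 < (h + (N : C(X, ℝ))) x := by
      intro x
      rw [ContinuousMap.add_apply, ContinuousMap.natCast_apply]
      exact hN x
    obtain ⟨z, hz⟩ := h4 X α A ι u c hc w (h + (N : C(X, ℝ))) (hrN N) hpN
    have hDz := h8 X α A ι u c hc D hD w _ z (hrN N) hpN hz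
    have hDu := h8 X α A ι u c hc D hD 1 1 (unitCls A) hR1 hone hc1
    have hx : z - N • unitCls A ∈ H := H.sub_mem (hclsH w _ z (hrN N) hpN hz) (H.nsmul_mem hunit N)
    have hDx : D (z - N • unitCls A) = D g := by
      rw [map_sub, map_nsmul, hDz, hDu, hDg, ← QuotientAddGroup.mk_nsmul, ← QuotientAddGroup.mk_sub]
      congr 1
      ext x
      rw [ContinuousMap.sub_apply, ContinuousMap.nsmul_apply, nsmul_eq_mul]
      change (((h + (N : C(X, ℝ))) x : ℝ) : ℂ) - (N : ℂ) * (((1 : C(X, ℝ)) x : ℝ) : ℂ) = ((h x : ℝ) : ℂ)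
      rw [ContinuousMap.add_apply, ContinuousMap.natCast_apply, ContinuousMap.one_apply]
      push_cast
      ring
    refine AddSubgroup.mem_sup.mpr ⟨z - N • unitCls A, hx, g - (z - N • unitCls A), ?_, by abel⟩
    rw [AddMonoidHom.mem_ker, map_sub, hDx, sub_self]
  · intro n g hn hg h0
    apply hinj g hg
    apply hDtf n _ hn
    rw [← map_nsmul, h0, map_zero]
  · intro t s hs
    exact h10 X α A ι u c hc hα D hD t s hs

end Pool.Agent.CZ
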