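import Pool.Agent.helper37.CZ.SA

/-! # Rows of cz: CL3, KDL, PE1 -/

set_option autoImplicit false

open scoped Matrix Topology ComplexConjugate
open Filter

namespace Pool.Agent.CZ

theorem SE_lam_zero : lam 0 = 1 := by
  unfold lam; simp

theorem SE_lam_int (k : ℤ) (hk : k ≠ 0) : lam (k : ℝ) = 0 := by
  unfold lam
  have h1 : (1 : ℝ) ≤ |(k : ℝ)| := by
    have := Int.one_le_abs hk
    exact_mod_cast this
  rw [max_eq_left (by linarith)]
  simp

theorem SE_lam_ite (k : ℤ) : lam (k : ℝ) = if k = 0 then 1 else 0 := by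
  by_cases h : k = 0
  · subst h; simp [SE_lam_zero]
  · rw [if_neg h, SE_lam_int k h]

theorem SE_lam_conj (t : ℝ) : conj (lam t) = lam t := by
  unfold lam; exact Complex.conj_ofReal _

theorem SE_lam_cont : Continuous lam := by
  unfold lam
  fun_prop

theorem SE_csum_one {X : Type} [TopologicalSpace X] (α : X ≃ₜ X) (n : ℤ) (x : X) : csum α (1 : C(X, ℝ)) n x = n := by
  have h1 := (CSM X α (1 : C(X, ℝ))).2.2.2.2.1 1 (fun x => le_refl _) n x
  have h2 := (CSM X α (1 : C(X, ℝ))).2.2.2.2.2 1 (fun x => le_refl _) n x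
  rw [mul_one] at h1 h2
  rcases le_total 0 n with h | h
  · exact le_antisymm (h2.1 h) (h1.1 h)
  · exact le_antisymm (h1.2 h) (h2.2 h)

theorem SE_lift_one : IsLift 1 0 := by
  unfold IsLift; simp

theorem CL3 (h1 : CSM_stmt) (h2 : FSB_stmt) : CL3_stmt := by
  intro X _ _ α A _ ι u
  have hfs : ∀ G : ℝ → ℂ, fsum 1 G = ∑' k : ℤ, G k := by
    intro G
    rw [((h2 1 (by simp)).2 0 SE_lift_one).2 G]
    simp
  have hl : ∀ τ : ℝ, IsLift 1 τ → ∃ k : ℤ, τ = k := by
    intro τ hτ
    obtain ⟨k, hk⟩ := (((h2 1 (by simp)).2 0 SE_lift_one).1 τ).mp hτ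
    exact ⟨k, by rw [hk, zero_add]⟩
  refine ⟨1, fun _ _ _ τ => lam τ, 1, one_mul 1, ⟨?_, ?_, ?_, ?_⟩, ?_, rfl⟩
  · intro i q
    exact SE_lam_cont.comp continuous_snd
  · refine ⟨1, fun i q x τ hτ => ?_⟩
    unfold lam
    rw [max_eq_left (by linarith)]
    simp
  · intro q x τ hτ
    obtain ⟨k, rfl⟩ := hl τ hτ
    rw [Fin.sum_univ_one]
    rw [tsum_eq_single (-k)]
    · rw [SE_csum_one]
      push_cast
      rw [add_neg_cancel, SE_lam_zero, one_pow]
    · intro n hn
      rw [SE_csum_one]
      have : (k : ℝ) + n = ((k + n : ℤ) : ℝ) := by push_cast; ring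
      rw [this, SE_lam_int _ (fun h => hn (by omega))]
      norm_num
  · intro q q' x τ τ' hτ hτ' hne
    obtain ⟨k, rfl⟩ := hl τ hτ
    obtain ⟨k', rfl⟩ := hl τ' hτ'
    rw [Fin.sum_univ_one]
    have hkk : k ≠ k' := by
      rcases hne with h | h
      · exact absurd (Subsingleton.elim q q') h
      · intro h'; exact h (by rw [h'])
    have : ∀ n : ℤ, lam ((k : ℝ) + csum α (1 : C(X, ℝ)) n x) * lam ((k' : ℝ) + csum α (1 : C(X, ℝ)) n x) = 0 := by
      intro n
      rw [SE_csum_one]
      have e1 : (k : ℝ) + n = ((k + n : ℤ) : ℝ) := by push_cast; ring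
      have e2 : (k' : ℝ) + n = ((k' + n : ℤ) : ℝ) := by push_cast; ring
      rw [e1, e2]
      by_cases h : k + n = 0
      · rw [SE_lam_int (k' + n) (fun h' => hkk (by omega)), mul_zero]
      · rw [SE_lam_int _ h, zero_mul]
    simp only [this]
    exact tsum_zero
  · intro i j
    refine ⟨fun n => if n = 0 then 1 else 0, ⟨?_, ?_⟩, ?_⟩
    · refine (Set.finite_singleton (0 : ℤ)).subset ?_
      intro n hn
      rw [Function.mem_support] at hn
      by_contra h
      apply hn
      exact if_neg h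
    · rw [Subsingleton.elim i j, Matrix.one_apply_eq, finsum_eq_single _ (0 : ℤ)]
      · beta_reduce
        rw [if_pos rfl, map_one, one_mul]
        unfold up
        rw [zpow_zero]
        rfl
      · intro n hn
        beta_reduce
        rw [if_neg hn, map_zero, zero_mul]
    · intro n x
      unfold ecoef
      rw [Fintype.sum_unique]
      change _ = fsum 1 _
      rw [hfs]
      have : ∀ k : ℤ, lam (k : ℝ) * lam ((k : ℝ) + csum α (1 : C(X, ℝ)) (-n) x) =
          if k = 0 then (if n = 0 then 1 else 0) else 0 := by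
        intro k
        rw [SE_csum_one]
        have e1 : (k : ℝ) + ((-n : ℤ) : ℝ) = ((k - n : ℤ) : ℝ) := by push_cast; ring
        rw [e1, SE_lam_ite, SE_lam_ite]
        by_cases hk : k = 0
        · subst hk
          rw [if_pos rfl, if_pos rfl, one_mul]
          by_cases hn : n = 0
          · subst hn; simp
          · rw [if_neg hn, if_neg (by omega)]
        · rw [if_neg hk, if_neg hk, zero_mul]
      rw [tsum_congr this, tsum_ite_eq]
      by_cases hn : n = 0
      · beta_reduce
        rw [if_pos hn, if_pos hn]; rfl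
      · beta_reduce
        rw [if_neg hn, if_neg hn]; rfl

theorem SE_lift_norm {z : ℂ} {τ : ℝ} (h : IsLift z τ) : ‖z‖ = 1 := by
  unfold IsLift at h
  rw [← h]
  have : (2 * (Real.pi : ℂ) * Complex.I * (τ : ℂ)) = ((2 * Real.pi * τ : ℝ) : ℂ) * Complex.I := by push_cast; ring
  rw [this, Complex.norm_exp_ofReal_mul_I]

/-- the sum over the lifts of a function supported at one lift -/
theorem SE_fsum_single (h2 : FSB_stmt) {z : ℂ} {τ₀ : ℝ} (h : IsLift z τ₀) (G : ℝ → ℂ)
    (hG : ∀ k : ℤ, k ≠ 0 → G (τ₀ + k) = 0) : fsum z G = G τ₀ := by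
  rw [((h2 z (SE_lift_norm h)).2 τ₀ h).2 G, tsum_eq_single 0]
  · simp
  · intro k hk
    exact hG k hk

theorem SE_fsum_zero (h2 : FSB_stmt) {z : ℂ} {τ₀ : ℝ} (h : IsLift z τ₀) (G : ℝ → ℂ)
    (hG : ∀ k : ℤ, G (τ₀ + k) = 0) : fsum z G = 0 := by
  rw [((h2 z (SE_lift_norm h)).2 τ₀ h).2 G]
  simp only [hG]
  exact tsum_zero

theorem KDL (h1 : FSB_stmt) : KDL_stmt := by
  intro X _ α Q _ _ w h hL
  have hlift : ∀ q x, IsLift (w q x) (Complex.arg (w q x) / (2 * Real.pi)) := fun q x => (h1 _ ((hL q).1.1 x)).1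
  have hv : ∀ (K : ℕ) (φ : Fin K → Q → X → ℝ → ℂ) (i j : Fin K) (n : ℤ) (x : X) (U : Q → Q → X → ℝ → ℝ → ℂ),
      (∀ q q' x τ τ', U q q' x τ τ' = if q = q' then lam (τ - τ') else 0) →
      vcoef α w w h φ U φ i j n x = ecoef α w h φ i j n x := by
    intro K φ i j n x U hU
    unfold vcoef ecoef
    refine Finset.sum_congr rfl fun q _ => ?_
    rw [Finset.sum_eq_single q]
    · have hz := hlift q x
      rw [((h1 _ (SE_lift_norm hz)).2 _ hz).2, ((h1 _ (SE_lift_norm hz)).2 _ hz).2]
      refine tsum_congr fun k => ?_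
      have hk : IsLift (w q x) (Complex.arg (w q x) / (2 * Real.pi) + k) :=
        (((h1 _ (SE_lift_norm hz)).2 _ hz).1 _).mpr ⟨k, rfl⟩
      rw [SE_fsum_single h1 hk]
      · rw [hU, if_pos rfl, sub_self, SE_lam_zero, mul_one]
      · intro m hm
        rw [hU, if_pos rfl]
        have e : Complex.arg (w q x) / (2 * Real.pi) + (k : ℝ) - (Complex.arg (w q x) / (2 * Real.pi) + k + m) = ((-m : ℤ) : ℝ) := by
          push_cast; ring
        rw [e, SE_lam_int _ (by omega), mul_zero, zero_mul]
    · intro q' _ hq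
      have hz := hlift q x
      have hz' := hlift q' x
      refine SE_fsum_zero h1 hz _ fun k => ?_
      refine SE_fsum_zero h1 hz' _ fun k' => ?_
      rw [hU, if_neg (Ne.symm hq), mul_zero, zero_mul]
    · intro h; exact absurd (Finset.mem_univ q) h
  have hone : ∀ (q : Q) (x : X) (τ : ℝ), IsLift (w q x) τ →
      fsum (w q x) (fun τ' => lam (τ - τ') * conj (lam (τ - τ'))) = 1 := by
    intro q x τ hτ
    rw [SE_fsum_single h1 hτ]
    · rw [sub_self, SE_lam_zero, map_one, one_mul]
    · intro k hk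
      have e : τ - (τ + (k : ℝ)) = ((-k : ℤ) : ℝ) := by push_cast; ring
      rw [e, SE_lam_int _ (by omega), zero_mul]
  refine ⟨⟨?_, ?_, ?_, ?_, ?_, ?_, ?_⟩, ?_⟩
  · intro q q'
    unfold delK
    by_cases hq : q = q'
    · simp only [hq, if_true]
      exact SE_lam_cont.comp (continuous_snd.fst.sub continuous_snd.snd)
    · simp only [hq, if_false]
      exact continuous_const
  · intro q q' x τ τ' _ _
    unfold delK
    by_cases hq : q = q'
    · subst hq
      rw [if_pos rfl, if_pos rfl]
      congr 1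
      ring
    · rw [if_neg hq, if_neg hq]
  · intro R
    refine ⟨R + 1, fun q q' x τ τ' => ⟨fun h3 h4 => ?_, fun h3 h4 => ?_⟩⟩
    · unfold delK
      by_cases hq : q = q'
      · rw [if_pos hq]
        unfold lam
        have : 1 ≤ |τ - τ'| := by
          have := abs_sub_abs_le_abs_sub τ' τ
          rw [abs_sub_comm] at this
          linarith
        rw [max_eq_left (by linarith)]
        simp
      · rw [if_neg hq]
    · unfold delK
      by_cases hq : q = q'
      · rw [if_pos hq]
        unfold lam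
        have : 1 ≤ |τ - τ'| := by
          have := abs_sub_abs_le_abs_sub τ τ'
          linarith
        rw [max_eq_left (by linarith)]
        simp
      · rw [if_neg hq]
  · intro q x τ hτ
    rw [Finset.sum_eq_single q]
    · rw [← hone q x τ hτ]
      unfold delK
      simp only [if_true]
    · intro q' _ hq
      refine SE_fsum_zero h1 (hlift q' x) _ fun k => ?_
      unfold delK
      rw [if_neg (Ne.symm hq), zero_mul]
    · intro h; exact absurd (Finset.mem_univ q) h
  · intro q q₁ x τ τ₁ hτ hτ₁ hne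
    refine Finset.sum_eq_zero fun q' _ => ?_
    by_cases hq : q = q'
    · subst hq
      by_cases hq1 : q₁ = q
      · subst hq1
        have hne' : τ ≠ τ₁ := hne.resolve_left (fun h => h rfl)
        obtain ⟨m, hm⟩ := (((h1 _ (SE_lift_norm hτ)).2 _ hτ).1 _).mp hτ₁
        have hm0 : m ≠ 0 := by rintro rfl; apply hne'; rw [hm]; simp
        refine SE_fsum_zero h1 hτ _ fun k => ?_
        unfold delK
        rw [if_pos rfl, if_pos rfl, hm]
        have e1 : τ - (τ + (k : ℝ)) = ((-k : ℤ) : ℝ) := by push_cast; ring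
        have e2 : τ + (m : ℝ) - (τ + (k : ℝ)) = ((m - k : ℤ) : ℝ) := by push_cast; ring
        rw [e1, e2]
        by_cases hk : k = 0
        · subst hk
          rw [SE_lam_int (m - 0) (by omega), map_zero, mul_zero]
        · rw [SE_lam_int (-k) (by omega), zero_mul]
      · refine SE_fsum_zero h1 hτ _ fun k => ?_
        unfold delK
        rw [if_neg hq1, map_zero, mul_zero]
    · refine SE_fsum_zero h1 (hlift q' x) _ fun k => ?_
      unfold delK
      rw [if_neg hq, zero_mul]
  · intro q' x τ' hτ'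
    rw [Finset.sum_eq_single q']
    · rw [← hone q' x τ' hτ']
      congr 1
      funext τ
      unfold delK
      rw [if_pos rfl]
      unfold lam
      rw [abs_sub_comm]
    · intro q _ hq
      refine SE_fsum_zero h1 (hlift q x) _ fun k => ?_
      unfold delK
      rw [if_neg hq, zero_mul]
    · intro h; exact absurd (Finset.mem_univ q') h
  · intro q' q₁' x τ' τ₁' hτ hτ₁ hne
    refine Finset.sum_eq_zero fun q _ => ?_
    by_cases hq : q = q'
    · subst hq
      by_cases hq1 : q = q₁'
      · subst hq1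
        have hne' : τ' ≠ τ₁' := hne.resolve_left (fun h => h rfl)
        obtain ⟨m, hm⟩ := (((h1 _ (SE_lift_norm hτ)).2 _ hτ).1 _).mp hτ₁
        have hm0 : m ≠ 0 := by rintro rfl; apply hne'; rw [hm]; simp
        refine SE_fsum_zero h1 hτ _ fun k => ?_
        unfold delK
        rw [if_pos rfl, if_pos rfl, hm]
        have e1 : τ' + (k : ℝ) - τ' = ((k : ℤ) : ℝ) := by push_cast; ring
        have e2 : τ' + (k : ℝ) - (τ' + (m : ℝ)) = ((k - m : ℤ) : ℝ) := by push_cast; ring
        rw [e1, e2]
        by_cases hk : k = 0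
        · subst hk
          rw [SE_lam_int (0 - m) (by omega), map_zero, mul_zero]
        · rw [SE_lam_int k hk, zero_mul]
      · refine SE_fsum_zero h1 hτ _ fun k => ?_
        unfold delK
        rw [if_neg hq1, map_zero, mul_zero]
    · refine SE_fsum_zero h1 (hlift q x) _ fun k => ?_
      unfold delK
      rw [if_neg hq, zero_mul]
  · intro K φ hφ i j n x
    refine ⟨hv K φ i j n x _ (fun q q' x τ τ' => rfl), hv K φ i j n x _ (fun q q' x τ τ' => ?_)⟩
    unfold adjK delK
    by_cases hq : q = q'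
    · subst hq
      rw [if_pos rfl, if_pos rfl, SE_lam_conj]
      unfold lam
      rw [abs_sub_comm]
    · rw [if_neg hq, if_neg (Ne.symm hq), map_zero]

end Pool.Agent.CZ
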