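import Pool.Agent.helper37.CZ.SE

/-! # Rows of cz: PE1 -/

set_option autoImplicit false

open scoped Matrix Topology ComplexConjugate
open Filter

namespace Pool.Agent.CZ

theorem PE1 (h1 : FSB_stmt) : PE1_stmt := by
  rintro Y _ w hw hn G hG ⟨R, hR⟩
  rw [continuous_iff_continuousAt]
  intro y₀
  -- a continuous lift near `y₀`
  obtain ⟨τ₀, hτ₀⟩ : ∃ τ₀, IsLift (w y₀) τ₀ := ⟨_, (h1 _ (hn y₀)).1⟩
  have hw0 : w y₀ ≠ 0 := by intro h; have := hn y₀; rw [h, norm_zero] at this; norm_num at this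
  let r : Y → ℂ := fun y => w y / w y₀
  have hr : Continuous r := hw.div_const _
  have hr0 : r y₀ = 1 := div_self hw0
  have hrn : ∀ y, ‖r y‖ = 1 := fun y => by
    change ‖w y / w y₀‖ = 1
    rw [norm_div, hn, hn, div_one]
  let τ : Y → ℝ := fun y => τ₀ + Complex.arg (r y) / (2 * Real.pi)
  have hτlift : ∀ y, IsLift (w y) (τ y) := by
    intro y
    have h2 := (h1 _ (hrn y)).1
    unfold IsLift at h2 hτ₀ ⊢
    change Complex.exp (2 * Real.pi * Complex.I * ((τ₀ + Complex.arg (r y) / (2 * Real.pi) : ℝ) : ℂ)) = w y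
    rw [Complex.ofReal_add, mul_add, Complex.exp_add, hτ₀, h2]
    change w y₀ * (w y / w y₀) = w y
    field_simp
  have hτc : ContinuousAt τ y₀ := by
    have h3 : ContinuousAt Complex.arg (r y₀) := by
      rw [hr0]
      exact Complex.continuousAt_arg Complex.one_mem_slitPlane
    exact continuousAt_const.add ((h3.comp hr.continuousAt).div_const _)
  have hτb : ∀ᶠ y in 𝓝 y₀, |τ y| < |τ y₀| + 1 := by
    have := (hτc.abs).eventually (Iio_mem_nhds (show |τ y₀| < |τ y₀| + 1 by linarith))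
    exact this
  obtain ⟨M, hM⟩ := exists_nat_gt (R + |τ y₀| + 1)
  -- the sum is finite near `y₀`
  have hsum : ∀ᶠ y in 𝓝 y₀, fsum (w y) (G y) = ∑ k ∈ Finset.Icc (-(M : ℤ)) M, G y (τ y + k) := by
    filter_upwards [hτb] with y hy
    rw [((h1 _ (hn y)).2 _ (hτlift y)).2]
    rw [tsum_eq_sum]
    intro k hk
    apply hR
    have hk' : (M : ℝ) < |(k : ℝ)| := by
      rw [Finset.mem_Icc, not_and_or, not_le, not_le] at hk
      have : (M : ℤ) < |k| := by
        rcases hk with h | h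
        · exact lt_abs.mpr (Or.inr (by omega))
        · exact lt_abs.mpr (Or.inl h)
      have h4 : ((M : ℤ) : ℝ) < ((|k| : ℤ) : ℝ) := by exact_mod_cast this
      rw [Int.cast_abs] at h4
      exact_mod_cast h4
    have h5 : |(k : ℝ)| - |τ y| ≤ |τ y + k| := by
      have := abs_sub_abs_le_abs_sub (k : ℝ) (-τ y)
      rw [abs_neg, sub_neg_eq_add, add_comm (k : ℝ)] at this
      exact this
    linarith
  have hcont : ContinuousAt (fun y => ∑ k ∈ Finset.Icc (-(M : ℤ)) M, G y (τ y + k)) y₀ := by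
    refine tendsto_finset_sum _ fun k _ => ?_
    have h6 : ContinuousAt (fun y => ((y, τ y + (k : ℝ)) : Y × ℝ)) y₀ :=
      continuousAt_id.prodMk (hτc.add continuousAt_const)
    have h7 : ContinuousAt (fun p : Y × ℝ => G p.1 p.2) (y₀, τ y₀ + (k : ℝ)) := hG.continuousAt
    exact (ContinuousAt.comp (f := fun y => ((y, τ y + (k : ℝ)) : Y × ℝ)) (g := fun p : Y × ℝ => G p.1 p.2) h7 h6)
  exact hcont.congr (hsum.mono fun y hy => hy.symm)

end Pool.Agent.CZ
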