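import Pool.Agent.helper37.CZ.SpecD

/-! # Rows of cz: FM2 -/

set_option autoImplicit false

open scoped Matrix Topology ComplexConjugate
open Filter

namespace Pool.Agent.CZ

/-- the combined family -/
noncomputable def FM2_fam {X : Type} {K₁ K₂ : ℕ} (φ₁ : Fin K₁ → Unit → X → ℝ → ℂ) (φ₂ : Fin K₂ → Unit → X → ℝ → ℂ) :
    Fin (K₁ + K₂) → Bool → X → ℝ → ℂ :=
  fun i b x τ => Fin.addCases (motive := fun _ => ℂ) (fun i₁ => bif b then φ₁ i₁ () x τ else 0)
    (fun i₂ => bif b then 0 else φ₂ i₂ () x τ) i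

section
variable {X : Type} {K₁ K₂ : ℕ} (φ₁ : Fin K₁ → Unit → X → ℝ → ℂ) (φ₂ : Fin K₂ → Unit → X → ℝ → ℂ)

theorem FM2_lt (i : Fin K₁) (x : X) (τ : ℝ) : FM2_fam φ₁ φ₂ (Fin.castAdd K₂ i) true x τ = φ₁ i () x τ := by
  unfold FM2_fam; rw [Fin.addCases_left]; rfl

theorem FM2_lf (i : Fin K₁) (x : X) (τ : ℝ) : FM2_fam φ₁ φ₂ (Fin.castAdd K₂ i) false x τ = 0 := by
  unfold FM2_fam; rw [Fin.addCases_left]; rfl

theorem FM2_rt (i : Fin K₂) (x : X) (τ : ℝ) : FM2_fam φ₁ φ₂ (Fin.natAdd K₁ i) true x τ = 0 := by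
  unfold FM2_fam; rw [Fin.addCases_right]; rfl

theorem FM2_rf (i : Fin K₂) (x : X) (τ : ℝ) : FM2_fam φ₁ φ₂ (Fin.natAdd K₁ i) false x τ = φ₂ i () x τ := by
  unfold FM2_fam; rw [Fin.addCases_right]; rfl

end

theorem FM2_cls {A : Type} [Ring A] {K₁ K₂ : ℕ} (e₁ : Matrix (Fin K₁) (Fin K₁) A) (e₂ : Matrix (Fin K₂) (Fin K₂) A)
    (he₁ : e₁ * e₁ = e₁) (he₂ : e₂ * e₂ = e₂) :
    ∃ he : ((Matrix.fromBlocks e₁ 0 0 e₂).submatrix (finSumFinEquiv.symm : Fin (K₁ + K₂) ≃ _)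
        (finSumFinEquiv.symm : Fin (K₁ + K₂) ≃ _)) * ((Matrix.fromBlocks e₁ 0 0 e₂).submatrix
        (finSumFinEquiv.symm : Fin (K₁ + K₂) ≃ _) (finSumFinEquiv.symm : Fin (K₁ + K₂) ≃ _)) =
        (Matrix.fromBlocks e₁ 0 0 e₂).submatrix (finSumFinEquiv.symm : Fin (K₁ + K₂) ≃ _)
        (finSumFinEquiv.symm : Fin (K₁ + K₂) ≃ _),
      cls ⟨K₁ + K₂, _, he⟩ = cls ⟨K₁, e₁, he₁⟩ + cls ⟨K₂, e₂, he₂⟩ := by
  let σ : Fin (K₁ + K₂) ≃ Fin K₁ ⊕ Fin K₂ := finSumFinEquiv.symm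
  let P : Matrix (Fin (K₁ + K₂)) (Fin (K₁ + K₂)) A := (Matrix.fromBlocks e₁ 0 0 0).submatrix σ σ
  let Q : Matrix (Fin (K₁ + K₂)) (Fin (K₁ + K₂)) A := (Matrix.fromBlocks 0 0 0 e₂).submatrix σ σ
  have hPQ : (Matrix.fromBlocks e₁ 0 0 e₂).submatrix σ σ = P + Q := by
    change _ = (Matrix.fromBlocks e₁ 0 0 0).submatrix σ σ + (Matrix.fromBlocks 0 0 0 e₂).submatrix σ σ
    have h9 : Matrix.fromBlocks e₁ 0 0 e₂ = Matrix.fromBlocks e₁ 0 0 0 + Matrix.fromBlocks 0 0 0 e₂ := by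
      rw [Matrix.fromBlocks_add]
      simp
    rw [h9]
    rfl
  have hP : P * P = P := by
    change (Matrix.fromBlocks e₁ 0 0 0).submatrix σ σ * (Matrix.fromBlocks e₁ 0 0 0).submatrix σ σ = _
    rw [Matrix.submatrix_mul_equiv, Matrix.fromBlocks_multiply]
    simp only [he₁, Matrix.mul_zero, Matrix.zero_mul, add_zero]
    rfl
  have hQ : Q * Q = Q := by
    change (Matrix.fromBlocks 0 0 0 e₂).submatrix σ σ * (Matrix.fromBlocks 0 0 0 e₂).submatrix σ σ = _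
    rw [Matrix.submatrix_mul_equiv, Matrix.fromBlocks_multiply]
    simp only [he₂, Matrix.mul_zero, Matrix.zero_mul, zero_add]
    rfl
  have hPQ0 : P * Q = 0 := by
    change (Matrix.fromBlocks e₁ 0 0 0).submatrix σ σ * (Matrix.fromBlocks 0 0 0 e₂).submatrix σ σ = _
    rw [Matrix.submatrix_mul_equiv, Matrix.fromBlocks_multiply]
    simp only [Matrix.mul_zero, Matrix.zero_mul, add_zero]
    rw [Matrix.fromBlocks_zero]
    rfl
  have hQP0 : Q * P = 0 := by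
    change (Matrix.fromBlocks 0 0 0 e₂).submatrix σ σ * (Matrix.fromBlocks e₁ 0 0 0).submatrix σ σ = _
    rw [Matrix.submatrix_mul_equiv, Matrix.fromBlocks_multiply]
    simp only [Matrix.mul_zero, Matrix.zero_mul, add_zero]
    rw [Matrix.fromBlocks_zero]
    rfl
  have hs : (P + Q) * (P + Q) = P + Q := by
    rw [add_mul, mul_add, mul_add, hP, hQ, hPQ0, hQP0, add_zero, zero_add]
  have hcP : cls (⟨K₁ + K₂, P, hP⟩ : IdemMat A) = cls ⟨K₁, e₁, he₁⟩ := by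
    refine cls_eq (p := ⟨K₁ + K₂, P, hP⟩) (q := ⟨K₁, e₁, he₁⟩) ((Matrix.fromRows e₁ 0).submatrix σ (Equiv.refl _))
      ((Matrix.fromCols e₁ 0).submatrix (Equiv.refl _) σ) ?_ ?_
    · change (Matrix.fromRows e₁ (0 : Matrix (Fin K₂) (Fin K₁) A)).submatrix σ (Equiv.refl _) *
        (Matrix.fromCols e₁ (0 : Matrix (Fin K₁) (Fin K₂) A)).submatrix (Equiv.refl _) σ = P
      rw [Matrix.submatrix_mul_equiv, Matrix.fromRows_mul_fromCols]
      simp only [he₁, Matrix.mul_zero, Matrix.zero_mul]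
      rfl
    · change (Matrix.fromCols e₁ (0 : Matrix (Fin K₁) (Fin K₂) A)).submatrix (Equiv.refl _) σ *
        (Matrix.fromRows e₁ (0 : Matrix (Fin K₂) (Fin K₁) A)).submatrix σ (Equiv.refl _) = e₁
      rw [Matrix.submatrix_mul_equiv, Matrix.fromCols_mul_fromRows]
      simp only [he₁, Matrix.mul_zero, add_zero]
      rfl
  have hcQ : cls (⟨K₁ + K₂, Q, hQ⟩ : IdemMat A) = cls ⟨K₂, e₂, he₂⟩ := by
    refine cls_eq (p := ⟨K₁ + K₂, Q, hQ⟩) (q := ⟨K₂, e₂, he₂⟩) ((Matrix.fromRows 0 e₂).submatrix σ (Equiv.refl _))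
      ((Matrix.fromCols 0 e₂).submatrix (Equiv.refl _) σ) ?_ ?_
    · change (Matrix.fromRows (0 : Matrix (Fin K₁) (Fin K₂) A) e₂).submatrix σ (Equiv.refl _) *
        (Matrix.fromCols (0 : Matrix (Fin K₂) (Fin K₁) A) e₂).submatrix (Equiv.refl _) σ = Q
      rw [Matrix.submatrix_mul_equiv, Matrix.fromRows_mul_fromCols]
      simp only [he₂, Matrix.mul_zero, Matrix.zero_mul]
      rfl
    · change (Matrix.fromCols (0 : Matrix (Fin K₂) (Fin K₁) A) e₂).submatrix (Equiv.refl _) σ *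
        (Matrix.fromRows (0 : Matrix (Fin K₁) (Fin K₂) A) e₂).submatrix σ (Equiv.refl _) = e₂
      rw [Matrix.submatrix_mul_equiv, Matrix.fromCols_mul_fromRows]
      simp only [he₂, Matrix.mul_zero, zero_add]
      rfl
  have key := cls_add P Q hP hQ hs hPQ0 hQP0
  rw [hcP, hcQ] at key
  have hfin : ((Matrix.fromBlocks e₁ 0 0 e₂).submatrix σ σ) * ((Matrix.fromBlocks e₁ 0 0 e₂).submatrix σ σ) =
      (Matrix.fromBlocks e₁ 0 0 e₂).submatrix σ σ := by rw [hPQ]; exact hs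
  refine ⟨hfin, ?_⟩
  have hE : (⟨K₁ + K₂, (Matrix.fromBlocks e₁ 0 0 e₂).submatrix σ σ, hfin⟩ : IdemMat A) = ⟨K₁ + K₂, P + Q, hs⟩ := by
    congr 1
  exact (congrArg cls hE).trans key

theorem FM2_fsum_zero (z : ℂ) : fsum z (fun _ => 0) = 0 := by unfold fsum; exact tsum_zero

theorem FM2 : FM2_stmt := by
  intro X _ _ α A _ ι u w₁ w₂ h₁ h₂ K₁ K₂ φ₁ φ₂ e₁ e₂ he₁ he₂ hφ₁ hφ₂ hm₁ hm₂
  refine ⟨FM2_fam φ₁ φ₂, ⟨?_, ?_, ?_, ?_⟩, ?_⟩
  · intro i b
    refine Fin.addCases (fun i₁ => ?_) (fun i₂ => ?_) i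
    · cases b
      · simp only [FM2_lf]; exact continuous_const
      · simp only [FM2_lt]; exact hφ₁.cont i₁ ()
    · cases b
      · simp only [FM2_rf]; exact hφ₂.cont i₂ ()
      · simp only [FM2_rt]; exact continuous_const
  · obtain ⟨R₁, hR₁⟩ := hφ₁.supp
    obtain ⟨R₂, hR₂⟩ := hφ₂.supp
    refine ⟨max R₁ R₂, fun i b x τ hτ => ?_⟩
    have h1 : R₁ < |τ| := (le_max_left _ _).trans_lt hτ
    have h2 : R₂ < |τ| := (le_max_right _ _).trans_lt hτ
    refine Fin.addCases (fun i₁ => ?_) (fun i₂ => ?_) i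
    · cases b
      · rw [FM2_lf]
      · rw [FM2_lt, hR₁ i₁ () x τ h1]
    · cases b
      · rw [FM2_rf, hR₂ i₂ () x τ h2]
      · rw [FM2_rt]
  · intro b x τ hτ
    rw [Fin.sum_univ_add]
    cases b
    · simp only [FM2_lf, FM2_rf]
      have := hφ₂.norm () x τ hτ
      rw [← this]
      simp
    · simp only [FM2_lt, FM2_rt]
      have := hφ₁.norm () x τ hτ
      rw [← this]
      simp
  · intro b b' x τ τ' hτ hτ' hne
    rw [Fin.sum_univ_add]
    cases b <;> cases b'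
    · simp only [FM2_lf, FM2_rf]
      have := hφ₂.orth () () x τ τ' hτ hτ' (Or.inr (hne.resolve_left (fun h => h rfl)))
      rw [← this]
      simp
    · simp only [FM2_lf, FM2_rf, FM2_lt, FM2_rt]
      simp
    · simp only [FM2_lf, FM2_rf, FM2_lt, FM2_rt]
      simp
    · simp only [FM2_lt, FM2_rt]
      have := hφ₁.orth () () x τ τ' hτ hτ' (Or.inr (hne.resolve_left (fun h => h rfl)))
      rw [← this]
      simp
  · obtain ⟨he, hcls⟩ := FM2_cls e₁ e₂ he₁ he₂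
    refine ⟨_, he, ?_, hcls⟩
    intro i j
    refine Fin.addCases (fun i₁ => ?_) (fun i₂ => ?_) i
    · refine Fin.addCases (fun j₁ => ?_) (fun j₂ => ?_) j
      · obtain ⟨F, hF, hF2⟩ := hm₁ i₁ j₁
        refine ⟨F, ?_, fun n x => ?_⟩
        · rw [Matrix.submatrix_apply, finSumFinEquiv_symm_apply_castAdd, finSumFinEquiv_symm_apply_castAdd,
            Matrix.fromBlocks_apply₁₁]
          exact hF
        · rw [hF2]
          unfold ecoef
          rw [Fintype.sum_bool, Fintype.sum_unique]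
          simp only [FM2_lt, FM2_lf, mul_zero, FM2_fsum_zero, add_zero]
          rfl
      · refine ⟨0, ⟨by simp, ?_⟩, fun n x => ?_⟩
        · rw [Matrix.submatrix_apply, finSumFinEquiv_symm_apply_castAdd, finSumFinEquiv_symm_apply_natAdd,
            Matrix.fromBlocks_apply₁₂, Matrix.zero_apply]
          simp
        · unfold ecoef
          rw [Fintype.sum_bool]
          simp only [FM2_lf, FM2_rt, mul_zero, zero_mul, FM2_fsum_zero, add_zero]
          rfl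
    · refine Fin.addCases (fun j₁ => ?_) (fun j₂ => ?_) j
      · refine ⟨0, ⟨by simp, ?_⟩, fun n x => ?_⟩
        · rw [Matrix.submatrix_apply, finSumFinEquiv_symm_apply_castAdd, finSumFinEquiv_symm_apply_natAdd,
            Matrix.fromBlocks_apply₂₁, Matrix.zero_apply]
          simp
        · unfold ecoef
          rw [Fintype.sum_bool]
          simp only [FM2_lf, FM2_rt, mul_zero, zero_mul, FM2_fsum_zero, add_zero]
          rfl
      · obtain ⟨F, hF, hF2⟩ := hm₂ i₂ j₂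
        refine ⟨F, ?_, fun n x => ?_⟩
        · rw [Matrix.submatrix_apply, finSumFinEquiv_symm_apply_natAdd, finSumFinEquiv_symm_apply_natAdd,
            Matrix.fromBlocks_apply₂₂]
          exact hF
        · rw [hF2]
          unfold ecoef
          rw [Fintype.sum_bool, Fintype.sum_unique]
          simp only [FM2_rf, FM2_rt, mul_zero, FM2_fsum_zero, zero_add]
          rfl

end Pool.Agent.CZ
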