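import Pool.Agent.helper37.CZ.SE

/-! # Rows of cz: OR1 -/

set_option autoImplicit false

open scoped Matrix Topology ComplexConjugate
open Filter

namespace Pool.Agent.CZ

theorem OR1_prod {Q : Type} [Fintype Q] (H : Q × ℤ → ℂ) (hH : {l | H l ≠ 0}.Finite) :
    ∑' l : Q × ℤ, H l = ∑ q, ∑' k : ℤ, H (q, k) := by
  have hs : Summable H := summable_of_hasFiniteSupport hH
  rw [hs.tsum_prod, tsum_fintype]

theorem OR1_swap {Q : Type} [Fintype Q] (F : Q → ℤ → ℂ) (hF : ∀ q, {k | F q k ≠ 0}.Finite) :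
    ∑ q, ∑' k : ℤ, F q k = ∑' k : ℤ, ∑ q, F q k :=
  (Summable.tsum_finsetSum (fun q _ => summable_of_hasFiniteSupport (hF q))).symm

theorem OR1_inv (h1 : CSM_stmt) (h2 : CSL_stmt) {X : Type} [TopologicalSpace X] (α : X ≃ₜ X) {Q Q' : Type} [Fintype Q] [Fintype Q']
    (w : Q → C(X, ℂ)) (h : Q → C(X, ℝ)) (w' : Q' → C(X, ℂ)) (h' : Q' → C(X, ℝ)) (U : Q → Q' → X → ℝ → ℝ → ℂ)
    (hL : LSys α w h) (hL' : LSys α w' h') (hU : Kern α w h w' h' U) (q : Q) (q' : Q') (x : X) (τ τ' : ℝ)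
    (hτ : IsLift (w q x) τ) (hτ' : IsLift (w' q' x) τ') (m : ℤ) :
    U q q' ((α ^ m) x) (τ + csum α (h q) m x) (τ' + csum α (h' q') m x) = U q q' x τ τ' := by
  have step : ∀ k : ℤ, U q q' ((α ^ (k + 1)) x) (τ + csum α (h q) (k + 1) x) (τ' + csum α (h' q') (k + 1) x) =
      U q q' ((α ^ k) x) (τ + csum α (h q) k x) (τ' + csum α (h' q') k x) := by
    intro k
    obtain ⟨-, a2, a3, -⟩ := h1 X α (h q)
    obtain ⟨-, b2, b3, -⟩ := h1 X α (h' q')
    have l1 := h2 X α (w q) (h q) (hL q).1 k x τ hτ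
    have l2 := h2 X α (w' q') (h' q') (hL' q').1 k x τ' hτ'
    have e : (α ^ (k + 1)) x = α ((α ^ k) x) := by
      rw [add_comm, zpow_add, zpow_one]; rfl
    rw [a3, b3, a2, b2, e, ← add_assoc, ← add_assoc]
    exact hU.inv q q' _ _ _ l1 l2
  induction m using Int.induction_on with
  | zero =>
    rw [(h1 X α (h q)).1, (h1 X α (h' q')).1, add_zero, add_zero]
    rfl
  | succ k ih => rw [step, ih]
  | pred k ih =>
    have := step (-(k : ℤ) - 1)
    have e : (-(k : ℤ) - 1 + 1) = -(k : ℤ) := by ring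
    rw [e] at this
    rw [← this, ih]

theorem OR1 (h1 : CSM_stmt) (h2 : CSL_stmt) (h3 : FSB_stmt) (h4 : OR2_stmt) : OR1_stmt := by
  intro X _ _ α Q Q' _ _ w h w' h' U K K' φ ψ hL hL' hφ hψ hU x t t' ht ht'
  obtain ⟨f1, f2, f3, f4⟩ := h4 X α Q Q' w h w' h' U K φ hL hφ hU x t t'
  have lift1 : ∀ (m : ℤ) (q : Q) , IsLift (w q ((α ^ m) x)) (t q + csum α (h q) m x) :=
    fun m q => h2 X α (w q) (h q) (hL q).1 m x (t q) (ht q)
  have lift2 : ∀ (m : ℤ) (q' : Q') , IsLift (w' q' ((α ^ m) x)) (t' q' + csum α (h' q') m x) :=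
    fun m q' => h2 X α (w' q') (h' q') (hL' q').1 m x (t' q') (ht' q')
  have fs1 : ∀ (m : ℤ) (q : Q) (G : ℝ → ℂ), fsum (w q ((α ^ m) x)) G = ∑' k : ℤ, G (t q + k + csum α (h q) m x) := by
    intro m q G
    rw [((h3 _ (SE_lift_norm (lift1 m q))).2 _ (lift1 m q)).2]
    exact tsum_congr fun k => by rw [add_right_comm]
  have fs2 : ∀ (m : ℤ) (q' : Q') (G : ℝ → ℂ), fsum (w' q' ((α ^ m) x)) G = ∑' k : ℤ, G (t' q' + k + csum α (h' q') m x) := by
    intro m q G
    rw [((h3 _ (SE_lift_norm (lift2 m q))).2 _ (lift2 m q)).2]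
    exact tsum_congr fun k => by rw [add_right_comm]
  have shiftα : ∀ m n : ℤ, (α ^ (-n)) ((α ^ m) x) = (α ^ (m - n)) x := by
    intro m n
    have : (α ^ (m - n)) = (α ^ (-n)) * (α ^ m) := by rw [← zpow_add]; congr 1; ring
    rw [this]; rfl
  have cs : ∀ (g : C(X, ℝ)) (m n : ℤ), csum α g m x + csum α g (-n) ((α ^ m) x) = csum α g (m - n) x := by
    intro g m n
    rw [← (h1 X α g).2.2.1]
    congr 1
  refine ⟨?_, ?_⟩
  · intro i j m n
    have hterm : ∀ (q : Q) (k : ℤ) (q' : Q') (k' : ℤ),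
        φ i q ((α ^ m) x) (t q + k + csum α (h q) m x) *
          U q q' ((α ^ m) x) (t q + k + csum α (h q) m x) (t' q' + k' + csum α (h' q') m x) *
          ψ j q' ((α ^ (-n)) ((α ^ m) x)) (t' q' + k' + csum α (h' q') m x + csum α (h' q') (-n) ((α ^ m) x)) =
        oa α h φ t x i (q, k) m * U q q' x (t q + k) (t' q' + k') * oa α h' ψ t' x j (q', k') (m - n) := by
      intro q k q' k'
      have lq : IsLift (w q x) (t q + k) := (((h3 _ (SE_lift_norm (ht q))).2 _ (ht q)).1 _).mpr ⟨k, rfl⟩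
      have lq' : IsLift (w' q' x) (t' q' + k') := (((h3 _ (SE_lift_norm (ht' q'))).2 _ (ht' q')).1 _).mpr ⟨k', rfl⟩
      rw [OR1_inv h1 h2 α w h w' h' U hL hL' hU q q' x _ _ lq lq' m, shiftα, add_assoc (t' q' + (k' : ℝ)), cs]
      rfl
    have hfinin : ∀ (q : Q) (k : ℤ), {l' : Q' × ℤ | oa α h φ t x i (q, k) m * U q l'.1 x (t q + k) (t' l'.1 + l'.2) *
        oa α h' ψ t' x j l' (m - n) ≠ 0}.Finite := by
      intro q k
      refine (f3 (q, k)).subset ?_
      intro l' hl' h0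
      apply hl'
      change U q l'.1 x (t q + k) (t' l'.1 + l'.2) = 0 at h0
      rw [h0, mul_zero, zero_mul]
    have hfinout : {l : Q × ℤ | ∑' l' : Q' × ℤ, oa α h φ t x i l m * U l.1 l'.1 x (t l.1 + l.2) (t' l'.1 + l'.2) *
        oa α h' ψ t' x j l' (m - n) ≠ 0}.Finite := by
      refine (f1 i m).subset ?_
      intro l hl h0
      apply hl
      simp only [h0, zero_mul]
      exact tsum_zero
    rw [OR1_prod _ hfinout]
    unfold vcoef
    refine Finset.sum_congr rfl fun q _ => ?_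
    have e1 : ∀ q' : Q', fsum (w q ((α ^ m) x)) (fun τ => fsum (w' q' ((α ^ m) x)) (fun τ' =>
        φ i q ((α ^ m) x) τ * U q q' ((α ^ m) x) τ τ' * ψ j q' ((α ^ (-n)) ((α ^ m) x)) (τ' + csum α (h' q') (-n) ((α ^ m) x)))) =
        ∑' k : ℤ, ∑' k' : ℤ, oa α h φ t x i (q, k) m * U q q' x (t q + k) (t' q' + k') * oa α h' ψ t' x j (q', k') (m - n) := by
      intro q'
      rw [fs1]
      refine tsum_congr fun k => ?_
      rw [fs2]
      exact tsum_congr fun k' => hterm q k q' k'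
    rw [Finset.sum_congr rfl fun q' _ => e1 q', OR1_swap]
    · refine tsum_congr fun k => ?_
      rw [OR1_prod _ (hfinin q k)]
    · intro q'
      have : {k : ℤ | oa α h φ t x i (q, k) m ≠ 0}.Finite := by
        have h9 := (f1 i m).preimage (f := fun k : ℤ => ((q, k) : Q × ℤ)) (fun a _ b _ hab => (Prod.mk.inj hab).2)
        exact h9
      refine this.subset ?_
      intro k hk h0
      apply hk
      simp only [h0, zero_mul]
      exact tsum_zero
  · intro i j m n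
    have hfin : {l : Q × ℤ | oa α h φ t x i l m * oa α h φ t x j l (m - n) ≠ 0}.Finite := by
      refine (f1 i m).subset ?_
      intro l hl h0
      apply hl
      rw [h0, zero_mul]
    rw [OR1_prod _ hfin]
    unfold ecoef
    refine Finset.sum_congr rfl fun q _ => ?_
    rw [fs1]
    refine tsum_congr fun k => ?_
    rw [shiftα, add_assoc (t q + (k : ℝ)), cs]
    rfl

end Pool.Agent.CZ
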