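import Pool.Agent.helper37.CZ.Spec

/-!
# Project cz (MP_376aaf_an): Blocks D and E. RULES as in `Spec.lean`

Block D: the class `[E_φ] ∈ K₀(A)` of a pair `(w, h)`, `w ∘ α = e^(2πih) w`, `h > 0`. Lifts of `w` at `x`: the real `τ` with
`e^(2πiτ) = w x`. The map `(x, τ) ↦ (α^n x, τ + S_n(x))`, `S_n = csum α h n`, preserves lifts. `Q` is a finite set of labels (one point, or `Bool` for two pairs).
-/

set_option autoImplicit false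

open scoped Matrix Topology ComplexConjugate
open Filter

namespace Pool.Agent.CZ

/-! ## Definitions -/

/-- cocycle sums: `S_n(x) = ∑_(0 ≤ m < n) h(α^m x)`, `S_(-n)(x) = -∑_(1 ≤ m ≤ n) h(α^(-m) x)` -/
noncomputable def csum {X : Type} [TopologicalSpace X] (α : X ≃ₜ X) (h : C(X, ℝ)) (n : ℤ) (x : X) : ℝ :=
  if 0 ≤ n then ∑ m ∈ Finset.range n.toNat, h ((α ^ (m : ℤ)) x)
  else -∑ m ∈ Finset.range (-n).toNat, h ((α ^ (-(m : ℤ) - 1)) x)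

/-- `τ` is a lift of the complex number `z` -/
def IsLift (z : ℂ) (τ : ℝ) : Prop := Complex.exp (2 * Real.pi * Complex.I * τ) = z

/-- sum over the lifts of `z` -/
noncomputable def fsum (z : ℂ) (G : ℝ → ℂ) : ℂ := ∑' k : ℤ, G (Complex.arg z / (2 * Real.pi) + k)

/-- pairs `(w_q, h_q)` with `h_q > 0` -/
def LSys {X : Type} [TopologicalSpace X] (α : X ≃ₜ X) {Q : Type} (w : Q → C(X, ℂ)) (h : Q → C(X, ℝ)) : Prop :=
  ∀ q, Rot α (w q) (h q) ∧ ∀ x, 0 < h q x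

/-- normalised families of functions of `(x, τ)` -/
structure Fam {X : Type} [TopologicalSpace X] (α : X ≃ₜ X) {Q : Type} (w : Q → C(X, ℂ)) (h : Q → C(X, ℝ))
    {K : ℕ} (φ : Fin K → Q → X → ℝ → ℂ) : Prop where
  cont : ∀ i q, Continuous (fun p : X × ℝ => φ i q p.1 p.2)
  supp : ∃ R : ℝ, ∀ i q x τ, R < |τ| → φ i q x τ = 0
  norm : ∀ q x τ, IsLift (w q x) τ →
    ∑ i, ∑' n : ℤ, φ i q ((α ^ n) x) (τ + csum α (h q) n x) ^ 2 = 1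
  orth : ∀ q q' x τ τ', IsLift (w q x) τ → IsLift (w q' x) τ' → (q ≠ q' ∨ τ ≠ τ') →
    ∑ i, ∑' n : ℤ, φ i q ((α ^ n) x) (τ + csum α (h q) n x) *
      φ i q' ((α ^ n) x) (τ' + csum α (h q') n x) = 0

/-- unitary kernels between the lifts of two systems of pairs -/
structure Kern {X : Type} [TopologicalSpace X] (α : X ≃ₜ X) {Q Q' : Type} [Fintype Q] [Fintype Q']
    (w : Q → C(X, ℂ)) (h : Q → C(X, ℝ)) (w' : Q' → C(X, ℂ)) (h' : Q' → C(X, ℝ))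
    (U : Q → Q' → X → ℝ → ℝ → ℂ) : Prop where
  cont : ∀ q q', Continuous (fun p : X × ℝ × ℝ => U q q' p.1 p.2.1 p.2.2)
  inv : ∀ q q' x τ τ', IsLift (w q x) τ → IsLift (w' q' x) τ' →
    U q q' (α x) (τ + h q x) (τ' + h' q' x) = U q q' x τ τ'
  loc : ∀ R : ℝ, ∃ R' : ℝ, ∀ q q' x τ τ', (|τ| ≤ R → R' < |τ'| → U q q' x τ τ' = 0) ∧
    (|τ'| ≤ R → R' < |τ| → U q q' x τ τ' = 0)
  row1 : ∀ q x τ, IsLift (w q x) τ →
    ∑ q', fsum (w' q' x) (fun τ' => U q q' x τ τ' * conj (U q q' x τ τ')) = 1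
  row0 : ∀ q q₁ x τ τ₁, IsLift (w q x) τ → IsLift (w q₁ x) τ₁ → (q ≠ q₁ ∨ τ ≠ τ₁) →
    ∑ q', fsum (w' q' x) (fun τ' => U q q' x τ τ' * conj (U q₁ q' x τ₁ τ')) = 0
  col1 : ∀ q' x τ', IsLift (w' q' x) τ' →
    ∑ q, fsum (w q x) (fun τ => U q q' x τ τ' * conj (U q q' x τ τ')) = 1
  col0 : ∀ q' q₁' x τ' τ₁', IsLift (w' q' x) τ' → IsLift (w' q₁' x) τ₁' → (q' ≠ q₁' ∨ τ' ≠ τ₁') →
    ∑ q, fsum (w q x) (fun τ => U q q' x τ τ' * conj (U q q₁' x τ τ₁')) = 0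

/-- the adjoint kernel -/
noncomputable def adjK {X Q Q' : Type} (U : Q → Q' → X → ℝ → ℝ → ℂ) : Q' → Q → X → ℝ → ℝ → ℂ :=
  fun q' q x τ' τ => conj (U q q' x τ τ')

/-- the coefficients of `E_φ` -/
noncomputable def ecoef {X : Type} [TopologicalSpace X] (α : X ≃ₜ X) {Q : Type} [Fintype Q] (w : Q → C(X, ℂ))
    (h : Q → C(X, ℝ)) {K : ℕ} (φ : Fin K → Q → X → ℝ → ℂ) (i j : Fin K) (n : ℤ) (x : X) : ℂ :=
  ∑ q, fsum (w q x) (fun τ => φ i q x τ * φ j q ((α ^ (-n)) x) (τ + csum α (h q) (-n) x))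

/-- the coefficients of the matrix given by the kernel `U` and the families `φ`, `ψ` -/
noncomputable def vcoef {X : Type} [TopologicalSpace X] (α : X ≃ₜ X) {Q Q' : Type} [Fintype Q] [Fintype Q']
    (w : Q → C(X, ℂ)) (w' : Q' → C(X, ℂ)) (h' : Q' → C(X, ℝ)) {K K' : ℕ} (φ : Fin K → Q → X → ℝ → ℂ)
    (U : Q → Q' → X → ℝ → ℝ → ℂ) (ψ : Fin K' → Q' → X → ℝ → ℂ) (i : Fin K) (j : Fin K') (n : ℤ) (x : X) : ℂ :=
  ∑ q, ∑ q', fsum (w q x) (fun τ => fsum (w' q' x) (fun τ' =>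
    φ i q x τ * U q q' x τ τ' * ψ j q' ((α ^ (-n)) x) (τ' + csum α (h' q') (-n) x)))

/-- `a` is the finite sum `∑ ι(F_n) u^n` -/
def IsFin {X : Type} [TopologicalSpace X] [CompactSpace X] {A : Type} [CStarAlgebra A]
    (ι : C(X, ℂ) →⋆ₐ[ℂ] A) (u : unitary A) (F : ℤ → C(X, ℂ)) (a : A) : Prop :=
  (Function.support F).Finite ∧ a = ∑ᶠ n : ℤ, ι (F n) * up u n

/-- the entries of the matrix `V` are finite sums with the coefficients `κ i j n x` -/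
def MatOf {X : Type} [TopologicalSpace X] [CompactSpace X] {A : Type} [CStarAlgebra A]
    (ι : C(X, ℂ) →⋆ₐ[ℂ] A) (u : unitary A) {K L : ℕ} (κ : Fin K → Fin L → ℤ → X → ℂ)
    (V : Matrix (Fin K) (Fin L) A) : Prop :=
  ∀ i j, ∃ F : ℤ → C(X, ℂ), IsFin ι u F (V i j) ∧ ∀ n x, F n x = κ i j n x

/-- the tent function -/
noncomputable def lam (t : ℝ) : ℂ := ((max 0 (1 - 2 * |t|) : ℝ) : ℂ)

/-- the kernel of the identity -/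
noncomputable def delK {X Q : Type} [DecidableEq Q] : Q → Q → X → ℝ → ℝ → ℂ :=
  fun q q' _ τ τ' => if q = q' then lam (τ - τ') else 0

/-- `z` is the class of the pair `(w, h)` -/
def IsCls {X : Type} [TopologicalSpace X] [CompactSpace X] (α : X ≃ₜ X) {A : Type} [CStarAlgebra A]
    (ι : C(X, ℂ) →⋆ₐ[ℂ] A) (u : unitary A) (w : C(X, ℂ)) (h : C(X, ℝ)) (z : K0 A) : Prop :=
  ∃ (K : ℕ) (φ : Fin K → Unit → X → ℝ → ℂ) (e : Matrix (Fin K) (Fin K) A) (he : e * e = e),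
    Fam α (fun _ => w) (fun _ => h) φ ∧ MatOf ι u (ecoef α (fun _ : Unit => w) (fun _ => h) φ) e ∧
    z = cls ⟨K, e, he⟩

/-- values along the orbit of `x`: `l = (q, k)` is the lift `t q + k` -/
noncomputable def oa {X : Type} [TopologicalSpace X] (α : X ≃ₜ X) {Q : Type} (h : Q → C(X, ℝ)) {K : ℕ}
    (φ : Fin K → Q → X → ℝ → ℂ) (t : Q → ℝ) (x : X) (i : Fin K) (l : Q × ℤ) (n : ℤ) : ℂ :=
  φ i l.1 ((α ^ n) x) (t l.1 + l.2 + csum α (h l.1) n x)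

/-- `exp(iπ s)`, `s` linear from 0 at `-η` to 1 at `η` -/
noncomputable def zz (η t : ℝ) : ℂ :=
  Complex.exp (Real.pi * Complex.I * ((max 0 (min 1 ((t + η) / (2 * η))) : ℝ) : ℂ))

/-- 1 for `t ≤ -η`, 0 for `t ≥ η` -/
noncomputable def PP (η t : ℝ) : ℂ := (1 + zz η t) / 2

/-- 0 for `t ≤ -η`, 1 for `t ≥ η` -/
noncomputable def QQ (η t : ℝ) : ℂ := (1 - zz η t) / 2

/-! ## Two lemmas on `K₀`, proved here -/

/-- equivalent idempotents have the same class -/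
theorem cls_eq {A : Type} [Ring A] {p q : IdemMat A} (x : Matrix (Fin p.n) (Fin q.n) A)
    (y : Matrix (Fin q.n) (Fin p.n) A) (h1 : x * y = p.e) (h2 : y * x = q.e) : cls p = cls q := by
  have h : FreeAbelianGroup.of p - FreeAbelianGroup.of q ∈ AddSubgroup.closure (K0Rel A) :=
    AddSubgroup.subset_closure (Or.inl ⟨p, q, ⟨x, y, h1, h2⟩, rfl⟩)
  refine (QuotientAddGroup.eq.mpr ?_)
  have h' := AddSubgroup.neg_mem _ h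
  rwa [neg_sub, ← neg_add_eq_sub] at h'

/-- orthogonal sums -/
theorem cls_add {A : Type} [Ring A] {n : ℕ} (e f : Matrix (Fin n) (Fin n) A) (he : e * e = e) (hf : f * f = f)
    (hs : (e + f) * (e + f) = e + f) (h1 : e * f = 0) (h2 : f * e = 0) :
    cls (⟨n, e + f, hs⟩ : IdemMat A) = cls ⟨n, e, he⟩ + cls ⟨n, f, hf⟩ := by
  have h : FreeAbelianGroup.of (⟨n, e + f, hs⟩ : IdemMat A) - FreeAbelianGroup.of ⟨n, e, he⟩ -
      FreeAbelianGroup.of ⟨n, f, hf⟩ ∈ AddSubgroup.closure (K0Rel A) :=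
    AddSubgroup.subset_closure (Or.inr ⟨n, e, f, he, hf, hs, h1, h2, rfl⟩)
  have h' := (QuotientAddGroup.eq_zero_iff _).mpr h
  rw [QuotientAddGroup.mk_sub, QuotientAddGroup.mk_sub, sub_sub, sub_eq_zero] at h'
  exact h'

/-! ## Block D -/

/-- ROW cz:CSM (short). -/
def CSM_stmt : Prop := ∀ (X : Type) [TopologicalSpace X] (α : X ≃ₜ X) (h : C(X, ℝ)),
  (∀ x, csum α h 0 x = 0) ∧ (∀ x, csum α h 1 x = h x) ∧
  (∀ m n x, csum α h (m + n) x = csum α h m x + csum α h n ((α ^ m) x)) ∧ (∀ n, Continuous (csum α h n)) ∧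
  (∀ δ : ℝ, (∀ x, δ ≤ h x) → ∀ (n : ℤ) x, (0 ≤ n → n * δ ≤ csum α h n x) ∧ (n ≤ 0 → csum α h n x ≤ n * δ)) ∧
  ∀ H : ℝ, (∀ x, h x ≤ H) → ∀ (n : ℤ) x, (0 ≤ n → csum α h n x ≤ n * H) ∧ (n ≤ 0 → n * H ≤ csum α h n x)

/-- ROW cz:CSL (short; from CSM). Induction on `n`. -/
def CSL_stmt : Prop := ∀ (X : Type) [TopologicalSpace X] (α : X ≃ₜ X) (w : C(X, ℂ)) (h : C(X, ℝ)), Rot α w h →
  ∀ (n : ℤ) (x : X) (τ : ℝ), IsLift (w x) τ → IsLift (w ((α ^ n) x)) (τ + csum α h n x)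

/-- ROW cz:FSB (short). The lifts of `z` are `τ₀ + ℤ`. -/
def FSB_stmt : Prop := ∀ (z : ℂ), ‖z‖ = 1 → IsLift z (Complex.arg z / (2 * Real.pi)) ∧
  ∀ τ₀ : ℝ, IsLift z τ₀ → (∀ τ, IsLift z τ ↔ ∃ k : ℤ, τ = τ₀ + k) ∧ ∀ G : ℝ → ℂ, fsum z G = ∑' k : ℤ, G (τ₀ + k)

/-- ROW cz:PE1 (short-medium; from FSB). Near `y₀` there is a continuous lift `τ(y) = τ₀ + arg(w y / w y₀)/(2π)` of `w y`, so the sum is `∑_k G y (τ(y) + k)`, and only `|k| ≤ R + |τ₀| + 1` matter. -/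
def PE1_stmt : Prop := ∀ (Y : Type) [TopologicalSpace Y] (w : Y → ℂ), Continuous w → (∀ y, ‖w y‖ = 1) → ∀ G : Y → ℝ → ℂ,
  Continuous (fun p : Y × ℝ => G p.1 p.2) → (∃ R : ℝ, ∀ y τ, R < |τ| → G y τ = 0) → Continuous (fun y => fsum (w y) (G y))

/-- ROW cz:KAD (short). Rows and columns exchanged. -/
def KAD_stmt : Prop := ∀ (X : Type) [TopologicalSpace X] (α : X ≃ₜ X) (Q Q' : Type) [Fintype Q] [Fintype Q']
  (w : Q → C(X, ℂ)) (h : Q → C(X, ℝ)) (w' : Q' → C(X, ℂ)) (h' : Q' → C(X, ℝ)) (U : Q → Q' → X → ℝ → ℝ → ℂ),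
  Kern α w h w' h' U → Kern α w' h' w h (adjK U)

/-- ROW cz:VEX (medium; from CSM, PE1). Continuity of the coefficients in `x`: PE1 for the inner sum with `Y = X × ℝ` (support of the inner function in `τ'`: `ψ` is supported in `|τ' + S| ≤ R`, `S` bounded on `X`), then for the outer sum. Finitely many `n`: if the coefficient is
not 0 there are lifts `|τ| ≤ R`, `|τ'| ≤ R'` (`loc`) with `|τ' + S'_(-n)(x)| ≤ R`, and `|S'_(-n)(x)| ≥ δ |n|`, `δ = min h' > 0` (compactness; `X` may be empty). The matrix is defined by the finite sums. -/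
def VEX_stmt : Prop := ∀ (X : Type) [TopologicalSpace X] [CompactSpace X] (α : X ≃ₜ X) (A : Type) [CStarAlgebra A]
  (ι : C(X, ℂ) →⋆ₐ[ℂ] A) (u : unitary A) (Q Q' : Type) [Fintype Q] [Fintype Q']
  (w : Q → C(X, ℂ)) (h : Q → C(X, ℝ)) (w' : Q' → C(X, ℂ)) (h' : Q' → C(X, ℝ)) (U : Q → Q' → X → ℝ → ℝ → ℂ)
  (K K' : ℕ) (φ : Fin K → Q → X → ℝ → ℂ) (ψ : Fin K' → Q' → X → ℝ → ℂ), LSys α w h → LSys α w' h' →
  Fam α w h φ → Fam α w' h' ψ → Kern α w h w' h' U → ∃ V : Matrix (Fin K) (Fin K') A, MatOf ι u (vcoef α w w' h' φ U ψ) V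

/-- ROW cz:EEX (short-medium; from CSM, PE1). The same for `ecoef` (one sum over lifts). -/
def EEX_stmt : Prop := ∀ (X : Type) [TopologicalSpace X] [CompactSpace X] (α : X ≃ₜ X) (A : Type) [CStarAlgebra A]
  (ι : C(X, ℂ) →⋆ₐ[ℂ] A) (u : unitary A) (Q : Type) [Fintype Q] (w : Q → C(X, ℂ)) (h : Q → C(X, ℝ))
  (K : ℕ) (φ : Fin K → Q → X → ℝ → ℂ), LSys α w h → Fam α w h φ →
  ∃ e : Matrix (Fin K) (Fin K) A, MatOf ι u (ecoef α w h φ) e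

/-- ROW cz:OR1 (medium; from CSM, CSL, FSB, OR2). The sums over the lifts at `y = α^m x` are the sums over `t q + k + S_m(x)` (FSB, CSL); `S_(-n)(α^m x) = S_(m-n)(x) - S_m(x)` (CSM); `U` at `y` and the shifted lifts is `U` at `x` (`inv`, induction on `m`). All sums are finite (OR2), so
`∑_q ∑'_k = ∑'_(q,k)`. -/
def OR1_stmt : Prop := ∀ (X : Type) [TopologicalSpace X] [CompactSpace X] (α : X ≃ₜ X) (Q Q' : Type) [Fintype Q] [Fintype Q']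
  (w : Q → C(X, ℂ)) (h : Q → C(X, ℝ)) (w' : Q' → C(X, ℂ)) (h' : Q' → C(X, ℝ)) (U : Q → Q' → X → ℝ → ℝ → ℂ)
  (K K' : ℕ) (φ : Fin K → Q → X → ℝ → ℂ) (ψ : Fin K' → Q' → X → ℝ → ℂ), LSys α w h → LSys α w' h' →
  Fam α w h φ → Fam α w' h' ψ → Kern α w h w' h' U → ∀ (x : X) (t : Q → ℝ) (t' : Q' → ℝ),
  (∀ q, IsLift (w q x) (t q)) → (∀ q', IsLift (w' q' x) (t' q')) →
  (∀ i j m n, vcoef α w w' h' φ U ψ i j n ((α ^ m) x) = ∑' l : Q × ℤ, ∑' l' : Q' × ℤ,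
    oa α h φ t x i l m * U l.1 l'.1 x (t l.1 + l.2) (t' l'.1 + l'.2) * oa α h' ψ t' x j l' (m - n)) ∧
  ∀ i j m n, ecoef α w h φ i j n ((α ^ m) x) = ∑' l : Q × ℤ, oa α h φ t x i l m * oa α h φ t x j l (m - n)

/-- ROW cz:OR2 (short-medium; from CSM). Supports are bounded, `S_n(x) → ±∞`, `loc`. -/
def OR2_stmt : Prop := ∀ (X : Type) [TopologicalSpace X] [CompactSpace X] (α : X ≃ₜ X) (Q Q' : Type) [Fintype Q] [Fintype Q']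
  (w : Q → C(X, ℂ)) (h : Q → C(X, ℝ)) (w' : Q' → C(X, ℂ)) (h' : Q' → C(X, ℝ)) (U : Q → Q' → X → ℝ → ℝ → ℂ)
  (K : ℕ) (φ : Fin K → Q → X → ℝ → ℂ), LSys α w h → Fam α w h φ → Kern α w h w' h' U →
  ∀ (x : X) (t : Q → ℝ) (t' : Q' → ℝ),
  (∀ i n, {l : Q × ℤ | oa α h φ t x i l n ≠ 0}.Finite) ∧ (∀ i l, {n : ℤ | oa α h φ t x i l n ≠ 0}.Finite) ∧
  (∀ l : Q × ℤ, {l' : Q' × ℤ | U l.1 l'.1 x (t l.1 + l.2) (t' l'.1 + l'.2) ≠ 0}.Finite) ∧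
  ∀ l' : Q' × ℤ, {l : Q × ℤ | U l.1 l'.1 x (t l.1 + l.2) (t' l'.1 + l'.2) ≠ 0}.Finite

/-- ROW cz:OR3 (short-medium; from FSB, OR2). `norm`, `orth`, `row1`, `row0` in the coordinates `l = (q, k)`. -/
def OR3_stmt : Prop := ∀ (X : Type) [TopologicalSpace X] [CompactSpace X] (α : X ≃ₜ X) (Q Q' : Type) [Fintype Q] [Fintype Q']
  (w : Q → C(X, ℂ)) (h : Q → C(X, ℝ)) (w' : Q' → C(X, ℂ)) (h' : Q' → C(X, ℝ)) (U : Q → Q' → X → ℝ → ℝ → ℂ)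
  (K : ℕ) (φ : Fin K → Q → X → ℝ → ℂ), LSys α w h → LSys α w' h' → Fam α w h φ → Kern α w h w' h' U →
  ∀ (x : X) (t : Q → ℝ) (t' : Q' → ℝ), (∀ q, IsLift (w q x) (t q)) → (∀ q', IsLift (w' q' x) (t' q')) →
  (∀ l, ∑ i, ∑' n : ℤ, oa α h φ t x i l n * oa α h φ t x i l n = 1) ∧
  (∀ l l₁, l ≠ l₁ → ∑ i, ∑' n : ℤ, oa α h φ t x i l n * oa α h φ t x i l₁ n = 0) ∧
  (∀ l : Q × ℤ, ∑' l' : Q' × ℤ, U l.1 l'.1 x (t l.1 + l.2) (t' l'.1 + l'.2) *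
    conj (U l.1 l'.1 x (t l.1 + l.2) (t' l'.1 + l'.2)) = 1) ∧
  ∀ l l₁ : Q × ℤ, l ≠ l₁ → ∑' l' : Q' × ℤ, U l.1 l'.1 x (t l.1 + l.2) (t' l'.1 + l'.2) *
    conj (U l₁.1 l'.1 x (t l₁.1 + l₁.2) (t' l'.1 + l'.2)) = 0

/-- ROW cz:KRA (short-medium). All sums are finite: `p` ranges over the support of `a i · 0`, `p'` over the union of the supports of `u p ·`, the second `p` over the support of `a l · (-n)`. Exchange the sums, use first the relations for `b`, then those for `u`. (`-m - (n - m) = -n`.) -/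
def KRA_stmt : Prop := ∀ (L L' : Type) (K K' : ℕ) (a : Fin K → L → ℤ → ℂ) (b : Fin K' → L' → ℤ → ℂ) (v : L → L' → ℂ),
  (∀ i n, {l | a i l n ≠ 0}.Finite) → (∀ j n, {l | b j l n ≠ 0}.Finite) → (∀ j l, {n | b j l n ≠ 0}.Finite) →
  (∀ l, {l' | v l l' ≠ 0}.Finite) → (∀ l', {l | v l l' ≠ 0}.Finite) →
  (∀ l, ∑ j, ∑' n : ℤ, b j l n * b j l n = 1) → (∀ l l₁, l ≠ l₁ → ∑ j, ∑' n : ℤ, b j l n * b j l₁ n = 0) →
  (∀ l, ∑' l', v l l' * conj (v l l') = 1) → (∀ l l₁, l ≠ l₁ → ∑' l', v l l' * conj (v l₁ l') = 0) →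
  ∀ (i l : Fin K) (n : ℤ), ∑ j, ∑' m : ℤ, (∑' p, ∑' p', a i p 0 * v p p' * b j p' (-m)) *
    (∑' p', ∑' p, b j p' (-m) * conj (v p p') * a l p (-m - (n - m))) = ∑' p, a i p 0 * a l p (-n)

/-- ROW cz:FPM (medium; from CEX). `ι(F) u^m ι(G) u^k = ι(F · (G ∘ α^(-m))) u^(m+k)`, finite sums. -/
def FPM_stmt : Prop := ∀ (X : Type) [TopologicalSpace X] [CompactSpace X] (α : X ≃ₜ X) (A : Type) [CStarAlgebra A]
  (ι : C(X, ℂ) →⋆ₐ[ℂ] A) (u : unitary A) (c : ℤ → A →ₗ[ℂ] C(X, ℂ)), Cov α ι u c →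
  ∀ (K J L : ℕ) (V : Matrix (Fin K) (Fin J) A) (W : Matrix (Fin J) (Fin L) A) (κ : Fin K → Fin J → ℤ → X → ℂ)
    (μ : Fin J → Fin L → ℤ → X → ℂ), MatOf ι u κ V → MatOf ι u μ W →
    MatOf ι u (fun i l n x => ∑ j, ∑' m : ℤ, κ i j m x * μ j l (n - m) ((α ^ (-m)) x)) (V * W)

/-- ROW cz:VWE (medium; from FPM, FSB, KAD, OR1, OR2, OR3, KRA). The coefficients of `V W` (FPM) and of `e` agree at every `x`: choose lifts `t`, `t'` at `x` and use OR1 (for `U` with `m = 0`, for `adjK U` with `m := -m`, for `ecoef` with `m = 0`), then KRA with `a = oa α h φ t x`,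
`b = oa α h' ψ t' x` (OR2, OR3, also for `adjK U`). Matrices with the same coefficients are equal. -/
def VWE_stmt : Prop := ∀ (X : Type) [TopologicalSpace X] [CompactSpace X] (α : X ≃ₜ X) (A : Type) [CStarAlgebra A]
  (ι : C(X, ℂ) →⋆ₐ[ℂ] A) (u : unitary A) (c : ℤ → A →ₗ[ℂ] C(X, ℂ)), Cov α ι u c →
  ∀ (Q Q' : Type) [Fintype Q] [Fintype Q'] (w : Q → C(X, ℂ)) (h : Q → C(X, ℝ)) (w' : Q' → C(X, ℂ)) (h' : Q' → C(X, ℝ))
  (U : Q → Q' → X → ℝ → ℝ → ℂ) (K K' : ℕ) (φ : Fin K → Q → X → ℝ → ℂ) (ψ : Fin K' → Q' → X → ℝ → ℂ)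
  (V : Matrix (Fin K) (Fin K') A) (W : Matrix (Fin K') (Fin K) A) (e : Matrix (Fin K) (Fin K) A),
  LSys α w h → LSys α w' h' → Fam α w h φ → Fam α w' h' ψ → Kern α w h w' h' U →
  MatOf ι u (vcoef α w w' h' φ U ψ) V → MatOf ι u (vcoef α w' w h ψ (adjK U) φ) W → MatOf ι u (ecoef α w h φ) e →
  V * W = e

/-- ROW cz:KDL (short-medium; from FSB). On lifts of the same `w q` the differences `τ - τ'` are integers, and `lam` is 1 at 0 and 0 at the other integers. -/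
def KDL_stmt : Prop := ∀ (X : Type) [TopologicalSpace X] (α : X ≃ₜ X) (Q : Type) [Fintype Q] [DecidableEq Q]
  (w : Q → C(X, ℂ)) (h : Q → C(X, ℝ)), LSys α w h → Kern α w h w h (delK : Q → Q → X → ℝ → ℝ → ℂ) ∧
  ∀ (K : ℕ) (φ : Fin K → Q → X → ℝ → ℂ), Fam α w h φ → ∀ i j n x,
    vcoef α w w h φ delK φ i j n x = ecoef α w h φ i j n x ∧
    vcoef α w w h φ (adjK delK) φ i j n x = ecoef α w h φ i j n x

/-- ROW cz:IDE (short; from VWE, KDL). `V = W = e`. -/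
def IDE_stmt : Prop := ∀ (X : Type) [TopologicalSpace X] [CompactSpace X] (α : X ≃ₜ X) (A : Type) [CStarAlgebra A]
  (ι : C(X, ℂ) →⋆ₐ[ℂ] A) (u : unitary A) (c : ℤ → A →ₗ[ℂ] C(X, ℂ)), Cov α ι u c →
  ∀ (Q : Type) [Fintype Q] [DecidableEq Q] (w : Q → C(X, ℂ)) (h : Q → C(X, ℝ)) (K : ℕ) (φ : Fin K → Q → X → ℝ → ℂ)
  (e : Matrix (Fin K) (Fin K) A), LSys α w h → Fam α w h φ → MatOf ι u (ecoef α w h φ) e → e * e = e

/-- ROW cz:EQK (short; from VEX, VWE, KAD). `x = V`, `y = W`; VWE for `U` and for `adjK U` (`adjK (adjK U) = U`). -/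
def EQK_stmt : Prop := ∀ (X : Type) [TopologicalSpace X] [CompactSpace X] (α : X ≃ₜ X) (A : Type) [CStarAlgebra A]
  (ι : C(X, ℂ) →⋆ₐ[ℂ] A) (u : unitary A) (c : ℤ → A →ₗ[ℂ] C(X, ℂ)), Cov α ι u c →
  ∀ (Q Q' : Type) [Fintype Q] [Fintype Q'] (w : Q → C(X, ℂ)) (h : Q → C(X, ℝ)) (w' : Q' → C(X, ℂ)) (h' : Q' → C(X, ℝ))
  (U : Q → Q' → X → ℝ → ℝ → ℂ) (K K' : ℕ) (φ : Fin K → Q → X → ℝ → ℂ) (ψ : Fin K' → Q' → X → ℝ → ℂ)
  (e : Matrix (Fin K) (Fin K) A) (e' : Matrix (Fin K') (Fin K') A),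
  LSys α w h → LSys α w' h' → Fam α w h φ → Fam α w' h' ψ → Kern α w h w' h' U →
  MatOf ι u (ecoef α w h φ) e → MatOf ι u (ecoef α w' h' ψ) e' →
  ∃ (x : Matrix (Fin K) (Fin K') A) (y : Matrix (Fin K') (Fin K) A), x * y = e ∧ y * x = e'

/-- ROW cz:KCB (short-medium; from FSB). `τ + g(x)` is a lift of `w'`, so on lifts `τ + g(x) - τ'` is an integer. `τ + h + g(α x) - (τ' + h') = τ + g(x) - τ'`. `g` is bounded. -/
def KCB_stmt : Prop := ∀ (X : Type) [TopologicalSpace X] [CompactSpace X] (α : X ≃ₜ X) (w w' : C(X, ℂ)) (h h' g : C(X, ℝ)),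
  Rot α w h → Rot α w' h' → (∀ x, w' x = Complex.exp (2 * Real.pi * Complex.I * g x) * w x) →
  (∀ x, h' x = h x + g (α x) - g x) →
  Kern α (fun _ : Unit => w) (fun _ => h) (fun _ : Unit => w') (fun _ => h')
    (fun _ _ x τ τ' => lam (τ + g x - τ'))

/-- ROW cz:FAM (medium; from CSM, CSL, FSB). `0 < δ ≤ h ≤ H`. `χ_i(τ) = max 0 (1 - 2|τ - i/4|)`, `0 ≤ i < K`, `K/4 > H + 1`. `Θ(x,τ) = ∑_i ∑_n χ_i(τ + S_n(x))²` is a locally finite sum of continuous functions, positive: the steps of `n ↦ τ + S_n(x)` are in `(0, H]`, so some value is in `[0, H]`,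
at distance `≤ 1/8` of some `i/4`. `Θ(α^n x, τ + S_n(x)) = Θ(x, τ)`. `φ_i = χ_i / √Θ`: `∑_i ∑_n φ_i(β^n(x,τ))² = 1`. If `τ ≠ τ'` are lifts at `x` then `|τ - τ'| ≥ 1`, and the same for `τ + S_n`, `τ' + S_n`: not both in the open interval of length 1 where `χ_i ≠ 0`. (`X` may be empty.) -/
def FAM_stmt : Prop := ∀ (X : Type) [TopologicalSpace X] [CompactSpace X] (α : X ≃ₜ X) (w : C(X, ℂ)) (h : C(X, ℝ)),
  Rot α w h → (∀ x, 0 < h x) → ∃ (K : ℕ) (φ : Fin K → Unit → X → ℝ → ℂ), Fam α (fun _ => w) (fun _ => h) φ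

/-- ROW cz:CL1 (short; from FAM, EEX, IDE). -/
def CL1_stmt : Prop := ∀ (X : Type) [TopologicalSpace X] [CompactSpace X] (α : X ≃ₜ X) (A : Type) [CStarAlgebra A]
  (ι : C(X, ℂ) →⋆ₐ[ℂ] A) (u : unitary A) (c : ℤ → A →ₗ[ℂ] C(X, ℂ)), Cov α ι u c →
  ∀ (w : C(X, ℂ)) (h : C(X, ℝ)), Rot α w h → (∀ x, 0 < h x) → ∃ z : K0 A, IsCls α ι u w h z

/-- ROW cz:CL2 (short; from EQK, KCB). With `g = 0`: the class of `(w, h)` is unique. -/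
def CL2_stmt : Prop := ∀ (X : Type) [TopologicalSpace X] [CompactSpace X] (α : X ≃ₜ X) (A : Type) [CStarAlgebra A]
  (ι : C(X, ℂ) →⋆ₐ[ℂ] A) (u : unitary A) (c : ℤ → A →ₗ[ℂ] C(X, ℂ)), Cov α ι u c →
  ∀ (w w' : C(X, ℂ)) (h h' g : C(X, ℝ)) (z z' : K0 A), Rot α w h → (∀ x, 0 < h x) → Rot α w' h' → (∀ x, 0 < h' x) →
  (∀ x, w' x = Complex.exp (2 * Real.pi * Complex.I * g x) * w x) → (∀ x, h' x = h x + g (α x) - g x) →
  IsCls α ι u w h z → IsCls α ι u w' h' z' → z = z'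

/-- ROW cz:CL3 (short-medium; from CSM, FSB). `K = 1`, `φ(x, τ) = lam τ`. The lifts of 1 are the integers, `S_n = n`: `norm`: `∑_n lam(k + n)² = 1`; `orth`: `lam(k+n) lam(k'+n) = 0` for `k ≠ k'`. `ecoef 0 0 n x = ∑_k lam k · lam (k - n)` is 1 for `n = 0`, otherwise 0, so `e = 1`. -/
def CL3_stmt : Prop := ∀ (X : Type) [TopologicalSpace X] [CompactSpace X] (α : X ≃ₜ X) (A : Type) [CStarAlgebra A]
  (ι : C(X, ℂ) →⋆ₐ[ℂ] A) (u : unitary A), IsCls α ι u 1 1 (unitCls A)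

/-- ROW cz:FM2 (medium). `φ i true = φ₁ i`, `φ i false = 0` for `i < K₁`, `φ (K₁ + i) true = 0`, `φ (K₁ + i) false = φ₂ i` (`Fin.addCases`). Mixed products vanish, so `ecoef` of `φ` is block diagonal and
`e = diag(e₁, e₂) = diag(e₁, 0) + diag(0, e₂)`, `[diag(e₁, 0)] = [e₁]` (`cls_eq` with rectangular matrices), `cls_add`. -/
def FM2_stmt : Prop := ∀ (X : Type) [TopologicalSpace X] [CompactSpace X] (α : X ≃ₜ X) (A : Type) [CStarAlgebra A]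
  (ι : C(X, ℂ) →⋆ₐ[ℂ] A) (u : unitary A) (w₁ w₂ : C(X, ℂ)) (h₁ h₂ : C(X, ℝ)) (K₁ K₂ : ℕ)
  (φ₁ : Fin K₁ → Unit → X → ℝ → ℂ) (φ₂ : Fin K₂ → Unit → X → ℝ → ℂ)
  (e₁ : Matrix (Fin K₁) (Fin K₁) A) (e₂ : Matrix (Fin K₂) (Fin K₂) A) (he₁ : e₁ * e₁ = e₁) (he₂ : e₂ * e₂ = e₂),
  Fam α (fun _ => w₁) (fun _ => h₁) φ₁ → Fam α (fun _ => w₂) (fun _ => h₂) φ₂ →
  MatOf ι u (ecoef α (fun _ : Unit => w₁) (fun _ => h₁) φ₁) e₁ → MatOf ι u (ecoef α (fun _ : Unit => w₂) (fun _ => h₂) φ₂) e₂ →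
  ∃ φ : Fin (K₁ + K₂) → Bool → X → ℝ → ℂ, Fam α (fun b => bif b then w₁ else w₂) (fun b => bif b then h₁ else h₂) φ ∧
    ∃ (e : Matrix (Fin (K₁ + K₂)) (Fin (K₁ + K₂)) A) (he : e * e = e),
      MatOf ι u (ecoef α (fun b : Bool => bif b then w₁ else w₂) (fun b => bif b then h₁ else h₂) φ) e ∧
      cls ⟨K₁ + K₂, e, he⟩ = cls ⟨K₁, e₁, he₁⟩ + cls ⟨K₂, e₂, he₂⟩

/-- ROW cz:FLW (medium; from CSM). `h = h₁ + h₂`, `S_n = csum α (h₁ + h₂) n`, `ρ = h₁/h ∈ [δ₀, 1 - δ₀]` (compactness; `δ₀ = 1/2` if `X` is empty). `c_n(x,τ) = min (max (-τ - S_n(x)) 0) (h(α^n x))`: the length of the part of the segment `[S_n(x), S_(n+1)(x)]` to the left of `-τ`.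
`ξ(x,τ) = ∑_(n ≥ 0) ρ(α^n x) c_n(x,τ) - ∑_(n < 0) ρ(α^n x) (h(α^n x) - c_n(x,τ))` (locally finite, continuous). It is the integral of `ρ` from 0 to `-τ`. `c_n(α x, τ + h x) = c_(n+1)(x, τ)`, so the shift gives `ξ(α x, τ + h x) = ξ(x,τ) - ρ(x) h(x) = ξ(x,τ) - h₁(x)`.
`ξ(x,τ) - ξ(x,τ+1) = ∑_n ρ(α^n x) (c_n(x,τ) - c_n(x,τ+1))` with `c_n(x,τ) - c_n(x,τ+1) ≥ 0`, sum 1 (telescoping). -/
def FLW_stmt : Prop := ∀ (X : Type) [TopologicalSpace X] [CompactSpace X] (α : X ≃ₜ X) (h₁ h₂ : C(X, ℝ)),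
  (∀ x, 0 < h₁ x) → (∀ x, 0 < h₂ x) → ∃ (ξ : X → ℝ → ℝ) (δ₀ : ℝ), 0 < δ₀ ∧ Continuous (fun p : X × ℝ => ξ p.1 p.2) ∧
  (∀ x τ, ξ (α x) (τ + (h₁ x + h₂ x)) = ξ x τ - h₁ x) ∧
  ∀ x τ, δ₀ ≤ ξ x τ - ξ x (τ + 1) ∧ ξ x τ - ξ x (τ + 1) ≤ 1 - δ₀

/-- ROW cz:UNI (medium-long). `η = δ₀/3`. `P = PP`, `Q = QQ`: `|P|² + |Q|² = 1`, `P conj Q + Q conj P = 0`, `P = 1, Q = 0` for `t ≤ -η`, `P = 0, Q = 1` for `t ≥ η`. Call `l` active (with `a`) if `|ξ_l - a| < η` for an integer `a`; then `l ± 1` are not active (`|ξ_(l±1) - ξ_l|` is in `[3η, 1 - 3η]`).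
Row `l`: if `l` is active with `a`, `δ = ξ_l - a`: the entries are `Q(δ)` at `(1,a)` and `P(δ)` at `(2,l-a)`, nothing else. If `l - 1` is active with `a`, `δ = ξ_(l-1) - a`: `P(δ)` at `(1,a)` and `Q(δ)` at `(2, l-1-a)`. If neither: a single entry 1, at `(1, ⌊ξ_l⌋)` if `⌊ξ_l⌋ > ⌊ξ_(l-1)⌋`,
otherwise at `(2, ⌊l - ξ_l⌋)`. Column `(1,a)`: the sequence `ξ_l - a` increases from `-∞` to `∞` with steps `≥ 3η`: either some `l` is active with `a` (entries `Q(δ)` in row `l`, `P(δ)` in row `l + 1`) or there is one `l` with `ξ_(l-1) - a ≤ -η`, `ξ_l - a ≥ η` (a single entry 1 in row `l`).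
Column `(2,b)`: the same with `y_l = l - ξ_l`: `l` active with `a = l - b` (`P(δ)` in row `l`, `Q(δ)` in row `l+1`) or a single entry 1. -/
def UNI_stmt : Prop := ∀ (δ₀ : ℝ), 0 < δ₀ → ∀ ξ : ℤ → ℝ, (∀ l, δ₀ ≤ ξ l - ξ (l - 1) ∧ ξ l - ξ (l - 1) ≤ 1 - δ₀) →
  ∀ (Ua Ub : ℤ → ℤ → ℂ), (∀ l a : ℤ, Ua l a = QQ (δ₀ / 3) (ξ l - a) * PP (δ₀ / 3) (ξ (l - 1) - a)) →
  (∀ l b : ℤ, Ub l b = PP (δ₀ / 3) (b - l + ξ l) * QQ (δ₀ / 3) (b - l + 1 + ξ (l - 1))) →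
  (∀ l, ∑' a : ℤ, Ua l a * conj (Ua l a) + ∑' b : ℤ, Ub l b * conj (Ub l b) = 1) ∧
  (∀ l l', l ≠ l' → ∑' a : ℤ, Ua l a * conj (Ua l' a) + ∑' b : ℤ, Ub l b * conj (Ub l' b) = 0) ∧
  (∀ a, ∑' l : ℤ, Ua l a * conj (Ua l a) = 1) ∧ (∀ a a', a ≠ a' → ∑' l : ℤ, Ua l a * conj (Ua l a') = 0) ∧
  (∀ b, ∑' l : ℤ, Ub l b * conj (Ub l b) = 1) ∧ (∀ b b', b ≠ b' → ∑' l : ℤ, Ub l b * conj (Ub l b') = 0) ∧
  (∀ a b, ∑' l : ℤ, Ua l a * conj (Ub l b) = 0) ∧ (∀ a b, ∑' l : ℤ, Ub l b * conj (Ua l a) = 0)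

/-- ROW cz:ADK (medium; from FSB, UNI). Fix `x`, lifts `τ₁⁰` of `w₁ x`, `τ₂⁰` of `w₂ x`, `τ⁰ = τ₁⁰ + τ₂⁰`; the lifts of `w₁ w₂` are `τ = τ⁰ - l`, those of `w₁` `τ₁⁰ - a`, those of `w₂` `τ₂⁰ - b`. With `ξ_l = τ₁⁰ + ξ(x, τ⁰ - l)` the kernel is `Ua l a`, `Ub l b` of UNI
(`τ + 1 = τ⁰ - (l-1)`; `τ + ξ(x,τ) - τ' = b - l + ξ_l`), so `row`, `col` are UNI (replace `l` by `-l` etc. in the sums). `inv`: `ξ(α x, τ + h) = ξ(x,τ) - h₁ x`. `loc`: `U ≠ 0` forces (first component) `τ' + ξ(x,τ) > -η`, `τ' + ξ(x,τ+1) < η`, and (second component)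
`τ + ξ(x,τ) - τ' < η`, `τ + 1 + ξ(x,τ+1) - τ' > -η`; `ξ` is bounded on `X × [-R, R]`, and `ξ(x,τ) → ∓∞`, `τ + ξ(x,τ) → ±∞` uniformly for `τ → ±∞` (increments). -/
def ADK_stmt : Prop := ∀ (X : Type) [TopologicalSpace X] [CompactSpace X] (α : X ≃ₜ X) (w₁ w₂ : C(X, ℂ)) (h₁ h₂ : C(X, ℝ))
  (ξ : X → ℝ → ℝ) (δ₀ : ℝ), Rot α w₁ h₁ → Rot α w₂ h₂ → 0 < δ₀ → Continuous (fun p : X × ℝ => ξ p.1 p.2) →
  (∀ x τ, ξ (α x) (τ + (h₁ x + h₂ x)) = ξ x τ - h₁ x) → (∀ x τ, δ₀ ≤ ξ x τ - ξ x (τ + 1) ∧ ξ x τ - ξ x (τ + 1) ≤ 1 - δ₀) →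
  Kern α (fun _ : Unit => w₁ * w₂) (fun _ => h₁ + h₂) (fun b : Bool => bif b then w₁ else w₂) (fun b => bif b then h₁ else h₂)
    (fun _ b x τ τ' => bif b then QQ (δ₀ / 3) (τ' + ξ x τ) * PP (δ₀ / 3) (τ' + ξ x (τ + 1))
      else PP (δ₀ / 3) (τ + ξ x τ - τ') * QQ (δ₀ / 3) (τ + 1 + ξ x (τ + 1) - τ'))

/-- ROW cz:CL4 (short-medium; from FM2, FLW, ADK, EQK). Additivity of the class. -/
def CL4_stmt : Prop := ∀ (X : Type) [TopologicalSpace X] [CompactSpace X] (α : X ≃ₜ X) (A : Type) [CStarAlgebra A]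
  (ι : C(X, ℂ) →⋆ₐ[ℂ] A) (u : unitary A) (c : ℤ → A →ₗ[ℂ] C(X, ℂ)), Cov α ι u c →
  ∀ (w₁ w₂ : C(X, ℂ)) (h₁ h₂ : C(X, ℝ)) (z₁ z₂ z : K0 A), Rot α w₁ h₁ → (∀ x, 0 < h₁ x) → Rot α w₂ h₂ → (∀ x, 0 < h₂ x) →
  IsCls α ι u w₁ h₁ z₁ → IsCls α ι u w₂ h₂ z₂ → IsCls α ι u (w₁ * w₂) (h₁ + h₂) z → z = z₁ + z₂

/-- ROW cz:DV0 (medium; from CSM, CSL, FSB, PE1). `Φ(x,τ) = ∑_i φ_i(x,τ)²`, `∑_n Φ(β^n(x,τ)) = 1` on lifts; `∑_i ecoef i i 0 x` is the sum of `Φ` over the lifts. `Ψ(x,τ) = ∑_(n ≥ 0) Φ(β^n(x,τ))` (locally finite, continuous), on lifts 1 for `τ` very negative, 0 for `τ` large;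
`Ψ(x,τ) - Ψ(α x, τ + h x) = Φ(x,τ)`. `θ(τ) = min 1 (max 0 (-τ))`. `G(x)` = sum over the lifts of `(Ψ - θ) κ`, `κ` a continuous cut-off function of `τ`, 1 where `Ψ - θ ≠ 0` on lifts: continuous by PE1. `∑_k (θ(s+k) - θ(s+k+r)) = r` for real `s, r` (the function
`s ↦ ∑_k (θ(s+k) - 1_(k<0))` is `-s`). So `G(α x) - G(x) = -∑ Φ + h(x)`; `g = -G`. -/
def DV0_stmt : Prop := ∀ (X : Type) [TopologicalSpace X] [CompactSpace X] (α : X ≃ₜ X) (w : C(X, ℂ)) (h : C(X, ℝ)),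
  Rot α w h → (∀ x, 0 < h x) → ∀ (K : ℕ) (φ : Fin K → Unit → X → ℝ → ℂ), Fam α (fun _ => w) (fun _ => h) φ →
  ∃ g : C(X, ℂ), ∀ x, ∑ i, ecoef α (fun _ : Unit => w) (fun _ => h) φ i i 0 x - (h x : ℂ) = g (α x) - g x

/-- ROW cz:CL5 (short; from SMA, DV0). The entries of `e` are finite sums of monomials, so smooth (SMA), and `c 0 (e i i)` is the coefficient 0 (`cval`). -/
def CL5_stmt : Prop := ∀ (X : Type) [TopologicalSpace X] [CompactSpace X] (α : X ≃ₜ X) (A : Type) [CStarAlgebra A]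
  (ι : C(X, ℂ) →⋆ₐ[ℂ] A) (u : unitary A) (c : ℤ → A →ₗ[ℂ] C(X, ℂ)), Cov α ι u c →
  ∀ D : K0 A →+ C(X, ℂ) ⧸ Bd α, (∀ p : IdemMat A, SmM ι u p.e → D (cls p) = QuotientAddGroup.mk (∑ i, c 0 (p.e i i))) →
  ∀ (w : C(X, ℂ)) (h : C(X, ℝ)) (z : K0 A), Rot α w h → (∀ x, 0 < h x) → IsCls α ι u w h z →
    D z = QuotientAddGroup.mk (rc h)

/-! ## Block E -/

/-- ROW cz:HIN (short-medium; from CL2, CL5). `rc h₁ - rc h₂ ∈ Bd`: `h₁ - h₂ = g ∘ α - g`, `g` real (real part). `r = w₁ conj(e^(2πig) w₂)` is unimodular and `α`-invariant, so constant (dense orbits), `r = e^(2πis)`. CL2 with `g + s`. (`X` may be empty: then all functions on `X` are equal.) -/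
def HIN_stmt : Prop := ∀ (X : Type) [TopologicalSpace X] [CompactSpace X] (α : X ≃ₜ X) (A : Type) [CStarAlgebra A]
  (ι : C(X, ℂ) →⋆ₐ[ℂ] A) (u : unitary A) (c : ℤ → A →ₗ[ℂ] C(X, ℂ)), Cov α ι u c → IsMinimal α →
  ∀ D : K0 A →+ C(X, ℂ) ⧸ Bd α, (∀ p : IdemMat A, SmM ι u p.e → D (cls p) = QuotientAddGroup.mk (∑ i, c 0 (p.e i i))) →
  ∀ (w₁ w₂ : C(X, ℂ)) (h₁ h₂ : C(X, ℝ)) (z₁ z₂ : K0 A), Rot α w₁ h₁ → (∀ x, 0 < h₁ x) → Rot α w₂ h₂ → (∀ x, 0 < h₂ x) →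
  IsCls α ι u w₁ h₁ z₁ → IsCls α ι u w₂ h₂ z₂ → D z₁ = D z₂ → z₁ = z₂

/-- ROW cz:POS (short-medium). Tracial states (positive functionals) are bounded. `‖a‖ - a ≥ 0` is `b* b` for self-adjoint `a` (continuous functional calculus), so `|τ(a)| ≤ ‖a‖`; general `a`: real and imaginary part. Or a theorem of Mathlib on positive linear maps. -/
def POS_stmt : Prop := ∀ (A : Type) [CStarAlgebra A] (t : TracialState A), ∃ C : ℝ, ∀ a, ‖t.τ a‖ ≤ C * ‖a‖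

/-- ROW cz:TV1 (medium; from CEX). `α^n` (`n ≠ 0`) has no fixed point: its orbit would be finite, closed and dense, but `X` is infinite. So every `x` has an open neighbourhood `O` with `O ∩ α^n(O) = ∅`. Finitely many `O_i` cover `X`; partition of unity `g_i` (`PartitionOfUnity`, supports in `O_i`),
`k_i ∈ C(X)` equal to 1 on the support of `g_i`, with support in `O_i` (Urysohn; or take `k_i = g_i^(1/2)` and `g_i^(1/2)`). `τ(ι(f g_i) u^n) = τ(ι(k_i) ι(f g_i) u^n) = τ(ι(f g_i) u^n ι(k_i)) = τ(ι(f g_i · (k_i ∘ α^(-n))) u^n) = 0`. Sum over `i`. -/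
def TV1_stmt : Prop := ∀ (X : Type) [TopologicalSpace X] [CompactSpace X] [T2Space X] [Infinite X] (α : X ≃ₜ X) (A : Type) [CStarAlgebra A]
  (ι : C(X, ℂ) →⋆ₐ[ℂ] A) (u : unitary A) (c : ℤ → A →ₗ[ℂ] C(X, ℂ)), Cov α ι u c → IsMinimal α →
  ∀ (t : TracialState A) (n : ℤ) (f : C(X, ℂ)), n ≠ 0 → t.τ (ι f * up u n) = 0

/-- ROW cz:TV2 (medium; from SMC, KSM, POS, TV1). `a` smooth: `τ(a) = τ(ι(c_0 a))` (continuity, TV1). `τ(ι(g ∘ α - g)) = 0` (`ι(g ∘ α) = u* ι(g) u`). So `f ↦ τ(ι f)` defines `T : C(X)/Bd →+ ℂ`, and `pair t` and `T ∘ D` agree on smooth idempotents, so everywhere (KSM; the classes generate `K0 A`). -/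
def TV2_stmt : Prop := ∀ (X : Type) [TopologicalSpace X] [CompactSpace X] [T2Space X] [Infinite X] (α : X ≃ₜ X) (A : Type) [CStarAlgebra A]
  (ι : C(X, ℂ) →⋆ₐ[ℂ] A) (u : unitary A) (c : ℤ → A →ₗ[ℂ] C(X, ℂ)), Cov α ι u c → IsMinimal α →
  ∀ D : K0 A →+ C(X, ℂ) ⧸ Bd α, (∀ p : IdemMat A, SmM ι u p.e → D (cls p) = QuotientAddGroup.mk (∑ i, c 0 (p.e i i))) →
  ∀ (t : TracialState A) (g : K0 A), D g = 0 → pair t g = 0

/-- ROW cz:MAI (medium; from COE, DMP, INT, CL1, CL2, CL3, CL4, CL5, HIN, TV2). `H` = all `z₁ - z₂`, `z_i` the class of `(w_i, h_i)`, `h_i > 0`: a subgroup (CL1, CL4: `(z₁ - z₂) + (z₃ - z₄) = z₁₃ - z₂₄`), contains `unitCls = (unitCls + unitCls) - unitCls` (CL3, CL4: the class of `(1, 2)` minus that of `(1, 1)`).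
`D` is injective on `H`: `D(z₁) = D(z₂)` gives `z₁ = z₂` (HIN). `C(X)/Bd` has no torsion (`n f = g ∘ α - g` gives `f = (g/n) ∘ α - g/n`), so `H` is torsion free. `S = ker D`, `H ∩ S = 0`. `H + S`: `D g = rc h`, `Rot α w h` (INT), `N` natural with `h + N > 0` (compactness), `z` = class of `(w, h + N)`:
`D(z - N unitCls) = rc h` (CL5, CL3), `z - N unitCls ∈ H`. Traces: TV2. -/
def MAI_stmt : Prop := ∀ (X : Type) [TopologicalSpace X] [CompactSpace X] [T2Space X] [Infinite X] (α : X ≃ₜ X) (A : Type) [CStarAlgebra A]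
  (ι : C(X, ℂ) →⋆ₐ[ℂ] A) (u : unitary A), IsCrossedProduct α ι u → IsMinimal α →
  ∃ H S : AddSubgroup (K0 A), IsCompl H S ∧ unitCls A ∈ H ∧ (∀ (n : ℕ) (g : K0 A), n ≠ 0 → g ∈ H → n • g = 0 → g = 0) ∧
    ∀ (t : TracialState A), ∀ s ∈ S, pair t s = 0

/-- ROW cz:CO1 (short-medium). `S` contains the torsion of `G` (its `H`-component is torsion). `G = ℤ × ℤ/m`: `H` has rank one (it contains `v ≠ 0`, of infinite order), so `S` is torsion: `S = 0 × ℤ/m`; so the projection `H → ℤ` is bijective, `H` is generated by `(1, b)`, and `(m, 1) = m (1, b) = (m, 0)` is false for `m ≥ 2`. -/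
def CO1_stmt : Prop := ∀ (G : Type) [AddCommGroup G] (H S : AddSubgroup G) (v : G), IsCompl H S → v ∈ H →
  (∀ (n : ℕ) (g : G), n ≠ 0 → g ∈ H → n • g = 0 → g = 0) → ∀ m : ℕ, 2 ≤ m →
  ¬ ∃ φ : G ≃+ ℤ × ZMod m, φ v = ((m : ℤ), 1)

/-- ROW cz:CO2 (short). `S` is torsion: `n s = k v ∈ H ∩ S = 0`. The torsion of `G` is in `S`. So `S` is the torsion subgroup; `P = H`. -/
def CO2_stmt : Prop := ∀ (G : Type) [AddCommGroup G] (H S : AddSubgroup G) (v : G), IsCompl H S → v ∈ H →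
  (∀ (n : ℕ) (g : G), n ≠ 0 → g ∈ H → n • g = 0 → g = 0) → (∀ g : G, ∃ n k : ℤ, n ≠ 0 ∧ n • g = k • v) →
  ∃ P : AddSubgroup G, IsCompl P (AddCommGroup.torsion G)

end Pool.Agent.CZ
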