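import Pool.Agent.helper37.CZ.SD
import Pool.Agent.helper37.CZ.SE
import Pool.Agent.helper37.CZ.SF
import Pool.Agent.helper37.CZ.SG
import Pool.Agent.helper37.CZ.SH
import Pool.Agent.helper37.CZ.Mix
import Pool.Agent.helper10.CZ.OR2
import Pool.Agent.helper2.CZ.CONN
import Pool.Agent.helper22.CZ.RWB
import Pool.Agent.helper27.CZ.ASY
import Pool.Agent.helper27.CZ.DV0
import Pool.Agent.helper27.CZ.EQV
import Pool.Agent.helper27.CZ.EXB
import Pool.Agent.helper27.CZ.LC1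
import Pool.Agent.helper27.CZ.SMM
import Pool.Agent.helper27.CZ.POS
import Pool.Agent.helper31.CZ.INT
import Pool.Agent.helper36.CZ.LC3
import Pool.Agent.helper36.CZ.VWE
import Pool.Agent.helper39.CZ.FLW
import Pool.Agent.helper41.CZ.UNI
import Pool.Agent.helper45.CZ.CO1
import Pool.Agent.helper45.CZ.KRA
import Pool.Agent.helper46.CZ.CBD
import Pool.Agent.helper46.CZ.CEX
import Pool.Agent.helper46.CZ.COE
import Pool.Agent.helper52.CZ.BLD
import Pool.Agent.helper52.CZ.KER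
import Pool.Agent.helper52.CZ.TR1
import Pool.Agent.helper54.CZ.DMP
import Pool.Agent.helper62.CZ.DEX
import Pool.Agent.helper63.CZ.KCB
import Pool.Agent.helper63.CZ.OR3
import Pool.Agent.helper64.CZ.CSL
import Pool.Agent.helper66.CZ.FPM
import Pool.Agent.helper72.CZ.LC2
import Pool.Agent.helper74.CZ.VEX
import Pool.Agent.helper79.CZ.TV1
import Pool.Agent.helper82.CZ.EEX
import Pool.Agent.helper82.CZ.TV2
import Pool.Agent.helper84.CZ.ADK
import Pool.Agent.helper84.CZ.NEW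
import Pool.Agent.helper85.CZ.DTP
import Pool.Agent.helper85.CZ.TR2
import Pool.Agent.helper89.CZ.NEU
import Pool.Agent.helper92.CZ.SMI
import Pool.Agent.helper92.CZ.TRC
import Pool.Agent.helper90.CZ.CLO
import Pool.Agent.helper6.CZ.FAM

/-!
# Project cz (MP_376aaf_an): assembly
-/

set_option autoImplicit false

namespace Pool.Agent.CZ

theorem Top_SMM : SMM_stmt := SMM CEX SMC
theorem Top_TRC : TRC_stmt := TRC Top_SMM SMC
theorem Top_TR1 : TR1_stmt := TR1 CEX SMC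
theorem Top_NEU : NEU_stmt := NEU Top_TR1 TR2
theorem Top_SMI : SMI_stmt := SMI SMA Top_TR1 TR2 NEW
theorem Top_EQV : EQV_stmt := EQV SMA Top_SMM Top_NEU
theorem Top_KSM : KSM_stmt := KSM Top_SMI CLO
theorem Top_DMP : DMP_stmt := DMP SMA Top_KSM Top_EQV Top_TRC Top_SMM
theorem Top_EXB : EXB_stmt := EXB RWB LC1 (LC2 LC1) (LC3 LC1)
theorem Top_CON : CON_stmt := CON Top_EXB DTP DEX BLD
theorem Top_CBD : CBD_stmt := CBD Top_EXB DTP DEX
theorem Top_INK : INK_stmt := INK Top_CON Top_CBD ASY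
theorem Top_KER : KER_stmt := KER SMC Top_SMM
theorem Top_INT : INT_stmt := INT Top_KSM Top_KER Top_INK
theorem Top_CSL : CSL_stmt := CSL CSM
theorem Top_PE1 : PE1_stmt := PE1 FSB
theorem Top_VEX : VEX_stmt := VEX CSM Top_PE1
theorem Top_EEX : EEX_stmt := EEX CSM Top_PE1
theorem Top_OR2 : OR2_stmt := OR2 CSM
theorem Top_OR1 : OR1_stmt := OR1 CSM Top_CSL FSB Top_OR2
theorem Top_OR3 : OR3_stmt := OR3 FSB Top_OR2
theorem Top_FPM : FPM_stmt := FPM CEX
theorem Top_VWE : VWE_stmt := VWE Top_FPM FSB KAD Top_OR1 Top_OR2 Top_OR3 KRA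
theorem Top_KDL : KDL_stmt := KDL FSB
theorem Top_IDE : IDE_stmt := IDE Top_VWE Top_KDL
theorem Top_EQK : EQK_stmt := EQK Top_VEX Top_VWE KAD
theorem Top_KCB : KCB_stmt := KCB FSB
theorem Top_FAM : FAM_stmt := FAM CSM Top_CSL FSB
theorem Top_CL1 : CL1_stmt := CL1 Top_FAM Top_EEX Top_IDE
theorem Top_CL2 : CL2_stmt := CL2 Top_EQK Top_KCB
theorem Top_CL3 : CL3_stmt := CL3 CSM FSB
theorem Top_FLW : FLW_stmt := FLW CSM
theorem Top_ADK : ADK_stmt := ADK FSB UNI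
theorem Top_CL4 : CL4_stmt := CL4 FM2 Top_FLW Top_ADK Top_EQK
theorem Top_DV0 : DV0_stmt := DV0 CSM Top_CSL FSB Top_PE1
theorem Top_CL5 : CL5_stmt := CL5 SMA Top_DV0
theorem Top_HIN : HIN_stmt := HIN Top_CL2 Top_CL5
theorem Top_TV1 : TV1_stmt := TV1 CEX
theorem Top_TV2 : TV2_stmt := TV2 SMC Top_KSM POS Top_TV1
theorem Top_MAI : MAI_stmt := MAI COE Top_DMP Top_INT Top_CL1 Top_CL2 Top_CL3 Top_CL4 Top_CL5 Top_HIN Top_TV2

/-- the unit class has infinite order -/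
theorem Top_unit (X : Type) [TopologicalSpace X] [CompactSpace X] [Nonempty X] (α : X ≃ₜ X) (A : Type) [CStarAlgebra A]
    (ι : C(X, ℂ) →⋆ₐ[ℂ] A) (u : unitary A) (h : IsCrossedProduct α ι u) (n : ℤ) (hn : n ≠ 0) : n • unitCls A ≠ 0 := by
  intro h0
  obtain ⟨c, hc⟩ := COE X α A ι u h
  obtain ⟨D, hD⟩ := Top_DMP X α A ι u c hc
  have hone : ∀ x : X, 0 < (1 : C(X, ℝ)) x := fun x => one_pos
  have h1 := Top_CL5 X α A ι u c hc D hD 1 1 (unitCls A) (MAI_rot_one α) hone (Top_CL3 X α A ι u)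
  have h2 : D (n • unitCls A) = 0 := by rw [h0, map_zero]
  rw [map_zsmul, h1, ← QuotientAddGroup.mk_zsmul, QuotientAddGroup.eq_zero_iff] at h2
  obtain ⟨g, hg⟩ := h2
  have hstep : ∀ x, g (α x) - g x = (n : ℂ) := by
    intro x
    rw [← hg x, ContinuousMap.zsmul_apply, zsmul_eq_mul]
    change (n : ℂ) * (((1 : C(X, ℝ)) x : ℝ) : ℂ) = _
    rw [ContinuousMap.one_apply]
    simp
  obtain ⟨x0⟩ := ‹Nonempty X›
  have hk : ∀ k : ℕ, g ((α ^ (k : ℤ)) x0) = g x0 + k * n := by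
    intro k
    induction k with
    | zero => simp
    | succ k ih =>
      have e : (α ^ ((k + 1 : ℕ) : ℤ)) x0 = α ((α ^ (k : ℤ)) x0) := by
        rw [Nat.cast_succ, add_comm, zpow_add, zpow_one]; rfl
      have := hstep ((α ^ (k : ℤ)) x0)
      rw [e, sub_eq_iff_eq_add.mp this, ih]
      push_cast
      ring
  obtain ⟨k, hk'⟩ := exists_nat_gt (2 * ‖g‖)
  have h3 : ‖(k : ℂ) * n‖ ≤ 2 * ‖g‖ := by
    have e : (k : ℂ) * n = g ((α ^ (k : ℤ)) x0) - g x0 := by rw [hk]; ring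
    rw [e]
    calc ‖g ((α ^ (k : ℤ)) x0) - g x0‖ ≤ ‖g ((α ^ (k : ℤ)) x0)‖ + ‖g x0‖ := norm_sub_le _ _
      _ ≤ ‖g‖ + ‖g‖ := add_le_add (g.norm_coe_le_norm _) (g.norm_coe_le_norm _)
      _ = 2 * ‖g‖ := by ring
  rw [norm_mul, Complex.norm_natCast, Complex.norm_intCast] at h3
  have h4 : (1 : ℝ) ≤ |(n : ℝ)| := by
    have := Int.one_le_abs hn
    exact_mod_cast this
  have h5 : (k : ℝ) ≤ (k : ℝ) * |(n : ℝ)| := le_mul_of_one_le_right (Nat.cast_nonneg k) h4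
  linarith

end Pool.Agent.CZ
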